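import Pool.Agent.H56.Inv.Main

/-!
The `(des, maj)` distribution on involutions: definitions and the joint theorem.
-/

set_option autoImplicit false

namespace Pool.H56.InvQ

open Polynomial Finset Pool.H56.Inv

/-- the descents of `σ`, as indices `i` with `σ (i+1) < σ i`. -/
def desSet {n : ℕ} (σ : Equiv.Perm (Fin n)) : Finset (Fin n) :=
  univ.filter fun i : Fin n => ∃ j : Fin n, j.val = i.val + 1 ∧ σ j < σ i

/-- the ascents of `σ`. -/
def ascSet {n : ℕ} (σ : Equiv.Perm (Fin n)) : Finset (Fin n) :=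
  univ.filter fun i : Fin n => ∃ j : Fin n, j.val = i.val + 1 ∧ σ i < σ j

/-- `I_n(t,q)`; the outer variable is `t`, the inner variable is `q`. -/
noncomputable def invPoly (n : ℕ) : Polynomial (Polynomial ℤ) :=
  ∑ σ ∈ (univ : Finset (Equiv.Perm (Fin n))).filter (fun σ => σ * σ = 1),
    (X : Polynomial (Polynomial ℤ)) ^ (desSet σ).card *
      C ((X : Polynomial ℤ) ^ (∑ i ∈ desSet σ, (i.val + 1)))

/-- the right-hand side of the expansion. -/
noncomputable def expansion (n : ℕ) (γ : ℕ → Polynomial ℤ) : Polynomial (Polynomial ℤ) :=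
  ∑ k ∈ range ((n - 1) / 2 + 1),
    C (γ k) * (X : Polynomial (Polynomial ℤ)) ^ k * C ((X : Polynomial ℤ) ^ ((k + 1).choose 2)) *
      ∏ i ∈ Icc (k + 1) (n - 1 - k),
        (1 + (X : Polynomial (Polynomial ℤ)) * C ((X : Polynomial ℤ) ^ i))

/-- the fixed point free involutions of a `2j`-element set with `k` ascents, weighted by `q` to
the sum of the ascents. -/
noncomputable def fpfAsc (j k : ℕ) : Polynomial ℤ :=
  ∑ σ ∈ (univ : Finset (Equiv.Perm (Fin (2 * j)))).filter
      (fun σ => σ * σ = 1 ∧ (∀ x, σ x ≠ x) ∧ (ascSet σ).card = k),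
    (X : Polynomial ℤ) ^ (∑ i ∈ ascSet σ, (i.val + 1))

theorem DI_one {n : ℕ} (σ : Equiv.Perm (Fin n)) : DI 1 σ = desSet σ := by
  unfold DI desSet
  apply Finset.filter_congr
  intro i _
  simp only [one_mul, Nat.cast_lt, Fin.lt_def]

theorem DI_neg {n : ℕ} (σ : Equiv.Perm (Fin n)) : DI (-1) σ = ascSet σ := by
  unfold DI ascSet
  apply Finset.filter_congr
  intro i _
  have : ∀ j : Fin n, (-1 * ((σ j : ℕ) : ℤ) < -1 * ((σ i : ℕ) : ℤ)) ↔ σ i < σ j := by
    intro j
    rw [Fin.lt_def]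
    omega
  simp only [this]

theorem kap_eq (j k : ℕ) : kap j k = fpfAsc j k := by
  unfold kap fpfAsc InvF Invo
  rw [Finset.filter_filter, Finset.filter_filter]
  simp_rw [DI_neg]

theorem coeff_invPoly (n r : ℕ) : (invPoly n).coeff r = pc 1 n r := by
  unfold invPoly pc Invo
  rw [Polynomial.finsetSum_coeff, Finset.sum_filter (s := univ.filter _)]
  apply Finset.sum_congr rfl
  intro σ _
  rw [Polynomial.coeff_mul_C, Polynomial.coeff_X_pow, DI_one]
  simp only [eq_comm (a := r)]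
  split_ifs <;> simp

theorem coeff_prod_eq (n k a : ℕ) :
    (∏ i ∈ Icc (k + 1) (n - 1 - k), (1 + X * C ((X : Polynomial ℤ) ^ i)) :
      Polynomial (Polynomial ℤ)).coeff a = PowerSeries.coeff a (Es n k) := by
  rw [← Polynomial.coeff_coe]
  congr 1
  rw [← Polynomial.coeToPowerSeries.ringHom_apply, map_prod]
  unfold Es
  apply Finset.prod_congr rfl
  intro i _
  rw [map_add, map_one, map_mul, Polynomial.coeToPowerSeries.ringHom_apply,
    Polynomial.coeToPowerSeries.ringHom_apply, Polynomial.coe_X, Polynomial.coe_C, mul_comm]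

theorem coeff_expansion (n r : ℕ) (γ : ℕ → Polynomial ℤ) :
    (expansion n γ).coeff r = ∑ j ∈ range ((n - 1) / 2 + 1), γ j * bc n j r := by
  unfold expansion
  rw [Polynomial.finsetSum_coeff]
  apply Finset.sum_congr rfl
  intro k _
  have e : C (γ k) * (X : Polynomial (Polynomial ℤ)) ^ k
      * C ((X : Polynomial ℤ) ^ ((k + 1).choose 2)) *
      ∏ i ∈ Icc (k + 1) (n - 1 - k), (1 + X * C ((X : Polynomial ℤ) ^ i))
      = C (γ k * (X : Polynomial ℤ) ^ ((k + 1).choose 2)) *
        (X ^ k * ∏ i ∈ Icc (k + 1) (n - 1 - k), (1 + X * C ((X : Polynomial ℤ) ^ i))) := by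
    rw [C_mul]; ring
  rw [e, Polynomial.coeff_C_mul, Polynomial.coeff_X_pow_mul']
  unfold bc
  split_ifs with h
  · rw [coeff_prod_eq]; ring
  · simp

theorem expansion_iff (n : ℕ) (γ : ℕ → Polynomial ℤ) : invPoly n = expansion n γ ↔
    ∀ r, pc 1 n r = ∑ j ∈ range ((n - 1) / 2 + 1), γ j * bc n j r := by
  constructor
  · intro h r
    rw [← coeff_invPoly, h, coeff_expansion]
  · intro h
    ext1 r
    rw [coeff_invPoly, h, coeff_expansion]

/-- For every `n ≥ 1` there are polynomials `γ_k ∈ ℤ[q]`, unique for `k ≤ (n-1)/2`, giving the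
expansion; `γ_k` is palindromic; for `m ≤ n/2` the coefficient of `q^m` in
`q^{(k+1 choose 2)} γ_k` is that of `(1+q)⋯(1+q^k)` times the ascent polynomial of fixed point
free involutions, in particular nonnegative; and all coefficients of `γ_k` are nonnegative if
`k ≤ 1` or `n ≥ 32 (k+1)^8`. -/
theorem joint : ∀ n : ℕ, 1 ≤ n → ∃ γ : ℕ → Polynomial ℤ,
    invPoly n = expansion n γ ∧
    (∀ γ' : ℕ → Polynomial ℤ, invPoly n = expansion n γ' → ∀ k, k ≤ (n - 1) / 2 → γ' k = γ k) ∧
    (∀ k, k ≤ (n - 1) / 2 →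
      (∀ m, m ≤ k * (n - 1 - k) → (γ k).coeff m = (γ k).coeff (k * (n - 1 - k) - m)) ∧
      (∀ m, k * (n - 1 - k) < m → (γ k).coeff m = 0) ∧
      (∀ m, m ≤ n / 2 → (X ^ ((k + 1).choose 2) * γ k).coeff m
        = ((∏ i ∈ range k, (1 + X ^ (i + 1))) * fpfAsc (n / 2) k).coeff m) ∧
      (∀ m, (k + 1).choose 2 + m ≤ n / 2 → 0 ≤ (γ k).coeff m) ∧
      (k ≤ 1 ∨ 32 * (k + 1) ^ 8 ≤ n → ∀ m, 0 ≤ (γ k).coeff m)) := by
  intro n hn
  obtain ⟨γ, hγ⟩ := peel hn ((n - 1) / 2 + 1) 0 (pc 1 n) (by omega) (pc_sym n) (pc_div n)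
    (fun r hr => by omega)
  have hev := ev_of_expansion hγ
  have hshift : ∀ k m : ℕ, ((X : Polynomial ℤ) ^ ((k + 1).choose 2) * γ k).coeff
      ((k + 1).choose 2 + m) = (γ k).coeff m := by
    intro k m
    have := Polynomial.coeff_X_pow_mul (γ k) ((k + 1).choose 2) m
    rwa [add_comm m] at this
  have hpal : ∀ k, k ≤ (n - 1) / 2 → PalP (n * k) (X ^ ((k + 1).choose 2) * γ k) :=
    fun k hk => c_pal _ hev k hk
  have harith : ∀ k, k ≤ (n - 1) / 2 → n * k = k * (n - 1 - k) + 2 * (k + 1).choose 2 := by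
    intro k hk
    have h1 : 2 * (k + 1).choose 2 = (k + 1) * k := by
      have h0 : 2 ∣ (k + 1) * k := by
        rw [mul_comm]
        exact (Nat.even_mul_succ_self k).two_dvd
      rw [Nat.choose_two_right, Nat.add_sub_cancel]
      exact Nat.mul_div_cancel' h0
    obtain ⟨d, hd⟩ : ∃ d, n = 1 + k + d := ⟨n - 1 - k, by omega⟩
    have h2 : n - 1 - k = d := by omega
    rw [h1, h2, hd]
    ring
  refine ⟨γ, (expansion_iff n γ).2 hγ, ?_, ?_⟩
  · intro γ' hγ' k hk
    have hev' := ev_of_expansion ((expansion_iff n γ').1 hγ')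
    have h1 := hev'.unique hev k hk
    exact mul_left_cancel₀ (pow_ne_zero _ Polynomial.X_ne_zero) h1
  · intro k hk
    have hp := hpal k hk
    have ha := harith k hk
    refine ⟨?_, ?_, ?_, ?_, ?_⟩
    · intro m hm
      rw [← hshift k m, ← hshift k (k * (n - 1 - k) - m), hp.coeff (by omega)]
      congr 1
      omega
    · intro m hm
      rw [← hshift]
      by_cases h1 : (k + 1).choose 2 + m ≤ n * k
      · rw [hp.coeff h1, Polynomial.coeff_X_pow_mul', if_neg (by omega)]
      · exact hp.coeff_zero (by omega)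
    · intro m hm
      obtain ⟨r, hr⟩ := stable_main _ hev hn k hk
      have h1 : X ^ ((k + 1).choose 2) * γ k
          = Q k * kap (n / 2) k + Polynomial.X ^ (n / 2 + 1) * r := by
        rw [← hr]; ring
      rw [h1, Polynomial.coeff_add, Polynomial.coeff_X_pow_mul', if_neg (by omega), add_zero,
        kap_eq]
      rfl
    · intro m hm
      rw [← hshift]
      exact low_nonneg hn _ hev hk hm
    · intro hbig m
      rw [← hshift]
      exact all_nonneg hev hn k hk hbig _

end Pool.H56.InvQ
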