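import Pool.Agent.H56.Inv.Pal

set_option autoImplicit false
open Finset

namespace Pool.H56.Inv

/-- nonnegative coefficients. -/
def NN (p : Polynomial ℤ) : Prop := ∀ M, 0 ≤ p.coeff M

theorem NN.zero : NN 0 := fun M => by simp
theorem NN.one : NN 1 := fun M => by
  rw [Polynomial.coeff_one]; split_ifs <;> norm_num
theorem NN.X_pow (m : ℕ) : NN (Polynomial.X ^ m) := fun M => by
  rw [Polynomial.coeff_X_pow]; split_ifs <;> norm_num
theorem NN.add {p r : Polynomial ℤ} (hp : NN p) (hr : NN r) : NN (p + r) := fun M => by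
  rw [Polynomial.coeff_add]; exact add_nonneg (hp M) (hr M)
theorem NN.mul {p r : Polynomial ℤ} (hp : NN p) (hr : NN r) : NN (p * r) :=
  fun M => mul_nonneg_coeff hp hr M
theorem NN.sum {ι : Type*} (T : Finset ι) (f : ι → Polynomial ℤ) (h : ∀ i ∈ T, NN (f i)) :
    NN (∑ i ∈ T, f i) := fun M => by
  rw [Polynomial.finsetSum_coeff]
  exact Finset.sum_nonneg fun i hi => h i hi M

/-- `[n+1]_q`. -/
noncomputable def qn (n : ℕ) : Polynomial ℤ := ∑ i ∈ range (n + 1), Polynomial.X ^ i

theorem NN.qn (n : ℕ) : NN (qn n) := NN.sum _ _ fun i _ => NN.X_pow i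

/-- finite products. -/
noncomputable def ES (S : Finset ℕ) : PowerSeries (Polynomial ℤ) :=
  ∏ i ∈ S, (1 + PowerSeries.C (Polynomial.X ^ i) * PowerSeries.X)

theorem ES_step (S : Finset ℕ) : (∀ m, NN (PowerSeries.coeff m (ES S))) ∧
    ∀ m, NN ((∑ i ∈ S, Polynomial.X ^ i) * PowerSeries.coeff m (ES S)
      - PowerSeries.coeff (m + 1) (ES S)) := by
  classical
  induction S using Finset.induction_on with
  | empty =>
    constructor
    · intro m
      simp only [ES, prod_empty]
      rw [PowerSeries.coeff_one]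
      split_ifs
      · exact NN.one
      · exact NN.zero
    · intro m
      simp only [ES, prod_empty, sum_empty, zero_mul, zero_sub]
      rw [PowerSeries.coeff_one, if_neg (by omega), neg_zero]
      exact NN.zero
  | insert s S hs ih =>
    have h0 : ES (insert s S) = ES S + PowerSeries.C (Polynomial.X ^ s) * (PowerSeries.X * ES S) := by
      unfold ES
      rw [Finset.prod_insert hs]
      ring
    have hsucc : ∀ m, PowerSeries.coeff (m + 1) (ES (insert s S))
        = PowerSeries.coeff (m + 1) (ES S) + Polynomial.X ^ s * PowerSeries.coeff m (ES S) := by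
      intro m
      rw [h0, map_add, PowerSeries.coeff_C_mul, PowerSeries.coeff_succ_X_mul]
    have hdiff : ∀ m, NN (PowerSeries.coeff m (ES (insert s S)) - PowerSeries.coeff m (ES S)) := by
      intro m
      cases m with
      | zero =>
        rw [h0, map_add, PowerSeries.coeff_C_mul, PowerSeries.coeff_zero_X_mul]
        simpa using NN.zero
      | succ m =>
        rw [hsucc, add_sub_cancel_left]
        exact (NN.X_pow s).mul (ih.1 m)
    constructor
    · intro m
      have := (hdiff m).add (ih.1 m)
      rwa [sub_add_cancel] at this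
    · intro m
      rw [hsucc, Finset.sum_insert hs]
      have e : (Polynomial.X ^ s + ∑ i ∈ S, Polynomial.X ^ i)
          * PowerSeries.coeff m (ES (insert s S))
          - (PowerSeries.coeff (m + 1) (ES S) + Polynomial.X ^ s * PowerSeries.coeff m (ES S))
          = (Polynomial.X ^ s + ∑ i ∈ S, Polynomial.X ^ i)
            * (PowerSeries.coeff m (ES (insert s S)) - PowerSeries.coeff m (ES S))
            + ((∑ i ∈ S, Polynomial.X ^ i) * PowerSeries.coeff m (ES S)
              - PowerSeries.coeff (m + 1) (ES S)) := by ring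
      rw [e]
      exact (((NN.X_pow s).add (NN.sum _ _ fun i _ => NN.X_pow i)).mul (hdiff m)).add (ih.2 m)

theorem Es_NN (n k m : ℕ) : NN (PowerSeries.coeff m (Es n k)) := (ES_step _).1 m

theorem Es_step (n k m : ℕ) : NN (qn n * PowerSeries.coeff m (Es n k)
    - PowerSeries.coeff (m + 1) (Es n k)) := by
  have h1 := (ES_step (Icc (k + 1) (n - 1 - k))).2 m
  have h2 : NN (qn n - ∑ i ∈ Icc (k + 1) (n - 1 - k), (Polynomial.X : Polynomial ℤ) ^ i) := by
    have hsub : Icc (k + 1) (n - 1 - k) ⊆ range (n + 1) := by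
      intro x hx
      rw [mem_Icc] at hx
      rw [mem_range]
      omega
    have : qn n - ∑ i ∈ Icc (k + 1) (n - 1 - k), (Polynomial.X : Polynomial ℤ) ^ i
        = ∑ i ∈ range (n + 1) \ Icc (k + 1) (n - 1 - k), Polynomial.X ^ i := by
      unfold qn
      rw [← Finset.sum_sdiff hsub]
      ring
    rw [this]
    exact NN.sum _ _ fun i _ => NN.X_pow i
  have h3 := (h2.mul (Es_NN n k m)).add h1
  have e : (qn n - ∑ i ∈ Icc (k + 1) (n - 1 - k), (Polynomial.X : Polynomial ℤ) ^ i)
      * PowerSeries.coeff m (Es n k) + ((∑ i ∈ Icc (k + 1) (n - 1 - k), Polynomial.X ^ i)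
        * PowerSeries.coeff m (ES (Icc (k + 1) (n - 1 - k)))
        - PowerSeries.coeff (m + 1) (ES (Icc (k + 1) (n - 1 - k))))
      = qn n * PowerSeries.coeff m (Es n k) - PowerSeries.coeff (m + 1) (Es n k) := by
    have : ES (Icc (k + 1) (n - 1 - k)) = Es n k := rfl
    rw [this]
    ring
  rwa [e] at h3

theorem Hs_NN (n m : ℕ) : NN (PowerSeries.coeff m (Hs n)) := by
  unfold Hs Gs
  rw [PowerSeries.coeff_mk]
  exact NN.sum _ _ fun i _ => NN.X_pow _

theorem Hs_succ (n : ℕ) : Hs (n + 1) = Hs n + PowerSeries.C (Polynomial.X ^ (n + 1))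
    * (PowerSeries.X * Hs (n + 1)) := by
  have h1 := Hs_Den n
  have h2 := Hs_Den (n + 1)
  have h4 : Den (n + 1) = Den n * (1 - PowerSeries.C (Polynomial.X ^ (n + 1)) * PowerSeries.X) := by
    unfold Den
    rw [Finset.prod_range_succ _ (n + 1)]
  have h5 : Hs (n + 1) * (1 - PowerSeries.C (Polynomial.X ^ (n + 1)) * PowerSeries.X) = Hs n := by
    calc Hs (n + 1) * (1 - PowerSeries.C (Polynomial.X ^ (n + 1)) * PowerSeries.X)
        = (Hs n * Den n) * (Hs (n + 1)
          * (1 - PowerSeries.C (Polynomial.X ^ (n + 1)) * PowerSeries.X)) := by rw [h1, one_mul]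
      _ = Hs n * (Hs (n + 1) * (Den n
          * (1 - PowerSeries.C (Polynomial.X ^ (n + 1)) * PowerSeries.X))) := by ring
      _ = Hs n := by rw [← h4, h2, mul_one]
  linear_combination h5

theorem Hs_step (n : ℕ) : ∀ m, NN (qn n * PowerSeries.coeff m (Hs n)
    - PowerSeries.coeff (m + 1) (Hs n)) := by
  induction n with
  | zero =>
    intro m
    have h1 := Hs_Den 0
    have h2 : Den 0 = 1 - PowerSeries.X := by
      unfold Den
      simp
    rw [h2, mul_sub, mul_one] at h1
    have h3 := congrArg (PowerSeries.coeff (m + 1)) h1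
    rw [map_sub, PowerSeries.coeff_succ_mul_X, PowerSeries.coeff_one, if_neg (by omega)] at h3
    have h4 : qn 0 = 1 := by simp [qn]
    rw [h4, one_mul]
    have : PowerSeries.coeff m (Hs 0) - PowerSeries.coeff (m + 1) (Hs 0) = 0 := by
      linear_combination -h3
    rw [this]
    exact NN.zero
  | succ n ih =>
    intro m
    have hsucc : ∀ m, PowerSeries.coeff (m + 1) (Hs (n + 1))
        = PowerSeries.coeff (m + 1) (Hs n)
          + Polynomial.X ^ (n + 1) * PowerSeries.coeff m (Hs (n + 1)) := by
      intro m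
      have := congrArg (PowerSeries.coeff (m + 1)) (Hs_succ n)
      rwa [map_add, PowerSeries.coeff_C_mul, PowerSeries.coeff_succ_X_mul] at this
    have hdiff : ∀ m, NN (PowerSeries.coeff m (Hs (n + 1)) - PowerSeries.coeff m (Hs n)) := by
      intro m
      cases m with
      | zero =>
        rw [Hs_zero, Hs_zero, sub_self]
        exact NN.zero
      | succ m =>
        rw [hsucc, add_sub_cancel_left]
        exact (NN.X_pow _).mul (Hs_NN _ _)
    have hq : qn (n + 1) = qn n + Polynomial.X ^ (n + 1) := by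
      unfold qn
      rw [Finset.sum_range_succ _ (n + 1)]
    rw [hsucc, hq]
    have e : (qn n + Polynomial.X ^ (n + 1)) * PowerSeries.coeff m (Hs (n + 1))
        - (PowerSeries.coeff (m + 1) (Hs n)
          + Polynomial.X ^ (n + 1) * PowerSeries.coeff m (Hs (n + 1)))
        = qn n * (PowerSeries.coeff m (Hs (n + 1)) - PowerSeries.coeff m (Hs n))
          + (qn n * PowerSeries.coeff m (Hs n) - PowerSeries.coeff (m + 1) (Hs n)) := by ring
    rw [e]
    exact ((NN.qn n).mul (hdiff m)).add (ih m)

theorem Bs_NN (n k m : ℕ) : NN (PowerSeries.coeff m (Bs n k)) := by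
  unfold Bs
  rw [PowerSeries.coeff_mul]
  exact NN.sum _ _ fun p _ => (Es_NN n k _).mul (Hs_NN n _)

theorem Bs_step (n k m : ℕ) : NN (2 * qn n * PowerSeries.coeff m (Bs n k)
    - PowerSeries.coeff (m + 1) (Bs n k)) := by
  have h1 : PowerSeries.coeff (m + 1) (Bs n k) = PowerSeries.coeff (m + 1) (Es n k)
      + ∑ p ∈ antidiagonal m, PowerSeries.coeff p.1 (Es n k) * PowerSeries.coeff (p.2 + 1) (Hs n) := by
    unfold Bs
    rw [PowerSeries.coeff_mul, Finset.Nat.sum_antidiagonal_succ', Hs_zero, mul_one, add_comm]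
  have h2 : PowerSeries.coeff m (Bs n k)
      = ∑ p ∈ antidiagonal m, PowerSeries.coeff p.1 (Es n k) * PowerSeries.coeff p.2 (Hs n) := by
    unfold Bs
    rw [PowerSeries.coeff_mul]
  have h3 : NN (PowerSeries.coeff m (Bs n k) - PowerSeries.coeff m (Es n k)) := by
    rw [h2]
    have hm : ((m, 0) : ℕ × ℕ) ∈ antidiagonal m := by
      rw [Finset.HasAntidiagonal.mem_antidiagonal]; simp
    rw [← Finset.add_sum_erase _ _ hm]
    simp only
    rw [Hs_zero, mul_one, add_sub_cancel_left]
    exact NN.sum _ _ fun p _ => (Es_NN n k _).mul (Hs_NN n _)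
  have h4 : NN (∑ p ∈ antidiagonal m, PowerSeries.coeff p.1 (Es n k)
      * (qn n * PowerSeries.coeff p.2 (Hs n) - PowerSeries.coeff (p.2 + 1) (Hs n))) :=
    NN.sum _ _ fun p _ => (Es_NN n k _).mul (Hs_step n _)
  have h5 := ((NN.qn n).mul h3).add ((Es_step n k m).add h4)
  have e : qn n * (PowerSeries.coeff m (Bs n k) - PowerSeries.coeff m (Es n k))
      + (qn n * PowerSeries.coeff m (Es n k) - PowerSeries.coeff (m + 1) (Es n k)
        + ∑ p ∈ antidiagonal m, PowerSeries.coeff p.1 (Es n k)
          * (qn n * PowerSeries.coeff p.2 (Hs n) - PowerSeries.coeff (p.2 + 1) (Hs n)))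
      = 2 * qn n * PowerSeries.coeff m (Bs n k) - PowerSeries.coeff (m + 1) (Bs n k) := by
    have h6 : ∑ p ∈ antidiagonal m, PowerSeries.coeff p.1 (Es n k)
          * (qn n * PowerSeries.coeff p.2 (Hs n) - PowerSeries.coeff (p.2 + 1) (Hs n))
        = qn n * PowerSeries.coeff m (Bs n k) - ∑ p ∈ antidiagonal m,
          PowerSeries.coeff p.1 (Es n k) * PowerSeries.coeff (p.2 + 1) (Hs n) := by
      rw [h2, Finset.mul_sum, ← Finset.sum_sub_distrib]
      apply Finset.sum_congr rfl
      intro p _
      ring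
    rw [h6, h1]
    ring
  rwa [e] at h5

/-! ### the shift injection -/

variable {n k : ℕ}

/-- add one to the first `i` values. -/
def shf (f : Fin n → Fin k) (i : ℕ) : Fin n → Fin (k + 1) := fun x =>
  ⟨f x + (if (x : ℕ) < i then 1 else 0), by
    have := (f x).2
    split_ifs <;> omega⟩

theorem shf_val (f : Fin n → Fin k) (i : ℕ) (x : Fin n) :
    (shf f i x : ℕ) = f x + (if (x : ℕ) < i then 1 else 0) := rfl

theorem shf_compat {σ : Equiv.Perm (Fin n)} {f : Fin n → Fin k} (hf : Compat 1 σ f) (i : ℕ) :
    Compat 1 σ (shf f i) := by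
  intro x y hxy
  obtain ⟨h1, h2⟩ := hf x y hxy
  rw [Fin.lt_def] at hxy
  rw [Fin.le_def] at h1
  constructor
  · rw [Fin.le_def, shf_val, shf_val]
    split_ifs <;> omega
  · intro h3
    have h4 := congrArg Fin.val h3
    rw [shf_val, shf_val] at h4
    apply h2
    apply Fin.ext
    split_ifs at h4 <;> omega

/-- the label. -/
def lab (f : Fin n → Fin k) (i : ℕ) : ℕ := if h : i < n then (f ⟨i, h⟩ : ℕ) else 0

theorem lab_iff {σ : Equiv.Perm (Fin n)} {f : Fin n → Fin k} (hf : Compat 1 σ f) (i : ℕ)
    (x : Fin n) : lab f i < (shf f i x : ℕ) ↔ (x : ℕ) < i := by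
  have hanti : ∀ a b : Fin n, a ≤ b → (f b : ℕ) ≤ f a := by
    intro a b hab
    rcases hab.lt_or_eq with h | h
    · exact (hf a b h).1
    · rw [h]
  rw [shf_val]
  unfold lab
  split_ifs with h1 h2
  · have := hanti x ⟨i, h1⟩ (by rw [Fin.le_def]; simp only; omega)
    constructor
    · intro _; exact h2
    · intro _; omega
  · have := hanti ⟨i, h1⟩ x (by rw [Fin.le_def]; simp only; omega)
    constructor
    · intro h; omega
    · intro h; exact absurd h h2
  · rename_i h3
    constructor
    · intro _; exact h3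
    · intro _; omega
  · rename_i h3
    exact absurd (lt_of_lt_of_le x.2 (not_lt.1 h1)) h3

/-- a zero on the boundary. -/
def HZ (A : Fin (k + 1) → Fin (k + 1) → ℕ) : Prop :=
  ∃ z1 z2 : Fin (k + 1), z1 ≠ z2 ∧ (z1 = 0 ∨ z2 = Fin.last k) ∧ A z1 z2 = 0

theorem shf_HZ {σ : Equiv.Perm (Fin n)} (hσ : σ * σ = 1) {f : Fin n → Fin k} (hk : 1 ≤ k)
    (hf : Compat 1 σ f) {i : ℕ} (hi : i ≤ n) : HZ (cnt σ (shf f i)) := by
  have hanti : ∀ a b : Fin n, a ≤ b → (f b : ℕ) ≤ f a := by
    intro a b hab
    rcases hab.lt_or_eq with h | h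
    · exact (hf a b h).1
    · rw [h]
  have hlast0 : (0 : Fin (k + 1)) ≠ Fin.last k := by
    intro h
    have := congrArg Fin.val h
    simp at this
    omega
  have hzero : ∀ a b : Fin (k + 1), (∀ x, shf f i x = a → shf f i (σ x) = b → False) →
      cnt σ (shf f i) a b = 0 := by
    intro a b h
    unfold cnt
    rw [Finset.card_eq_zero, Finset.filter_eq_empty_iff]
    rintro x _ ⟨h1, h2⟩
    exact h x h1 h2
  rcases Nat.eq_zero_or_pos i with h0 | h0
  · refine ⟨0, Fin.last k, hlast0, Or.inl rfl, hzero _ _ ?_⟩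
    intro x _ h2
    have := congrArg Fin.val h2
    rw [shf_val, if_neg (by omega)] at this
    simp only [Fin.val_last] at this
    have := (f (σ x)).2
    omega
  · rcases hi.lt_or_eq with hin | hin
    · -- main case
      have hp : i - 1 < n := by omega
      have hba := hanti ⟨i - 1, hp⟩ ⟨i, hin⟩ (by rw [Fin.le_def]; simp only; omega)
      have hsm : ∀ y : Fin n, (y : ℕ) < i → (f ⟨i - 1, hp⟩ : ℕ) + 1 ≤ shf f i y := by
        intro y hy
        have := hanti y ⟨i - 1, hp⟩ (by rw [Fin.le_def]; simp only; omega)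
        rw [shf_val, if_pos hy]
        omega
      have hlg : ∀ y : Fin n, i ≤ (y : ℕ) → (shf f i y : ℕ) ≤ f ⟨i, hin⟩ := by
        intro y hy
        have := hanti ⟨i, hin⟩ y (by rw [Fin.le_def]; exact hy)
        rw [shf_val, if_neg (by omega)]
        omega
      have ha := (f ⟨i - 1, hp⟩).2
      rcases hba.lt_or_eq with hlt | heq
      · -- an empty row
        refine ⟨0, ⟨f ⟨i - 1, hp⟩, by omega⟩, ?_, Or.inl rfl, hzero _ _ ?_⟩
        · intro h
          have := congrArg Fin.val h
          simp only [Fin.val_zero] at this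
          omega
        · intro x _ h2
          have h3 := congrArg Fin.val h2
          simp only at h3
          rcases Nat.lt_or_ge (σ x : ℕ) i with h4 | h4
          · have := hsm _ h4
            omega
          · have := hlg _ h4
            omega
      · -- equal levels
        have heq' : f ⟨i - 1, hp⟩ = f ⟨i, hin⟩ := Fin.ext heq.symm
        have hσlt : σ ⟨i - 1, hp⟩ < σ ⟨i, hin⟩ := by
          have := (hf ⟨i - 1, hp⟩ ⟨i, hin⟩ (by rw [Fin.lt_def]; simp only; omega)).2 heq'
          rw [Fin.lt_def]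
          omega
        by_cases hz : cnt σ (shf f i) 0 ⟨f ⟨i - 1, hp⟩ + 1, by omega⟩ = 0
        · refine ⟨0, ⟨f ⟨i - 1, hp⟩ + 1, by omega⟩, ?_, Or.inl rfl, hz⟩
          intro h
          have := congrArg Fin.val h
          simp at this
        · -- there is an element
          have hex : ∃ x, shf f i x = 0 ∧ shf f i (σ x) = ⟨f ⟨i - 1, hp⟩ + 1, by omega⟩ := by
            by_contra hcon
            push Not at hcon
            exact hz (hzero _ _ fun x h1 h2 => hcon x h1 h2)
          obtain ⟨x, hx1, hx2⟩ := hex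
          refine ⟨⟨f ⟨i - 1, hp⟩, by omega⟩, Fin.last k, ?_, Or.inr rfl, hzero _ _ ?_⟩
          · intro h
            have := congrArg Fin.val h
            simp only [Fin.val_last] at this
            omega
          · intro z hz1 hz2
            have hsc := shf_compat hf i
            have hy1 := congrArg Fin.val hx2
            have hz1' := congrArg Fin.val hz1
            simp only at hy1 hz1'
            -- σ x < i, z ≥ i
            have hyi : ((σ x : Fin n) : ℕ) < i := by
              by_contra hcon
              have := hlg (σ x) (not_lt.1 hcon)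
              omega
            have hzi : i ≤ (z : ℕ) := by
              by_contra hcon
              have := hsm z (not_le.1 hcon)
              omega
            have h5 : σ (σ x) ≤ σ ⟨i - 1, hp⟩ := by
              rcases Nat.lt_or_ge ((σ x : Fin n) : ℕ) (i - 1) with h6 | h6
              · have h7 := (hsc (σ x) ⟨i - 1, hp⟩ (by rw [Fin.lt_def]; exact h6)).2 (by
                  apply Fin.ext
                  rw [hy1, shf_val, if_pos (by simp only; omega)])
                rw [Fin.le_def]
                omega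
              · have : σ x = ⟨i - 1, hp⟩ := Fin.ext (by simp only; omega)
                rw [this]
            have h6 : σ ⟨i, hin⟩ ≤ σ z := by
              rcases hzi.lt_or_eq with h7 | h7
              · have h8 := (hsc ⟨i, hin⟩ z (by rw [Fin.lt_def]; exact h7)).2 (by
                  apply Fin.ext
                  rw [hz1', shf_val, if_neg (by simp only; omega)]
                  omega)
                rw [Fin.le_def]
                omega
              · have : z = ⟨i, hin⟩ := Fin.ext h7.symm
                rw [this]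
            have h7 : σ (σ x) < σ z := lt_of_le_of_lt h5 (lt_of_lt_of_le hσlt h6)
            have h8 := (hsc _ _ h7).1
            rw [inv_apply hσ, hx1, hz2, Fin.le_def] at h8
            simp only [Fin.val_last, Fin.val_zero] at h8
            omega
    · refine ⟨0, Fin.last k, hlast0, Or.inl rfl, hzero _ _ ?_⟩
      intro x h1 _
      have := congrArg Fin.val h1
      rw [shf_val, if_pos (by rw [hin]; exact x.2)] at this
      simp at this

open Classical in
/-- the matrices with a boundary zero. -/
noncomputable def Y0 (n k M : ℕ) : Finset (Fin (k + 1) → Fin (k + 1) → ℕ) :=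
  (SM n (k + 1)).filter fun A => wt A = M ∧ HZ A

/-- all matrices. -/
def YY (n k M : ℕ) : Finset (Fin (k + 1) → Fin (k + 1) → ℕ) :=
  (SM n (k + 1)).filter fun A => wt A = M

theorem qn_mul_Fp_le (hk : 1 ≤ k) (M : ℕ) :
    (qn n * Fp n k).coeff M ≤ ((k + 1) * (Y0 n k M).card : ℕ) := by
  classical
  set S3 : Finset (ℕ × (Equiv.Perm (Fin n) × (Fin n → Fin k))) :=
    ((range (n + 1)) ×ˢ ((Invo n) ×ˢ univ)).filter
      (fun p => Compat 1 p.2.1 p.2.2 ∧ p.1 + ∑ x, ((p.2.2 x : Fin k) : ℕ) = M) with hS3
  have h1 : (qn n * Fp n k).coeff M = (S3.card : ℤ) := by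
    rw [Fp_eq (Or.inl rfl) n k]
    simp_rw [← sum_compat (Or.inl rfl : (1 : ℤ) = 1 ∨ (1 : ℤ) = -1)]
    unfold qn
    rw [Finset.sum_mul, Polynomial.finsetSum_coeff]
    rw [hS3, Finset.card_filter, Finset.sum_product]
    push_cast
    apply Finset.sum_congr rfl
    intro i _
    rw [Finset.mul_sum, Polynomial.finsetSum_coeff, Finset.sum_product]
    apply Finset.sum_congr rfl
    intro σ _
    rw [Finset.mul_sum, Polynomial.finsetSum_coeff, Finset.sum_filter]
    apply Finset.sum_congr rfl
    intro f _
    simp only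
    rw [← pow_add, Polynomial.coeff_X_pow]
    by_cases hc : Compat 1 σ f
    · simp only [hc, true_and, if_true, eq_comm (a := M)]
    · simp only [hc, false_and, if_false]
  rw [h1]
  norm_cast
  have h2 : (k + 1) * (Y0 n k M).card = ((range (k + 1)) ×ˢ (Y0 n k M)).card := by
    rw [Finset.card_product, Finset.card_range]
  rw [h2]
  apply Finset.card_le_card_of_injOn (fun p => (lab p.2.2 p.1, cnt p.2.1 (shf p.2.2 p.1)))
  · rintro ⟨i, σ, f⟩ hp
    rw [hS3] at hp
    simp only [coe_filter, Set.mem_ofPred_eq, mem_product, mem_range, mem_univ, and_true] at hp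
    obtain ⟨⟨hi, hσ⟩, hc, hM⟩ := hp
    have hσ' : σ * σ = 1 := by
      unfold Invo at hσ
      simpa using hσ
    simp only [coe_product, Set.mem_prod, Finset.mem_coe, mem_range]
    constructor
    · unfold lab
      split_ifs with h
      · have := (f ⟨i, h⟩).2
        omega
      · omega
    · unfold Y0
      rw [mem_filter, mem_SM]
      refine ⟨⟨cnt_symm hσ' _, sum_cnt σ _⟩, ?_, shf_HZ hσ' hk hc (by omega)⟩
      have h3 : wt (cnt σ (shf f i)) = ∑ x, ((shf f i x : Fin (k + 1)) : ℕ) :=
        sum_cnt_mul σ (shf f i) (fun a => (a : ℕ))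
      rw [h3]
      simp_rw [shf_val]
      rw [Finset.sum_add_distrib]
      have h4 : ∑ x : Fin n, (if (x : ℕ) < i then 1 else 0) = i := by
        rw [Fin.sum_univ_eq_sum_range (fun x => if x < i then 1 else 0), ← Finset.card_filter]
        have : (range n).filter (fun x => x < i) = range i := by
          ext x
          simp only [mem_filter, mem_range]
          omega
        rw [this, card_range]
      rw [h4]
      omega
  · rintro ⟨i, σ, f⟩ hp ⟨i', σ', f'⟩ hp' heq
    rw [hS3] at hp hp'
    simp only [coe_filter, Set.mem_ofPred_eq, mem_product, mem_range, mem_univ, and_true] at hp hp'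
    obtain ⟨⟨hi, hσ⟩, hc, hM⟩ := hp
    obtain ⟨⟨hi', hσ'⟩, hc', hM'⟩ := hp'
    simp only [Prod.mk.injEq] at heq
    obtain ⟨hl, hA⟩ := heq
    have hσ1 : σ * σ = 1 := by
      unfold Invo at hσ
      simpa using hσ
    have hσ1' : σ' * σ' = 1 := by
      unfold Invo at hσ'
      simpa using hσ'
    have hinj := compat_inj (Or.inl rfl) hσ1 hσ1' (shf_compat hc i) (shf_compat hc' i')
      (fun a b => congrFun (congrFun hA a) b)
    obtain ⟨rfl, hff⟩ := hinj
    have hiff : ∀ x : Fin n, (x : ℕ) < i ↔ (x : ℕ) < i' := by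
      intro x
      rw [← lab_iff hc i x, ← lab_iff hc' i' x, hl, hff]
    have hii : i = i' := by
      rcases lt_trichotomy i i' with h | h | h
      · have := (hiff ⟨i, by omega⟩).2 h
        simp at this
      · exact h
      · have := (hiff ⟨i', by omega⟩).1 h
        simp at this
    subst hii
    have hf : f = f' := by
      funext x
      have := congrArg Fin.val (congrFun hff x)
      rw [shf_val, shf_val] at this
      exact Fin.ext (by omega)
    rw [hf]

end Pool.H56.Inv
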