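import Pool.Agent.H56.Inv.Stab

set_option autoImplicit false
open Finset

namespace Pool.H56.Inv

/-- `∏_{i=k+1}^{n-1-k} (1 + t q^i)` as a power series. -/
noncomputable def Es (n k : ℕ) : PowerSeries (Polynomial ℤ) :=
  ∏ i ∈ Icc (k + 1) (n - 1 - k), (1 + PowerSeries.C (Polynomial.X ^ i) * PowerSeries.X)

/-- `1/(t;q)_{n+1}`. -/
noncomputable def Hs (n : ℕ) : PowerSeries (Polynomial ℤ) := Gs n ∅

/-- the basis series. -/
noncomputable def Bs (n k : ℕ) : PowerSeries (Polynomial ℤ) := Es n k * Hs n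

theorem Hs_Den (n : ℕ) : Hs n * Den n = 1 := by
  have := Gs_mul_Den n ∅ (by simp)
  simpa [Hs] using this

theorem Hs_shift (n : ℕ) :
    (1 - PowerSeries.C (Polynomial.X ^ (n + 1)) * PowerSeries.X)
        * PowerSeries.rescale (Polynomial.X : Polynomial ℤ) (Hs n)
      = (1 - PowerSeries.X) * Hs n := by
  have h1 := Hs_Den n
  have h2 : PowerSeries.rescale (Polynomial.X : Polynomial ℤ) (Hs n)
      * PowerSeries.rescale (Polynomial.X : Polynomial ℤ) (Den n) = 1 := by
    rw [← map_mul, h1, map_one]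
  have h3 := rescale_Den n
  have h4 : Den (n + 1) = Den n * (1 - PowerSeries.C (Polynomial.X ^ (n + 1)) * PowerSeries.X) := by
    unfold Den
    rw [Finset.prod_range_succ _ (n + 1)]
  rw [h4] at h3
  set a := PowerSeries.rescale (Polynomial.X : Polynomial ℤ) (Hs n)
  set b := PowerSeries.rescale (Polynomial.X : Polynomial ℤ) (Den n)
  set u := (1 - PowerSeries.C ((Polynomial.X : Polynomial ℤ) ^ (n + 1)) * PowerSeries.X)
  calc u * a = u * a * (Hs n * Den n) := by rw [h1, mul_one]
    _ = Hs n * a * (Den n * u) := by ring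
    _ = Hs n * a * ((1 - PowerSeries.X) * b) := by rw [h3]
    _ = (1 - PowerSeries.X) * Hs n * (a * b) := by ring
    _ = _ := by rw [h2, mul_one]

theorem Es_shift {n k : ℕ} (hk : 2 * k + 1 ≤ n) :
    (1 + PowerSeries.C (Polynomial.X ^ (k + 1)) * PowerSeries.X)
        * PowerSeries.rescale (Polynomial.X : Polynomial ℤ) (Es n k)
      = Es n k * (1 + PowerSeries.C (Polynomial.X ^ (n - k)) * PowerSeries.X) := by
  have h1 : PowerSeries.rescale (Polynomial.X : Polynomial ℤ) (Es n k)
      = ∏ i ∈ Icc (k + 2) (n - k), (1 + PowerSeries.C ((Polynomial.X : Polynomial ℤ) ^ i)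
        * PowerSeries.X) := by
    unfold Es
    rw [map_prod]
    refine Finset.prod_bij' (fun i _ => i + 1) (fun i _ => i - 1) ?_ ?_ ?_ ?_ ?_
    · intro i hi
      rw [mem_Icc] at hi ⊢
      omega
    · intro i hi
      rw [mem_Icc] at hi ⊢
      omega
    · intro i hi
      simp
    · intro i hi
      rw [mem_Icc] at hi
      omega
    · intro i hi
      rw [map_add, map_one, map_mul, rescale_C', PowerSeries.rescale_X, pow_succ, map_mul]
      ring
  have h2 : ∏ i ∈ Icc (k + 1) (n - k), (1 + PowerSeries.C ((Polynomial.X : Polynomial ℤ) ^ i)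
        * PowerSeries.X) = (1 + PowerSeries.C (Polynomial.X ^ (k + 1)) * PowerSeries.X)
        * ∏ i ∈ Icc (k + 2) (n - k), (1 + PowerSeries.C ((Polynomial.X : Polynomial ℤ) ^ i)
        * PowerSeries.X) := by
    have : Icc (k + 1) (n - k) = insert (k + 1) (Icc (k + 2) (n - k)) := by
      ext x
      rw [mem_insert, mem_Icc, mem_Icc]
      omega
    rw [this, Finset.prod_insert]
    rw [mem_Icc]
    omega
  have h3 : ∏ i ∈ Icc (k + 1) (n - k), (1 + PowerSeries.C ((Polynomial.X : Polynomial ℤ) ^ i)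
        * PowerSeries.X) = (1 + PowerSeries.C (Polynomial.X ^ (n - k)) * PowerSeries.X)
        * ∏ i ∈ Icc (k + 1) (n - 1 - k), (1 + PowerSeries.C ((Polynomial.X : Polynomial ℤ) ^ i)
        * PowerSeries.X) := by
    have : Icc (k + 1) (n - k) = insert (n - k) (Icc (k + 1) (n - 1 - k)) := by
      ext x
      rw [mem_insert, mem_Icc, mem_Icc]
      omega
    rw [this, Finset.prod_insert]
    rw [mem_Icc]
    omega
  rw [h1, ← h2, h3]
  unfold Es
  ring

theorem Bs_shift {n k : ℕ} (hk : 2 * k + 1 ≤ n) :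
    (1 + PowerSeries.C (Polynomial.X ^ (k + 1)) * PowerSeries.X)
      * (1 - PowerSeries.C (Polynomial.X ^ (n + 1)) * PowerSeries.X)
        * PowerSeries.rescale (Polynomial.X : Polynomial ℤ) (Bs n k)
      = (1 + PowerSeries.C (Polynomial.X ^ (n - k)) * PowerSeries.X)
        * ((1 - PowerSeries.X) * Bs n k) := by
  have h1 := Es_shift hk
  have h2 := Hs_shift n
  unfold Bs
  rw [map_mul]
  set a := PowerSeries.rescale (Polynomial.X : Polynomial ℤ) (Hs n)
  set b := PowerSeries.rescale (Polynomial.X : Polynomial ℤ) (Es n k)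
  calc _ = ((1 + PowerSeries.C (Polynomial.X ^ (k + 1)) * PowerSeries.X) * b)
      * ((1 - PowerSeries.C (Polynomial.X ^ (n + 1)) * PowerSeries.X) * a) := by ring
    _ = _ := by rw [h1, h2]; ring

theorem Bs_zero (n k : ℕ) : PowerSeries.coeff 0 (Bs n k) = 1 := by
  have hE : PowerSeries.constantCoeff (Es n k) = 1 := by
    unfold Es
    rw [map_prod]
    apply Finset.prod_eq_one
    intro i _
    simp
  have hH : PowerSeries.constantCoeff (Hs n) = 1 := by
    have h1 := congrArg PowerSeries.constantCoeff (Hs_Den n)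
    rw [map_mul, map_one] at h1
    have h2 : PowerSeries.constantCoeff (Den n) = 1 := by
      unfold Den
      rw [map_prod]
      apply Finset.prod_eq_one
      intro i _
      simp
    rwa [h2, mul_one] at h1
  rw [PowerSeries.coeff_zero_eq_constantCoeff_apply]
  unfold Bs
  rw [map_mul, hE, hH, one_mul]

theorem Hs_zero (n : ℕ) : PowerSeries.coeff 0 (Hs n) = 1 := by
  have h1 := congrArg PowerSeries.constantCoeff (Hs_Den n)
  rw [map_mul, map_one] at h1
  have h2 : PowerSeries.constantCoeff (Den n) = 1 := by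
    unfold Den
    rw [map_prod]
    apply Finset.prod_eq_one
    intro i _
    simp
  rw [h2, mul_one] at h1
  rw [PowerSeries.coeff_zero_eq_constantCoeff_apply, h1]

/-! ### congruences modulo a power of `q` -/

theorem Hs_rec {n L m : ℕ} (hL : L ≤ n + 1) : (Polynomial.X : Polynomial ℤ) ^ L ∣
    (1 - Polynomial.X ^ (m + 1)) * PowerSeries.coeff (m + 1) (Hs n) - PowerSeries.coeff m (Hs n) := by
  have h := congrArg (PowerSeries.coeff (m + 1)) (Hs_shift n)
  rw [sub_mul, one_mul, sub_mul, one_mul, map_sub, map_sub, mul_assoc, PowerSeries.coeff_C_mul,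
    PowerSeries.coeff_succ_X_mul, PowerSeries.coeff_succ_X_mul, PowerSeries.coeff_rescale,
    PowerSeries.coeff_rescale] at h
  have h1 : (1 - Polynomial.X ^ (m + 1)) * PowerSeries.coeff (m + 1) (Hs n)
      - PowerSeries.coeff m (Hs n)
      = - ((Polynomial.X : Polynomial ℤ) ^ (n + 1) * (Polynomial.X ^ m
        * PowerSeries.coeff m (Hs n))) := by
    linear_combination -h
  rw [h1, dvd_neg]
  exact Dvd.dvd.mul_right (pow_dvd_pow _ hL) _

theorem Bs_rec {n k L m : ℕ} (hk : 2 * k + 1 ≤ n) (hL : L ≤ n - k) :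
    (Polynomial.X : Polynomial ℤ) ^ L ∣
    (1 - Polynomial.X ^ (m + 1)) * PowerSeries.coeff (m + 1) (Bs n k)
      - (1 + Polynomial.X ^ (k + (m + 1))) * PowerSeries.coeff m (Bs n k) := by
  have h := congrArg (PowerSeries.coeff (m + 1)) (Bs_shift hk)
  have e1 : (1 + PowerSeries.C ((Polynomial.X : Polynomial ℤ) ^ (k + 1)) * PowerSeries.X)
      * (1 - PowerSeries.C (Polynomial.X ^ (n + 1)) * PowerSeries.X)
        * PowerSeries.rescale (Polynomial.X : Polynomial ℤ) (Bs n k)
      = PowerSeries.rescale (Polynomial.X : Polynomial ℤ) (Bs n k)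
        + PowerSeries.C ((Polynomial.X : Polynomial ℤ) ^ (k + 1)) * (PowerSeries.X
          * PowerSeries.rescale (Polynomial.X : Polynomial ℤ) (Bs n k))
        - PowerSeries.C (Polynomial.X ^ (n + 1)) *
          ((1 + PowerSeries.C ((Polynomial.X : Polynomial ℤ) ^ (k + 1)) * PowerSeries.X)
            * PowerSeries.X * PowerSeries.rescale (Polynomial.X : Polynomial ℤ) (Bs n k)) := by
    ring
  have e2 : (1 + PowerSeries.C ((Polynomial.X : Polynomial ℤ) ^ (n - k)) * PowerSeries.X)
        * ((1 - PowerSeries.X) * Bs n k)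
      = Bs n k - PowerSeries.X * Bs n k + PowerSeries.C ((Polynomial.X : Polynomial ℤ) ^ (n - k))
        * (PowerSeries.X * ((1 - PowerSeries.X) * Bs n k)) := by
    ring
  rw [e1, e2, map_sub, map_add, map_add, map_sub, PowerSeries.coeff_C_mul, PowerSeries.coeff_C_mul,
    PowerSeries.coeff_C_mul, PowerSeries.coeff_succ_X_mul, PowerSeries.coeff_succ_X_mul,
    PowerSeries.coeff_rescale, PowerSeries.coeff_rescale] at h
  set u := PowerSeries.coeff (m + 1)
    ((1 + PowerSeries.C ((Polynomial.X : Polynomial ℤ) ^ (k + 1)) * PowerSeries.X)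
            * PowerSeries.X * PowerSeries.rescale (Polynomial.X : Polynomial ℤ) (Bs n k))
  set v := PowerSeries.coeff (m + 1) (PowerSeries.X * ((1 - PowerSeries.X) * Bs n k))
  have h1 : (1 - Polynomial.X ^ (m + 1)) * PowerSeries.coeff (m + 1) (Bs n k)
      - (1 + Polynomial.X ^ (k + (m + 1))) * PowerSeries.coeff m (Bs n k)
      = - ((Polynomial.X : Polynomial ℤ) ^ (n + 1) * u)
        - (Polynomial.X : Polynomial ℤ) ^ (n - k) * v := by
    rw [pow_add] at h ⊢
    linear_combination -h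
  rw [h1]
  apply dvd_sub
  · rw [dvd_neg]
    exact Dvd.dvd.mul_right (pow_dvd_pow _ (by omega)) _
  · exact Dvd.dvd.mul_right (pow_dvd_pow _ hL) _

/-- cancellation of `1 - q^(m+1)` modulo `q^L`. -/
theorem cancel_one_sub {L m : ℕ} {a : Polynomial ℤ}
    (h : (Polynomial.X : Polynomial ℤ) ^ L ∣ (1 - Polynomial.X ^ (m + 1)) * a) :
    (Polynomial.X : Polynomial ℤ) ^ L ∣ a := by
  have hc : IsCoprime ((Polynomial.X : Polynomial ℤ) ^ L) (1 - Polynomial.X ^ (m + 1)) := by
    apply IsCoprime.pow_left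
    exact ⟨Polynomial.X ^ m, 1, by ring⟩
  exact hc.dvd_of_dvd_mul_left h

theorem Q_succ (k : ℕ) : Q (k + 1) = Q k * (1 + Polynomial.X ^ (k + 1)) := by
  unfold Q
  rw [Finset.prod_range_succ]

/-- comparison of the two bases. -/
theorem base_compare {n j k L : ℕ} (hk : 2 * k + 1 ≤ n) (hL : L ≤ n - k) (hL' : L ≤ 2 * j + 1)
    (m : ℕ) : (Polynomial.X : Polynomial ℤ) ^ L ∣
      Q (k + m) * PowerSeries.coeff m (Hs (2 * j)) - Q k * PowerSeries.coeff m (Bs n k) := by
  induction m with
  | zero => rw [Hs_zero, Bs_zero]; simp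
  | succ m ih =>
    apply cancel_one_sub (m := m)
    have h1 := Hs_rec (n := 2 * j) (L := L) (m := m) hL'
    have h2 := Bs_rec (m := m) hk hL
    have h3 := Q_succ (k + m)
    rw [show k + (m + 1) = k + m + 1 from rfl, h3]
    have e : (1 - (Polynomial.X : Polynomial ℤ) ^ (m + 1)) *
        (Q (k + m) * (1 + Polynomial.X ^ (k + m + 1)) * PowerSeries.coeff (m + 1) (Hs (2 * j))
          - Q k * PowerSeries.coeff (m + 1) (Bs n k))
        = Q (k + m) * (1 + Polynomial.X ^ (k + m + 1)) *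
          ((1 - Polynomial.X ^ (m + 1)) * PowerSeries.coeff (m + 1) (Hs (2 * j))
            - PowerSeries.coeff m (Hs (2 * j)))
          - Q k * ((1 - Polynomial.X ^ (m + 1)) * PowerSeries.coeff (m + 1) (Bs n k)
            - (1 + Polynomial.X ^ (k + (m + 1))) * PowerSeries.coeff m (Bs n k))
          + (1 + Polynomial.X ^ (k + m + 1)) * (Q (k + m) * PowerSeries.coeff m (Hs (2 * j))
            - Q k * PowerSeries.coeff m (Bs n k)) := by
      rw [show k + (m + 1) = k + m + 1 from rfl]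
      ring
    rw [e]
    exact dvd_add (dvd_sub (Dvd.dvd.mul_left h1 _) (Dvd.dvd.mul_left h2 _)) (Dvd.dvd.mul_left ih _)

/-- the ascent polynomials of fixed point free involutions. -/
noncomputable def kap (j d : ℕ) : Polynomial ℤ :=
  ∑ σ ∈ (InvF (2 * j)).filter (fun σ => (DI (-1) σ).card = d),
    Polynomial.X ^ (∑ i ∈ DI (-1) σ, ((i : ℕ) + 1))

theorem Kp_coeff (j m : ℕ) : Kp (2 * j) (m + 1)
    = ∑ d ∈ range (m + 1), kap j d * PowerSeries.coeff (m - d) (Hs (2 * j)) := by
  rw [Kp_eq]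
  have h1 : ∀ σ ∈ InvF (2 * j), G (2 * j) (m + 1) (DD (-1) σ)
      = if (DI (-1) σ).card ≤ m then Polynomial.X ^ (∑ i ∈ DI (-1) σ, ((i : ℕ) + 1))
        * PowerSeries.coeff (m - (DI (-1) σ).card) (Hs (2 * j)) else 0 := by
    intro σ _
    have h2 : Gs (2 * j) (DD (-1) σ) = PowerSeries.C (Polynomial.X ^ (∑ i ∈ DI (-1) σ, ((i : ℕ) + 1)))
        * (PowerSeries.X ^ (DI (-1) σ).card * Hs (2 * j)) := by
      have h3 := Gs_mul_Den (2 * j) _ (DD_subset (-1) σ)
      rw [DD_card, DD_sum] at h3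
      have h4 := Hs_Den (2 * j)
      calc Gs (2 * j) (DD (-1) σ) = Gs (2 * j) (DD (-1) σ) * (Hs (2 * j) * Den (2 * j)) := by
            rw [h4, mul_one]
        _ = (Gs (2 * j) (DD (-1) σ) * Den (2 * j)) * Hs (2 * j) := by ring
        _ = _ := by rw [h3]; ring
    have h5 := congrArg (PowerSeries.coeff m) h2
    rw [Gs, PowerSeries.coeff_mk, PowerSeries.coeff_C_mul, PowerSeries.coeff_X_pow_mul'] at h5
    rw [h5]
    split_ifs <;> simp
  rw [Finset.sum_congr rfl h1]
  have h2 : ∀ d ∈ range (m + 1), kap j d * PowerSeries.coeff (m - d) (Hs (2 * j))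
      = ∑ σ ∈ InvF (2 * j), if (DI (-1) σ).card = d then
        Polynomial.X ^ (∑ i ∈ DI (-1) σ, ((i : ℕ) + 1))
          * PowerSeries.coeff (m - (DI (-1) σ).card) (Hs (2 * j)) else 0 := by
    intro d _
    unfold kap
    rw [Finset.sum_mul, Finset.sum_filter]
    apply Finset.sum_congr rfl
    intro σ _
    split_ifs with h
    · rw [h]
    · rfl
  rw [Finset.sum_congr rfl h2, Finset.sum_comm]
  apply Finset.sum_congr rfl
  intro σ _
  rw [Finset.sum_ite_eq]
  simp only [mem_range, Nat.lt_succ_iff]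

theorem kap_nonneg (j d M : ℕ) : 0 ≤ (kap j d).coeff M := by
  unfold kap
  rw [Polynomial.finsetSum_coeff]
  apply Finset.sum_nonneg
  intro σ _
  rw [Polynomial.coeff_X_pow]
  split_ifs <;> norm_num

/-- the stable form of the coefficients. -/
theorem stable_main {n : ℕ} (c : ℕ → Polynomial ℤ)
    (hc : ∀ m, m ≤ (n - 1) / 2 → Fp n (m + 1)
      = ∑ k ∈ range (m + 1), c k * PowerSeries.coeff (m - k) (Bs n k)) (hn : 1 ≤ n) :
    ∀ m, m ≤ (n - 1) / 2 → (Polynomial.X : Polynomial ℤ) ^ (n / 2 + 1) ∣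
      c m - Q m * kap (n / 2) m := by
  intro m
  induction m using Nat.strong_induction_on with
  | _ m ih =>
    intro hm
    have h1 := hc m hm
    have h2 := Fp_stable (n := n) (j := n / 2) le_rfl m
    rw [h1, Kp_coeff, Finset.mul_sum, ← Finset.sum_sub_distrib, Finset.sum_range_succ] at h2
    have h3 : (Polynomial.X : Polynomial ℤ) ^ (n / 2 + 1) ∣ ∑ k ∈ range m,
        (c k * PowerSeries.coeff (m - k) (Bs n k)
          - Q m * (kap (n / 2) k * PowerSeries.coeff (m - k) (Hs (2 * (n / 2))))) := by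
      apply Finset.dvd_sum
      intro k hk
      rw [mem_range] at hk
      have h4 := ih k hk (by omega)
      have h5 := base_compare (n := n) (j := n / 2) (k := k) (L := n / 2 + 1) (by omega) (by omega)
        (by omega) (m - k)
      rw [Nat.add_sub_cancel' hk.le] at h5
      have e : c k * PowerSeries.coeff (m - k) (Bs n k)
          - Q m * (kap (n / 2) k * PowerSeries.coeff (m - k) (Hs (2 * (n / 2))))
          = (c k - Q k * kap (n / 2) k) * PowerSeries.coeff (m - k) (Bs n k)
            - kap (n / 2) k * (Q m * PowerSeries.coeff (m - k) (Hs (2 * (n / 2)))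
              - Q k * PowerSeries.coeff (m - k) (Bs n k)) := by ring
      rw [e]
      exact dvd_sub (Dvd.dvd.mul_right h4 _) (Dvd.dvd.mul_left h5 _)
    have h6 := (dvd_add_right h3).1 h2
    rw [Nat.sub_self, Bs_zero, Hs_zero, mul_one, mul_one] at h6
    exact h6

theorem Q_nonneg (k M : ℕ) : 0 ≤ (Q k).coeff M := by
  induction k generalizing M with
  | zero =>
    unfold Q
    rw [Finset.range_zero, Finset.prod_empty, Polynomial.coeff_one]
    split_ifs <;> norm_num
  | succ k ih =>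
    rw [Q_succ, mul_add, mul_one, Polynomial.coeff_add, Polynomial.coeff_mul_X_pow']
    apply add_nonneg (ih M)
    split_ifs
    · exact ih _
    · exact le_rfl

theorem mul_nonneg_coeff {p r : Polynomial ℤ} (hp : ∀ M, 0 ≤ p.coeff M) (hr : ∀ M, 0 ≤ r.coeff M)
    (M : ℕ) : 0 ≤ (p * r).coeff M := by
  rw [Polynomial.coeff_mul]
  apply Finset.sum_nonneg
  intro x _
  exact mul_nonneg (hp _) (hr _)

/-- nonnegativity of the low coefficients. -/
theorem low_nonneg {n : ℕ} (hn : 1 ≤ n) (c : ℕ → Polynomial ℤ)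
    (hc : ∀ m, m ≤ (n - 1) / 2 → Fp n (m + 1)
      = ∑ k ∈ range (m + 1), c k * PowerSeries.coeff (m - k) (Bs n k))
    {k M : ℕ} (hk : k ≤ (n - 1) / 2) (hM : M ≤ n / 2) : 0 ≤ (c k).coeff M := by
  obtain ⟨r, hr⟩ := stable_main c hc hn k hk
  have : c k = Q k * kap (n / 2) k + Polynomial.X ^ (n / 2 + 1) * r := by rw [← hr]; ring
  rw [this, Polynomial.coeff_add, Polynomial.coeff_X_pow_mul', if_neg (by omega), add_zero]
  exact mul_nonneg_coeff (Q_nonneg k) (kap_nonneg _ _) M

end Pool.H56.Inv
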