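import Pool.Agent.H56.Inv.Pal

set_option autoImplicit false
open Finset

namespace Pool.H56.Inv

/-! ### coefficient bounds -/

/-- `p` is bounded by a polynomial with nonnegative coefficients and value at most `C` at `1`. -/
def Bd (C : ℤ) (p : Polynomial ℤ) : Prop :=
  ∃ P : Polynomial ℤ, (∀ M, |p.coeff M| ≤ P.coeff M) ∧ P.eval 1 ≤ C

theorem eval_one_nonneg {P : Polynomial ℤ} (h : ∀ M, 0 ≤ P.coeff M) : 0 ≤ P.eval 1 := by
  rw [Polynomial.eval_eq_sum_range]
  apply Finset.sum_nonneg
  intro i _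
  rw [one_pow, mul_one]
  exact h i

theorem coeff_le_eval_one {P : Polynomial ℤ} (h : ∀ M, 0 ≤ P.coeff M) (M : ℕ) :
    P.coeff M ≤ P.eval 1 := by
  by_cases hM : M ≤ P.natDegree
  · rw [Polynomial.eval_eq_sum_range]
    have := Finset.single_le_sum (f := fun i => P.coeff i * 1 ^ i) (s := range (P.natDegree + 1))
      (fun i _ => by rw [one_pow, mul_one]; exact h i) (mem_range.2 (Nat.lt_succ_of_le hM))
    simpa using this
  · rw [Polynomial.coeff_eq_zero_of_natDegree_lt (by omega)]
    exact eval_one_nonneg h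

theorem Bd.coeff {C : ℤ} {p : Polynomial ℤ} (h : Bd C p) (M : ℕ) : |p.coeff M| ≤ C := by
  obtain ⟨P, h1, h2⟩ := h
  exact (h1 M).trans ((coeff_le_eval_one (fun M => (abs_nonneg _).trans (h1 M)) M).trans h2)

theorem Bd.mono {C D : ℤ} {p : Polynomial ℤ} (h : Bd C p) (hCD : C ≤ D) : Bd D p := by
  obtain ⟨P, h1, h2⟩ := h
  exact ⟨P, h1, h2.trans hCD⟩

theorem Bd.nonneg {C : ℤ} {p : Polynomial ℤ} (h : Bd C p) : 0 ≤ C :=
  (abs_nonneg _).trans (h.coeff 0)

theorem Bd.of_nonneg {p : Polynomial ℤ} (h : ∀ M, 0 ≤ p.coeff M) {C : ℤ} (hC : p.eval 1 ≤ C) :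
    Bd C p := ⟨p, fun M => (abs_of_nonneg (h M)).le, hC⟩

theorem Bd.zero : Bd 0 0 := ⟨0, fun M => by simp, by simp⟩

theorem Bd.add {C D : ℤ} {p r : Polynomial ℤ} (hp : Bd C p) (hr : Bd D r) : Bd (C + D) (p + r) := by
  obtain ⟨P, h1, h2⟩ := hp
  obtain ⟨S, h3, h4⟩ := hr
  refine ⟨P + S, fun M => ?_, by rw [Polynomial.eval_add]; exact add_le_add h2 h4⟩
  rw [Polynomial.coeff_add, Polynomial.coeff_add]
  exact (abs_add_le _ _).trans (add_le_add (h1 M) (h3 M))

theorem Bd.neg {C : ℤ} {p : Polynomial ℤ} (hp : Bd C p) : Bd C (-p) := by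
  obtain ⟨P, h1, h2⟩ := hp
  exact ⟨P, fun M => by rw [Polynomial.coeff_neg, abs_neg]; exact h1 M, h2⟩

theorem Bd.mul {C D : ℤ} {p r : Polynomial ℤ} (hp : Bd C p) (hr : Bd D r) : Bd (C * D) (p * r) := by
  have hD := hr.nonneg
  obtain ⟨P, h1, h2⟩ := hp
  obtain ⟨S, h3, h4⟩ := hr
  have hP : ∀ M, 0 ≤ P.coeff M := fun M => (abs_nonneg _).trans (h1 M)
  have hS : ∀ M, 0 ≤ S.coeff M := fun M => (abs_nonneg _).trans (h3 M)
  refine ⟨P * S, fun M => ?_, ?_⟩
  · rw [Polynomial.coeff_mul, Polynomial.coeff_mul]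
    refine (Finset.abs_sum_le_sum_abs _ _).trans ?_
    apply Finset.sum_le_sum
    intro x _
    rw [abs_mul]
    exact mul_le_mul (h1 _) (h3 _) (abs_nonneg _) (hP _)
  · rw [Polynomial.eval_mul]
    have h5 := eval_one_nonneg hP
    have h6 := eval_one_nonneg hS
    have hC : 0 ≤ C := h5.trans h2
    exact mul_le_mul h2 h4 h6 hC

theorem Bd.sum {ι : Type*} (T : Finset ι) (f : ι → Polynomial ℤ) (C : ι → ℤ)
    (h : ∀ i ∈ T, Bd (C i) (f i)) : Bd (∑ i ∈ T, C i) (∑ i ∈ T, f i) := by
  classical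
  induction T using Finset.induction_on with
  | empty => simpa using Bd.zero
  | insert a T ha ih =>
    rw [Finset.sum_insert ha, Finset.sum_insert ha]
    exact (h a (Finset.mem_insert_self _ _)).add
      (ih fun i hi => h i (Finset.mem_insert_of_mem hi))

/-! ### the basis coefficients -/

theorem sum_X_nonneg {ι : Type*} (T : Finset ι) (w : ι → ℕ) (M : ℕ) :
    0 ≤ (∑ x ∈ T, (Polynomial.X : Polynomial ℤ) ^ w x).coeff M := by
  rw [Polynomial.finsetSum_coeff]
  apply Finset.sum_nonneg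
  intro x _
  rw [Polynomial.coeff_X_pow]
  split_ifs <;> norm_num

theorem sum_X_eval {ι : Type*} (T : Finset ι) (w : ι → ℕ) :
    (∑ x ∈ T, (Polynomial.X : Polynomial ℤ) ^ w x).eval 1 = T.card := by
  rw [Polynomial.eval_finsetSum]
  simp

theorem G_empty_eval (n : ℕ) : ∀ m : ℕ, (G n (m + 1) ∅).eval 1 ≤ ((n : ℤ) + 1) ^ m := by
  have hsh : sh ∅ = ∅ := by
    ext x; simp [mem_sh]
  induction n with
  | zero =>
    intro m
    rw [G_nil]
    simp
  | succ n ih =>
    intro m
    induction m with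
    | zero =>
      rw [G_succ]
      have := ih 0
      simpa [hsh] using this
    | succ m ihm =>
      rw [G_succ, Finset.sum_range_succ, ← G_succ]
      have h1 := ih (m + 1)
      rw [Polynomial.eval_add, Polynomial.eval_mul, Polynomial.eval_pow, Polynomial.eval_X, one_pow,
        one_mul]
      simp only [notMem_empty, if_false, Nat.sub_zero, hsh]
      have h2 : ((n : ℤ) + 1) ^ (m + 1) + (((n + 1 : ℕ) : ℤ) + 1) ^ m
          ≤ (((n + 1 : ℕ) : ℤ) + 1) ^ (m + 1) := by
        have h3 : ((n : ℤ) + 1) ^ m ≤ (((n + 1 : ℕ) : ℤ) + 1) ^ m := by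
          apply pow_le_pow_left₀
          · positivity
          · push_cast; linarith
        have h4 : (0 : ℤ) ≤ (n : ℤ) + 1 := by positivity
        calc ((n : ℤ) + 1) ^ (m + 1) + (((n + 1 : ℕ) : ℤ) + 1) ^ m
            = ((n : ℤ) + 1) ^ m * ((n : ℤ) + 1) + (((n + 1 : ℕ) : ℤ) + 1) ^ m := by rw [pow_succ]
          _ ≤ (((n + 1 : ℕ) : ℤ) + 1) ^ m * ((n : ℤ) + 1) + (((n + 1 : ℕ) : ℤ) + 1) ^ m := by
              have := mul_le_mul_of_nonneg_right h3 h4
              linarith
          _ = _ := by push_cast; ring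
      linarith

theorem Hs_bd (n m : ℕ) : Bd (((n : ℤ) + 1) ^ m) (PowerSeries.coeff m (Hs n)) := by
  unfold Hs Gs
  rw [PowerSeries.coeff_mk]
  exact Bd.of_nonneg (fun M => sum_X_nonneg _ _ M) (G_empty_eval n m)

theorem Es_bd (n k a : ℕ) : Bd (((n : ℤ) + 1) ^ a) (PowerSeries.coeff a (Es n k)) := by
  rw [Es_coeff]
  refine Bd.of_nonneg (fun M => sum_X_nonneg _ _ M) ?_
  rw [sum_X_eval, Finset.card_powersetCard]
  have h1 : (Icc (k + 1) (n - 1 - k)).card ≤ n + 1 := by
    rw [Nat.card_Icc]; omega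
  have h2 : (Icc (k + 1) (n - 1 - k)).card.choose a ≤ (n + 1) ^ a :=
    (Nat.choose_le_choose a h1).trans (Nat.choose_le_pow _ _)
  exact_mod_cast h2

theorem Bs_bd (n k m : ℕ) : Bd (((m : ℤ) + 1) * ((n : ℤ) + 1) ^ m)
    (PowerSeries.coeff m (Bs n k)) := by
  unfold Bs
  rw [PowerSeries.coeff_mul]
  have h := Bd.sum (antidiagonal m) (fun p => PowerSeries.coeff p.1 (Es n k)
    * PowerSeries.coeff p.2 (Hs n)) (fun _ => ((n : ℤ) + 1) ^ m) (by
    rintro ⟨a, b⟩ hab
    rw [Finset.HasAntidiagonal.mem_antidiagonal] at hab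
    have := (Es_bd n k a).mul (Hs_bd n b)
    rw [← pow_add] at this
    simp only at hab ⊢
    rwa [hab] at this)
  rw [Finset.sum_const, Finset.Nat.card_antidiagonal, nsmul_eq_mul] at h
  push_cast at h
  exact h

/-! ### counting symmetric matrices -/

/-- number of free entries. -/
def ee : ℕ → ℕ
  | 0 => 0
  | k + 1 => ee k + (k + 2)

/-- the upper triangle. -/
def Tri (N : ℕ) : Finset (Fin N × Fin N) := univ.filter fun p => p.1 ≤ p.2

theorem card_Tri (k : ℕ) : (Tri (k + 1)).card = ee k + 1 := by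
  have h1 : (Tri (k + 1)).card = ∑ b : Fin (k + 1), ((b : ℕ) + 1) := by
    unfold Tri
    rw [Finset.card_filter, Fintype.sum_prod_type, Finset.sum_comm]
    apply Finset.sum_congr rfl
    intro b _
    rw [← Finset.card_filter]
    have : (univ.filter fun a : Fin (k + 1) => a ≤ b) = Iic b := by
      ext a; simp
    rw [this, Fin.card_Iic]
  rw [h1, Fin.sum_univ_eq_sum_range (fun b => b + 1)]
  induction k with
  | zero => simp [ee]
  | succ k ih =>
    rw [Finset.sum_range_succ, ih, ee]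
    · ring
    · unfold Tri
      rw [Finset.card_filter, Fintype.sum_prod_type, Finset.sum_comm]
      have : ∀ b : Fin (k + 1), (∑ a : Fin (k + 1), if a ≤ b then 1 else 0) = (b : ℕ) + 1 := by
        intro b
        rw [← Finset.card_filter]
        have : (univ.filter fun a : Fin (k + 1) => a ≤ b) = Iic b := by
          ext a; simp
        rw [this, Fin.card_Iic]
      exact Finset.sum_congr rfl (fun b _ => this b)

theorem card_SM_le (n k : ℕ) : (SM n (k + 1)).card ≤ (n + 1) ^ (ee k) := by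
  classical
  have hcard : ((Tri (k + 1)).erase (0, 0)).card = ee k := by
    rw [Finset.card_erase_of_mem (by simp [Tri]), card_Tri]
    rfl
  have h1 : (SM n (k + 1)).card ≤ (Fintype.piFinset
      (fun _ : ((Tri (k + 1)).erase (0, 0) : Finset (Fin (k + 1) × Fin (k + 1))) =>
        range (n + 1))).card := by
    apply Finset.card_le_card_of_injOn (fun A p => A p.1.1 p.1.2)
    · intro A hA
      have hA' : A ∈ SM n (k + 1) := hA
      simp only [Finset.mem_coe, Fintype.mem_piFinset, mem_range]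
      intro p
      unfold SM at hA'
      rw [mem_filter] at hA'
      have := hA'.1
      simp only [Fintype.mem_piFinset, mem_range] at this
      exact this _ _
    · intro A hA B hB hAB
      have hA' : A ∈ SM n (k + 1) := hA
      have hB' : B ∈ SM n (k + 1) := hB
      rw [mem_SM] at hA' hB'
      have hoff : ∀ a b : Fin (k + 1), (a, b) ≠ (0, 0) → A a b = B a b := by
        intro a b hab
        rcases le_total a b with h | h
        · exact congrFun hAB ⟨(a, b), by rw [mem_erase]; exact ⟨hab, by simp [Tri, h]⟩⟩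
        · rw [hA'.1, hB'.1]
          refine congrFun hAB ⟨(b, a), by
            rw [mem_erase]
            refine ⟨fun h' => hab ?_, by simp [Tri, h]⟩
            rw [Prod.mk.injEq] at h' ⊢
            exact ⟨h'.2, h'.1⟩⟩
      have h00 : A 0 0 = B 0 0 := by
        have h2 : ∑ p : Fin (k + 1) × Fin (k + 1), A p.1 p.2
            = ∑ p : Fin (k + 1) × Fin (k + 1), B p.1 p.2 := by
          rw [Fintype.sum_prod_type, Fintype.sum_prod_type, hA'.2, hB'.2]
        rw [← Finset.add_sum_erase univ _ (mem_univ ((0 : Fin (k + 1)), (0 : Fin (k + 1)))),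
          ← Finset.add_sum_erase univ _ (mem_univ ((0 : Fin (k + 1)), (0 : Fin (k + 1))))] at h2
        have h3 : ∑ p ∈ univ.erase ((0 : Fin (k + 1)), (0 : Fin (k + 1))), A p.1 p.2
            = ∑ p ∈ univ.erase ((0 : Fin (k + 1)), (0 : Fin (k + 1))), B p.1 p.2 := by
          apply Finset.sum_congr rfl
          rintro ⟨a, b⟩ hp
          rw [mem_erase] at hp
          exact hoff a b hp.1
        rw [h3] at h2
        exact Nat.add_right_cancel h2
      funext a b
      by_cases h : (a, b) = (0, 0)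
      · rw [Prod.mk.injEq] at h
        rw [h.1, h.2, h00]
      · exact hoff a b h
  rw [Fintype.card_piFinset] at h1
  simp only [card_range, Finset.prod_const] at h1
  rw [Finset.card_univ, Fintype.card_coe, hcard] at h1
  exact h1

theorem Fp_bd (n k : ℕ) : Bd (((n : ℤ) + 1) ^ ee k) (Fp n (k + 1)) := by
  unfold Fp
  refine Bd.of_nonneg (fun M => sum_X_nonneg _ _ M) ?_
  rw [sum_X_eval]
  exact_mod_cast card_SM_le n k

theorem Fp_coeff (n N M : ℕ) : (Fp n N).coeff M = ((SM n N).filter (fun A => wt A = M)).card := by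
  unfold Fp
  rw [Polynomial.finsetSum_coeff, Finset.card_filter]
  push_cast
  apply Finset.sum_congr rfl
  intro A _
  rw [Polynomial.coeff_X_pow]
  simp only [eq_comm (a := M)]

/-- the lower bound. -/
theorem Fp_coeff_ge {n k M m : ℕ} (hk : 1 ≤ k) (h1 : n ≤ 2 * M) (h2 : 2 * M ≤ n * k)
    (h3 : 2 * k ^ 2 * (k + 1) ^ 2 * m + 4 ≤ n) : ((m : ℤ)) ^ (ee k - 1) ≤ (Fp n (k + 1)).coeff M := by
  classical
  rw [Fp_coeff]
  set S : Finset (Fin (k + 1) × Fin (k + 1)) :=
    ((Tri (k + 1)).erase (0, 0)).erase (Fin.last k, Fin.last k) with hS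
  have hlast : ((Fin.last k, Fin.last k) : Fin (k + 1) × Fin (k + 1)) ≠ (0, 0) := by
    intro h
    rw [Prod.mk.injEq] at h
    have := congrArg Fin.val h.1
    simp at this
    omega
  have hScard : S.card = ee k - 1 := by
    rw [hS, Finset.card_erase_of_mem (by
      rw [mem_erase]; exact ⟨hlast, by simp [Tri]⟩),
      Finset.card_erase_of_mem (by simp [Tri]), card_Tri]
    rfl
  have hcard : (m : ℤ) ^ (ee k - 1) = ((univ : Finset (S → Fin m)).card : ℤ) := by
    rw [Finset.card_univ, Fintype.card_fun, Fintype.card_fin, Fintype.card_coe, hScard]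
    push_cast
    rfl
  rw [hcard]
  norm_cast
  have hrk : M % k < k := Nat.mod_lt _ hk
  set ρ : Fin (k + 1) := ⟨M % k, by omega⟩ with hρ
  set s : ℕ := if M % k = 0 then 0 else 1 with hs
  let xt : (S → Fin m) → Fin (k + 1) → Fin (k + 1) → ℕ := fun x a b =>
    if h : (min a b, max a b) ∈ S then (x ⟨_, h⟩ : ℕ) else 0
  have hxt_symm : ∀ x a b, xt x a b = xt x b a := by
    intro x a b
    simp only [xt, min_comm a b, max_comm a b]
  have hxt_le : ∀ x a b, xt x a b ≤ m := by
    intro x a b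
    simp only [xt]
    split_ifs with h
    · exact (x ⟨_, h⟩).2.le
    · exact Nat.zero_le _
  have hsum : ∀ x, ∑ a, ∑ b, xt x a b ≤ (k + 1) ^ 2 * m := by
    intro x
    calc ∑ a, ∑ b, xt x a b ≤ ∑ a : Fin (k + 1), ∑ b : Fin (k + 1), m :=
          Finset.sum_le_sum fun a _ => Finset.sum_le_sum fun b _ => hxt_le x a b
      _ = (k + 1) ^ 2 * m := by simp; ring
  have hwt : ∀ x, wt (xt x) ≤ k * ((k + 1) ^ 2 * m) := by
    intro x
    unfold wt
    calc ∑ a : Fin (k + 1), ∑ b : Fin (k + 1), (a : ℕ) * xt x a b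
        ≤ ∑ a : Fin (k + 1), ∑ b : Fin (k + 1), k * m :=
          Finset.sum_le_sum fun a _ => Finset.sum_le_sum fun b _ =>
            Nat.mul_le_mul (by have := a.2; omega) (hxt_le x a b)
      _ = k * ((k + 1) ^ 2 * m) := by simp; ring
  -- bounds
  have hb1 : k * ((k + 1) ^ 2 * m) ≤ M / k := by
    rw [Nat.le_div_iff_mul_le hk]
    have : 2 * (k * ((k + 1) ^ 2 * m) * k) ≤ 2 * M := by
      calc 2 * (k * ((k + 1) ^ 2 * m) * k) = 2 * k ^ 2 * (k + 1) ^ 2 * m := by ring
        _ ≤ n := by omega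
        _ ≤ 2 * M := h1
    omega
  have hb2 : 2 * (M / k) ≤ n := by
    have : M / k * k ≤ M := Nat.div_mul_le_self M k
    have h4 : 2 * (M / k) * k ≤ n * k := by nlinarith
    exact Nat.le_of_mul_le_mul_right h4 hk
  have hb3 : 2 * (k * ((k + 1) ^ 2 * m)) + 4 ≤ n := by
    have : k * ((k + 1) ^ 2 * m) ≤ k ^ 2 * (k + 1) ^ 2 * m := by
      have : k ≤ k ^ 2 := by nlinarith
      calc k * ((k + 1) ^ 2 * m) ≤ k ^ 2 * ((k + 1) ^ 2 * m) := Nat.mul_le_mul_right _ this
        _ = _ := by ring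
    calc 2 * (k * ((k + 1) ^ 2 * m)) + 4 ≤ 2 * (k ^ 2 * (k + 1) ^ 2 * m) + 4 := by omega
      _ = 2 * k ^ 2 * (k + 1) ^ 2 * m + 4 := by ring
      _ ≤ n := h3
  let y : (S → Fin m) → ℕ := fun x => M / k - wt (xt x)
  let z : (S → Fin m) → ℕ := fun x => n - (k * ∑ a, ∑ b, xt x a b) - 2 * s - y x
  have hs1 : s ≤ 1 := by rw [hs]; split_ifs <;> omega
  let AA : (S → Fin m) → Fin (k + 1) → Fin (k + 1) → ℕ := fun x a b =>
    k * xt x a b + s * ((if a = 0 ∧ b = ρ then 1 else 0) + (if a = ρ ∧ b = 0 then 1 else 0))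
      + (y x * dg {Fin.last k} a b + z x * dg {0} a b)
  apply Finset.card_le_card_of_injOn AA
  · intro x _
    have hx1 := hsum x
    have hx2 := hwt x
    have hy : y x + wt (xt x) = M / k := Nat.sub_add_cancel (hx2.trans hb1)
    have hz : z x + y x + 2 * s + k * ∑ a, ∑ b, xt x a b = n := by
      have h4 : k * ∑ a, ∑ b, xt x a b ≤ k * ((k + 1) ^ 2 * m) := Nat.mul_le_mul_left _ hx1
      simp only [z]
      omega
    have hdgl : ∑ a : Fin (k + 1), ∑ b : Fin (k + 1), dg ({Fin.last k} : Finset (Fin (k + 1))) a b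
        = 1 := by
      have := sum_dg ({Fin.last k} : Finset (Fin (k + 1))) (fun _ => 1)
      simpa using this
    have hdg0 : ∑ a : Fin (k + 1), ∑ b : Fin (k + 1), dg ({0} : Finset (Fin (k + 1))) a b = 1 := by
      have := sum_dg ({0} : Finset (Fin (k + 1))) (fun _ => 1)
      simpa using this
    have hdglw : ∑ a : Fin (k + 1), ∑ b : Fin (k + 1), (a : ℕ)
        * dg ({Fin.last k} : Finset (Fin (k + 1))) a b = k := by
      have := sum_dg ({Fin.last k} : Finset (Fin (k + 1))) (fun a => (a : ℕ))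
      simpa using this
    have hdg0w : ∑ a : Fin (k + 1), ∑ b : Fin (k + 1), (a : ℕ)
        * dg ({0} : Finset (Fin (k + 1))) a b = 0 := by
      have := sum_dg ({0} : Finset (Fin (k + 1))) (fun a => (a : ℕ))
      simpa using this
    have hi1 : ∀ c d : Fin (k + 1), ∑ a : Fin (k + 1), ∑ b : Fin (k + 1),
        (if a = c ∧ b = d then 1 else 0) = 1 := by
      intro c d
      have : ∀ a b : Fin (k + 1), (if a = c ∧ b = d then 1 else 0)
          = if a = c then (if b = d then 1 else 0) else 0 := by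
        intro a b
        by_cases h : a = c <;> by_cases h' : b = d <;> simp [h, h']
      simp_rw [this]
      simp
    have hi2 : ∀ c d : Fin (k + 1), ∑ a : Fin (k + 1), ∑ b : Fin (k + 1),
        (a : ℕ) * (if a = c ∧ b = d then 1 else 0) = c := by
      intro c d
      have : ∀ a b : Fin (k + 1), (a : ℕ) * (if a = c ∧ b = d then 1 else 0)
          = if a = c then (if b = d then (c : ℕ) else 0) else 0 := by
        intro a b
        by_cases h : a = c <;> by_cases h' : b = d <;> simp [h, h']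
      simp_rw [this]
      simp
    simp only [coe_filter, Set.mem_ofPred_eq]
    rw [mem_SM]
    refine ⟨⟨?_, ?_⟩, ?_⟩
    · intro a b
      simp only [AA]
      rw [hxt_symm x a b, dg_symm {Fin.last k} a b, dg_symm {0} a b]
      congr 2
      rw [add_comm]
      congr 2
      · congr 1
        exact propext and_comm
      · congr 1
        exact propext and_comm
    · simp only [AA, Finset.sum_add_distrib, ← Finset.mul_sum]
      rw [hdgl, hdg0, hi1, hi1]
      omega
    · unfold wt
      have : ∀ a b : Fin (k + 1), (a : ℕ) * AA x a b = k * ((a : ℕ) * xt x a b)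
          + s * ((a : ℕ) * (if a = 0 ∧ b = ρ then 1 else 0)
            + (a : ℕ) * (if a = ρ ∧ b = 0 then 1 else 0))
          + (y x * ((a : ℕ) * dg {Fin.last k} a b) + z x * ((a : ℕ) * dg {0} a b)) := by
        intro a b
        simp only [AA]
        ring
      simp_rw [this]
      simp only [Finset.sum_add_distrib, ← Finset.mul_sum]
      simp only [← Finset.mul_sum] at hdglw hdg0w hi2
      rw [hdglw, hdg0w, hi2, hi2]
      have hw : ∑ a : Fin (k + 1), (a : ℕ) * ∑ b : Fin (k + 1), xt x a b = wt (xt x) := by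
        unfold wt
        simp only [Finset.mul_sum]
      rw [hw]
      have h5 : s * (M % k) = M % k := by
        rw [hs]
        split_ifs with h
        · rw [h]
        · rw [one_mul]
      have h6 : k * (M / k) + M % k = M := Nat.div_add_mod M k
      have h7 : k * (y x) + k * wt (xt x) = k * (M / k) := by rw [← mul_add, hy]
      simp only [hρ, Fin.val_zero, zero_add, mul_zero, add_zero]
      rw [h5, mul_comm (y x) k]
      omega
  · intro x _ x' _ hxx
    funext p
    apply Fin.ext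
    obtain ⟨⟨a, b⟩, hp⟩ := p
    have hp' := hp
    rw [hS, mem_erase, mem_erase] at hp'
    obtain ⟨hp1, hp2, hp3⟩ := hp'
    have hle : a ≤ b := by simpa [Tri] using hp3
    have h4 := congrFun (congrFun hxx a) b
    simp only [AA] at h4
    have h5 : dg {Fin.last k} a b = 0 := by
      unfold dg
      rw [if_neg]
      rintro ⟨h6, h7⟩
      rw [mem_singleton] at h7
      exact hp1 (by rw [← h6, h7])
    have h6 : dg {0} a b = 0 := by
      unfold dg
      rw [if_neg]
      rintro ⟨h6, h7⟩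
      rw [mem_singleton] at h7
      exact hp2 (by rw [← h6, h7])
    rw [h5, h6] at h4
    have h7 : k * xt x a b = k * xt x' a b := by omega
    have h8 := Nat.eq_of_mul_eq_mul_left hk h7
    have h9 : ∀ x : S → Fin m, xt x a b = x ⟨(a, b), hp⟩ := by
      intro x
      simp only [xt]
      have h10 : (min a b, max a b) = (a, b) := by rw [min_eq_left hle, max_eq_right hle]
      rw [dif_pos (by rw [h10]; exact hp)]
      congr 3
    rw [h9, h9] at h8
    exact h8

end Pool.H56.Inv
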