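import Mathlib

set_option autoImplicit false
open Finset

namespace Pool.H56.Inv

/-- functions `f` on `Fin n` with values `< N`, `f i ≥ f (i+1)`, strictly if `i+1 ∈ D`. -/
def PP (n N : ℕ) (D : Finset ℕ) : Finset (Fin n → ℕ) :=
  (Fintype.piFinset fun _ => range N).filter
    (fun f => ∀ i j : Fin n, (j : ℕ) = i + 1 → f j + (if (j : ℕ) ∈ D then 1 else 0) ≤ f i)

/-- the generating polynomial of `PP`. -/
noncomputable def G (n N : ℕ) (D : Finset ℕ) : Polynomial ℤ :=
  ∑ f ∈ PP n N D, Polynomial.X ^ (∑ i, f i)

theorem mem_PP {n N : ℕ} {D : Finset ℕ} {f : Fin n → ℕ} : f ∈ PP n N D ↔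
    (∀ i, f i < N) ∧ ∀ i j : Fin n, (j : ℕ) = i + 1 → f j + (if (j : ℕ) ∈ D then 1 else 0) ≤ f i := by
  simp [PP, Fintype.mem_piFinset]

theorem PP_anti {n N : ℕ} {D : Finset ℕ} {f : Fin n → ℕ} (hf : f ∈ PP n N D) {i j : Fin n}
    (hij : i ≤ j) : f j ≤ f i := by
  have h := (mem_PP.1 hf).2
  obtain ⟨i, hi⟩ := i
  obtain ⟨j, hj⟩ := j
  simp only [Fin.mk_le_mk] at hij
  induction j, hij using Nat.le_induction with
  | base => exact le_rfl
  | succ j hij ih =>
    have h1 := h ⟨j, by omega⟩ ⟨j + 1, hj⟩ rfl
    have h2 := ih (by omega)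
    omega

/-- shift of a set of positions. -/
def sh (D : Finset ℕ) : Finset ℕ := (D.filter (2 ≤ ·)).image (· - 1)

theorem mem_sh {D : Finset ℕ} {j : ℕ} : j ∈ sh D ↔ 1 ≤ j ∧ j + 1 ∈ D := by
  simp only [sh, mem_image, mem_filter]
  constructor
  · rintro ⟨x, ⟨hx, h2⟩, rfl⟩
    refine ⟨by omega, ?_⟩
    rw [Nat.sub_add_cancel (by omega)]
    exact hx
  · rintro ⟨h1, h2⟩
    exact ⟨j + 1, ⟨h2, by omega⟩, by omega⟩

theorem G_zero (n : ℕ) (hn : 1 ≤ n) (D : Finset ℕ) : G n 0 D = 0 := by
  unfold G
  apply Finset.sum_eq_zero
  intro f hf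
  have := (mem_PP.1 hf).1 ⟨0, by omega⟩
  omega

theorem G_nil (N : ℕ) (D : Finset ℕ) : G 0 N D = 1 := by
  unfold G
  have : PP 0 N D = {fun i => i.elim0} := by
    ext f
    simp only [mem_PP, mem_singleton]
    constructor
    · intro _
      ext i
      exact i.elim0
    · intro _
      exact ⟨fun i => i.elim0, fun i => i.elim0⟩
  rw [this]
  simp

theorem G_succ (n N : ℕ) (D : Finset ℕ) :
    G (n + 1) N D = ∑ v ∈ range N,
      Polynomial.X ^ v * G n (v + 1 - (if 1 ∈ D then 1 else 0)) (sh D) := by
  unfold G
  simp_rw [Finset.mul_sum]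
  rw [Finset.sum_sigma']
  apply Finset.sum_bij' (i := fun f _ => (⟨f 0, fun i => f i.succ⟩ : Σ _ : ℕ, (Fin n → ℕ)))
    (j := fun p _ => (Fin.cons p.1 p.2 : Fin (n + 1) → ℕ))
  · intro f hf
    rw [Finset.mem_sigma]
    refine ⟨mem_range.2 ((mem_PP.1 hf).1 0), ?_⟩
    simp only
    rw [mem_PP]
    constructor
    · intro i
      have h1 := (mem_PP.1 hf).2 0 (Fin.succ ⟨0, by have := i.2; omega⟩) (by simp)
      have h2 := PP_anti hf (i := Fin.succ ⟨0, by have := i.2; omega⟩) (j := i.succ)
        (by rw [Fin.succ_le_succ_iff, Fin.le_def]; simp)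
      simp only [Fin.val_succ, zero_add] at h1
      split_ifs at h1 ⊢ <;> omega
    · intro i j hij
      have h1 := (mem_PP.1 hf).2 i.succ j.succ (by simp [hij])
      simp only [Fin.val_succ] at h1
      have h2 : ((j : ℕ) ∈ sh D) ↔ ((j : ℕ) + 1 ∈ D) := by
        rw [mem_sh]
        constructor
        · exact fun h => h.2
        · exact fun h => ⟨by omega, h⟩
      simp only [h2]
      exact h1
  · rintro ⟨v, f⟩ hf
    rw [Finset.mem_sigma] at hf
    obtain ⟨hv, hf⟩ := hf
    simp only at hv hf
    rw [mem_range] at hv
    have hf' := mem_PP.1 hf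
    rw [mem_PP]
    constructor
    · intro i
      refine Fin.cases ?_ ?_ i
      · simpa using hv
      · intro i
        have := hf'.1 i
        simp only [Fin.cons_succ]
        omega
    · intro i
      refine Fin.cases ?_ ?_ i
      · intro j
        refine Fin.cases ?_ ?_ j
        · intro h; simp at h
        · intro j hj
          simp only [Fin.val_succ, Fin.val_zero, zero_add, Nat.add_eq_right] at hj
          have := hf'.1 j
          simp only [Fin.cons_succ, Fin.cons_zero, Fin.val_succ, hj, zero_add]
          split_ifs at this ⊢ <;> omega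
      · intro i j
        refine Fin.cases ?_ ?_ j
        · intro h; simp at h
        · intro j hj
          simp only [Fin.val_succ, add_left_inj] at hj
          have h1 := hf'.2 i j hj
          have h2 : ((j : ℕ) ∈ sh D) ↔ ((j : ℕ) + 1 ∈ D) := by
            rw [mem_sh]
            constructor
            · exact fun h => h.2
            · exact fun h => ⟨by omega, h⟩
          simp only [h2] at h1
          simp only [Fin.cons_succ, Fin.val_succ]
          exact h1
  · intro f _
    simp only
    ext i
    refine Fin.cases ?_ ?_ i <;> simp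
  · rintro ⟨v, f⟩ _
    simp
  · intro f _
    simp only
    rw [Fin.sum_univ_succ, pow_add]

/-- the generating function in `t`. -/
noncomputable def Gs (n : ℕ) (D : Finset ℕ) : PowerSeries (Polynomial ℤ) :=
  PowerSeries.mk fun m => G n (m + 1) D

/-- `∏_{i ≤ n} (1 - t q^i)`. -/
noncomputable def Den (n : ℕ) : PowerSeries (Polynomial ℤ) :=
  ∏ i ∈ range (n + 1), (1 - PowerSeries.C (Polynomial.X ^ i) * PowerSeries.X)

theorem rescale_C' (a r : Polynomial ℤ) :
    PowerSeries.rescale a (PowerSeries.C r) = PowerSeries.C r := by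
  ext m
  rw [PowerSeries.coeff_rescale, PowerSeries.coeff_C]
  split_ifs with h
  · simp [h]
  · simp

theorem rescale_Den (n : ℕ) : Den (n + 1)
    = (1 - PowerSeries.X) * PowerSeries.rescale (Polynomial.X : Polynomial ℤ) (Den n) := by
  unfold Den
  rw [Finset.prod_range_succ', map_prod]
  rw [mul_comm]
  congr 1
  · simp
  · apply Finset.prod_congr rfl
    intro i _
    rw [map_sub, map_one, map_mul, PowerSeries.rescale_X]
    rw [rescale_C', pow_succ, map_mul]
    ring

theorem Gs_mul_Den (n : ℕ) : ∀ D : Finset ℕ, D ⊆ Ico 1 n →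
    Gs n D * Den n = PowerSeries.C (Polynomial.X ^ (∑ i ∈ D, i)) * PowerSeries.X ^ D.card := by
  induction n with
  | zero =>
    intro D hD
    have : D = ∅ := by
      apply Finset.subset_empty.1
      simpa using hD
    subst this
    unfold Gs Den
    simp only [G_nil]
    simp only [zero_add, range_one, prod_singleton, pow_zero, map_one, one_mul, sum_empty,
      card_empty, mul_one]
    exact PowerSeries.mk_one_mul_one_sub_eq_one _
  | succ n ih =>
    intro D hD
    have hsh : sh D ⊆ Ico 1 n := by
      intro j hj
      rw [mem_sh] at hj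
      have := hD hj.2
      rw [mem_Ico] at this ⊢
      omega
    have hpos : ∀ x ∈ D, 1 ≤ x := fun x hx => (mem_Ico.1 (hD hx)).1
    set δ : ℕ := if 1 ∈ D then 1 else 0 with hδ
    have hcard : D.card = (sh D).card + δ ∧ ∑ i ∈ D, i = ∑ i ∈ sh D, i + D.card := by
      have h1 : (sh D).card = (D.filter (2 ≤ ·)).card := by
        unfold sh
        apply Finset.card_image_of_injOn
        intro x hx y hy hxy
        simp only [coe_filter, Set.mem_ofPred_eq] at hx hy hxy
        omega
      have h2 : ∑ i ∈ sh D, i = ∑ i ∈ D.filter (2 ≤ ·), (i - 1) := by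
        unfold sh
        rw [Finset.sum_image]
        intro x hx y hy hxy
        simp only [coe_filter, Set.mem_ofPred_eq] at hx hy hxy
        omega
      have h3 : D.card = (D.filter (2 ≤ ·)).card + δ := by
        rw [← Finset.card_filter_add_card_filter_not (s := D) (2 ≤ ·)]
        congr 1
        have : D.filter (fun x => ¬ 2 ≤ x) = if 1 ∈ D then {1} else ∅ := by
          ext x
          simp only [mem_filter, not_le]
          split_ifs with h
          · simp only [mem_singleton]
            constructor
            · rintro ⟨hx, hx2⟩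
              have := hpos x hx
              omega
            · rintro rfl
              exact ⟨h, by omega⟩
          · simp only [notMem_empty, iff_false, not_and]
            intro hx hx2
            have := hpos x hx
            apply h
            have : x = 1 := by omega
            rwa [this] at hx
        rw [this, hδ]
        split_ifs <;> simp
      refine ⟨by rw [h1, h3], ?_⟩
      rw [h2]
      have h4 : ∑ i ∈ D.filter (2 ≤ ·), (i - 1) = ∑ i ∈ D, (i - 1) := by
        apply Finset.sum_subset (Finset.filter_subset _ _)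
        intro x hx hx2
        simp only [mem_filter, hx, true_and, not_le] at hx2
        omega
      rw [h4, Finset.card_eq_sum_ones, ← Finset.sum_add_distrib]
      apply Finset.sum_congr rfl
      intro x hx
      have := hpos x hx
      omega
    have hstep : Gs (n + 1) D * (1 - PowerSeries.X)
        = PowerSeries.rescale (Polynomial.X : Polynomial ℤ) (PowerSeries.X ^ δ * Gs n (sh D)) := by
      ext m : 1
      rw [mul_sub, mul_one, map_sub, PowerSeries.coeff_rescale, PowerSeries.coeff_X_pow_mul']
      have h1 : PowerSeries.coeff m (Gs (n + 1) D) - PowerSeries.coeff m (Gs (n + 1) D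
          * PowerSeries.X) = Polynomial.X ^ m * G n (m + 1 - δ) (sh D) := by
        unfold Gs
        cases m with
        | zero =>
          rw [PowerSeries.coeff_zero_mul_X, PowerSeries.coeff_mk, G_succ]
          simp [hδ]
        | succ m =>
          rw [PowerSeries.coeff_succ_mul_X, PowerSeries.coeff_mk, PowerSeries.coeff_mk, G_succ,
            G_succ, Finset.sum_range_succ _ (m + 1)]
          simp [hδ]
      rw [h1]
      congr 1
      split_ifs with h
      · unfold Gs
        rw [PowerSeries.coeff_mk]
        congr 1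
        omega
      · have : δ = 1 ∧ m = 0 := by
          rw [hδ] at h ⊢
          split_ifs at h ⊢ <;> omega
        rw [this.1, this.2]
        have hn : 1 ≤ n := by
          have h1 : 1 ∈ D := by
            by_contra h1
            rw [hδ, if_neg h1] at this
            omega
          have := hD h1
          rw [mem_Ico] at this
          omega
        exact G_zero n hn _
    rw [rescale_Den, ← mul_assoc, hstep, ← map_mul, mul_assoc, ih _ hsh, map_mul, map_mul,
      rescale_C', hcard.2, pow_add, map_mul]
    simp only [map_pow, PowerSeries.rescale_X, mul_pow]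
    have e1 : (PowerSeries.C (Polynomial.X : Polynomial ℤ)) ^ D.card
        = (PowerSeries.C (Polynomial.X : Polynomial ℤ)) ^ ((sh D).card + δ) := by
      rw [hcard.1]
    have e2 : (PowerSeries.X : PowerSeries (Polynomial ℤ)) ^ D.card
        = PowerSeries.X ^ ((sh D).card + δ) := by rw [hcard.1]
    rw [e1, e2]
    ring

end Pool.H56.Inv
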