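import Pool.Agent.H56.Inv.Mat
import Pool.Agent.H56.Inv.PPart

set_option autoImplicit false
open Finset

namespace Pool.H56.Inv

variable {n N : ℕ}

/-- descents (`ε = 1`) or ascents (`ε = -1`), as indices. -/
def DI (ε : ℤ) (σ : Equiv.Perm (Fin n)) : Finset (Fin n) :=
  univ.filter fun i => ∃ j : Fin n, (j : ℕ) = i + 1 ∧ ε * (σ j : ℤ) < ε * (σ i : ℤ)

/-- descents (`ε = 1`) or ascents (`ε = -1`), as positions in `{1, …, n-1}`. -/
def DD (ε : ℤ) (σ : Equiv.Perm (Fin n)) : Finset ℕ := (DI ε σ).image fun i : Fin n => (i : ℕ) + 1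

theorem mem_DD {ε : ℤ} {σ : Equiv.Perm (Fin n)} {x : ℕ} : x ∈ DD ε σ ↔
    ∃ i j : Fin n, (j : ℕ) = i + 1 ∧ x = j ∧ ε * (σ j : ℤ) < ε * (σ i : ℤ) := by
  simp only [DD, DI, mem_image, mem_filter, mem_univ, true_and]
  constructor
  · rintro ⟨i, ⟨j, h1, h2⟩, rfl⟩
    exact ⟨i, j, h1, h1.symm, h2⟩
  · rintro ⟨i, j, h1, rfl, h2⟩
    exact ⟨i, ⟨j, h1, h2⟩, h1.symm⟩

theorem DD_card (ε : ℤ) (σ : Equiv.Perm (Fin n)) : (DD ε σ).card = (DI ε σ).card := by
  unfold DD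
  apply Finset.card_image_of_injective
  intro i j h
  exact Fin.ext (by simpa using h)

theorem DD_sum (ε : ℤ) (σ : Equiv.Perm (Fin n)) :
    ∑ x ∈ DD ε σ, x = ∑ i ∈ DI ε σ, ((i : ℕ) + 1) := by
  unfold DD
  rw [Finset.sum_image]
  intro i _ j _ h
  exact Fin.ext (by simpa using h)

theorem DD_subset (ε : ℤ) (σ : Equiv.Perm (Fin n)) : DD ε σ ⊆ Ico 1 n := by
  intro x hx
  obtain ⟨i, j, h1, rfl, _⟩ := mem_DD.1 hx
  rw [mem_Ico]
  exact ⟨by omega, j.2⟩

theorem compat_iff {ε : ℤ} (hε : ε = 1 ∨ ε = -1) (σ : Equiv.Perm (Fin n)) (f : Fin n → Fin N) :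
    Compat ε σ f ↔ (fun i => (f i : ℕ)) ∈ PP n N (DD ε σ) := by
  have hne : ∀ i j : Fin n, i ≠ j → ε * (σ i : ℤ) ≠ ε * (σ j : ℤ) := by
    intro i j hij h
    apply hij
    apply σ.injective
    apply Fin.ext
    rcases hε with rfl | rfl <;> omega
  constructor
  · intro h
    rw [mem_PP]
    refine ⟨fun i => (f i).2, ?_⟩
    intro i j hij
    have hlt : i < j := by rw [Fin.lt_def]; omega
    obtain ⟨h1, h2⟩ := h i j hlt
    split_ifs with hd
    · obtain ⟨i', j', h3, h4, h5⟩ := mem_DD.1 hd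
      have hj : j' = j := Fin.ext h4.symm
      have hi : i' = i := Fin.ext (by omega)
      subst hj hi
      have : f i' ≠ f j' := fun h6 => by
        have := h2 h6
        omega
      have h7 := lt_of_le_of_ne h1 (Ne.symm this)
      rw [Fin.lt_def] at h7
      omega
    · simpa using h1
  · intro h i j hij
    have hanti : ∀ a b : Fin n, a ≤ b → f b ≤ f a := fun a b hab => by
      rw [Fin.le_def]
      exact PP_anti h hab
    refine ⟨hanti i j hij.le, ?_⟩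
    obtain ⟨i, hi⟩ := i
    obtain ⟨j, hj⟩ := j
    rw [Fin.mk_lt_mk] at hij
    have hij' : i + 1 ≤ j := hij
    clear hij
    induction j, hij' using Nat.le_induction with
    | base =>
      intro hf
      have h1 := (mem_PP.1 h).2 ⟨i, hi⟩ ⟨i + 1, hj⟩ rfl
      have h2 : (i + 1 : ℕ) ∉ DD ε σ := by
        intro h3
        simp only at h1
        rw [if_pos h3, hf] at h1
        omega
      have h3 : ¬ (ε * (σ ⟨i + 1, hj⟩ : ℤ) < ε * (σ ⟨i, hi⟩ : ℤ)) := by
        intro h4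
        exact h2 (mem_DD.2 ⟨⟨i, hi⟩, ⟨i + 1, hj⟩, rfl, rfl, h4⟩)
      have h4 := hne ⟨i, hi⟩ ⟨i + 1, hj⟩ (by simp [Fin.ext_iff])
      omega
    | succ j hij ih =>
      intro hf
      have hj' : j < n := by omega
      have ha := hanti ⟨i, hi⟩ ⟨j, hj'⟩ (by rw [Fin.mk_le_mk]; omega)
      have hb := hanti ⟨j, hj'⟩ ⟨j + 1, hj⟩ (by rw [Fin.mk_le_mk]; omega)
      have hfij : f ⟨i, hi⟩ = f ⟨j, hj'⟩ := by
        apply le_antisymm _ ha
        rw [hf]; exact hb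
      have h0 := ih hj' hfij
      have h1 := (mem_PP.1 h).2 ⟨j, hj'⟩ ⟨j + 1, hj⟩ rfl
      have h2 : (j + 1 : ℕ) ∉ DD ε σ := by
        intro h3
        simp only at h1
        rw [if_pos h3, ← hfij, hf] at h1
        omega
      have h3 : ¬ (ε * (σ ⟨j + 1, hj⟩ : ℤ) < ε * (σ ⟨j, hj'⟩ : ℤ)) := by
        intro h4
        exact h2 (mem_DD.2 ⟨⟨j, hj'⟩, ⟨j + 1, hj⟩, rfl, rfl, h4⟩)
      have h4 := hne ⟨j, hj'⟩ ⟨j + 1, hj⟩ (by simp [Fin.ext_iff])
      omega

theorem sum_compat {ε : ℤ} (hε : ε = 1 ∨ ε = -1) (σ : Equiv.Perm (Fin n)) :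
    ∑ f ∈ univ.filter (fun f : Fin n → Fin N => Compat ε σ f),
      (Polynomial.X : Polynomial ℤ) ^ (∑ i, (f i : ℕ)) = G n N (DD ε σ) := by
  unfold G
  refine Finset.sum_bij' (fun f _ => fun i => (f i : ℕ))
    (fun f hf => fun i => (⟨f i, (mem_PP.1 hf).1 i⟩ : Fin N)) ?_ ?_ ?_ ?_ ?_
  · intro f hf
    rw [mem_filter] at hf
    exact (compat_iff hε σ f).1 hf.2
  · intro f hf
    rw [mem_filter]
    refine ⟨mem_univ _, (compat_iff hε σ _).2 ?_⟩
    exact hf
  · intro f _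
    rfl
  · intro f _
    rfl
  · intro f _
    rfl

/-- symmetric matrices with total `n`. -/
def SM (n N : ℕ) : Finset (Fin N → Fin N → ℕ) :=
  (Fintype.piFinset fun _ => Fintype.piFinset fun _ => range (n + 1)).filter
    fun A => (∀ a b, A a b = A b a) ∧ ∑ a, ∑ b, A a b = n

theorem mem_SM {A : Fin N → Fin N → ℕ} :
    A ∈ SM n N ↔ (∀ a b, A a b = A b a) ∧ ∑ a, ∑ b, A a b = n := by
  unfold SM
  rw [mem_filter]
  constructor
  · exact fun h => h.2
  · intro h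
    refine ⟨?_, h⟩
    simp only [Fintype.mem_piFinset, mem_range]
    intro a b
    have h1 : A a b ≤ ∑ b, A a b := Finset.single_le_sum (f := fun b => A a b)
      (fun _ _ => Nat.zero_le _) (mem_univ b)
    have h2 : ∑ b, A a b ≤ ∑ a, ∑ b, A a b := Finset.single_le_sum (f := fun a => ∑ b, A a b)
      (fun _ _ => Nat.zero_le _) (mem_univ a)
    have := h.2
    omega

/-- the weight of a matrix. -/
def wt (A : Fin N → Fin N → ℕ) : ℕ := ∑ a : Fin N, ∑ b : Fin N, (a : ℕ) * A a b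

/-- the involutions. -/
def Invo (n : ℕ) : Finset (Equiv.Perm (Fin n)) := univ.filter fun σ => σ * σ = 1

/-- `F_n(N)`. -/
noncomputable def Fp (n N : ℕ) : Polynomial ℤ := ∑ A ∈ SM n N, Polynomial.X ^ wt A

/-- even diagonal version. -/
noncomputable def Kp (n N : ℕ) : Polynomial ℤ :=
  ∑ A ∈ (SM n N).filter (fun A => ∀ a, Even (A a a)), Polynomial.X ^ wt A

theorem inv_apply {σ : Equiv.Perm (Fin n)} (hσ : σ * σ = 1) (x : Fin n) : σ (σ x) = x := by
  have := congrArg (fun τ : Equiv.Perm (Fin n) => τ x) hσ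
  simpa using this

theorem Fp_eq {ε : ℤ} (hε : ε = 1 ∨ ε = -1) (n N : ℕ) :
    Fp n N = ∑ σ ∈ Invo n, G n N (DD ε σ) := by
  unfold Fp
  simp_rw [← sum_compat hε]
  rw [Finset.sum_sigma']
  symm
  apply Finset.sum_bij (i := fun p _ => cnt p.1 p.2)
  · rintro ⟨σ, f⟩ h
    simp only [mem_sigma, Invo, mem_filter, mem_univ, true_and] at h
    rw [mem_SM]
    exact ⟨cnt_symm h.1 f, sum_cnt σ f⟩
  · rintro ⟨σ, f⟩ h ⟨τ, g⟩ h' heq
    simp only [mem_sigma, Invo, mem_filter, mem_univ, true_and] at h h'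
    have := compat_inj hε h.1 h'.1 h.2 h'.2 (fun a b => congrFun (congrFun heq a) b)
    rw [this.1, this.2]
  · intro A hA
    rw [mem_SM] at hA
    obtain ⟨σ, f, h1, h2, h3, _⟩ := compat_surj (n := n) hε A hA.1 hA.2
    refine ⟨⟨σ, f⟩, ?_, ?_⟩
    · simp only [mem_sigma, Invo, mem_filter, mem_univ, true_and]
      exact ⟨h1, h2⟩
    · funext a b
      exact h3 a b
  · rintro ⟨σ, f⟩ h
    simp only
    congr 1
    exact (sum_cnt_mul σ f (fun a => (a : ℕ))).symm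

/-- fixed point free involutions. -/
def InvF (n : ℕ) : Finset (Equiv.Perm (Fin n)) := (Invo n).filter fun σ => ∀ x, σ x ≠ x

theorem even_cnt {σ : Equiv.Perm (Fin n)} (hσ : σ * σ = 1) (hf : ∀ x, σ x ≠ x)
    (f : Fin n → Fin N) (a : Fin N) : Even (cnt σ f a a) := by
  unfold cnt
  have h : ((univ.filter fun x => f x = a ∧ f (σ x) = a).card : ZMod 2) = 0 := by
    rw [Finset.card_eq_sum_ones, Nat.cast_sum]
    apply Finset.sum_involution (fun x _ => σ x)
    · intro x _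
      decide
    · intro x _ _
      exact hf x
    · intro x hx
      simp only [mem_filter, mem_univ, true_and] at hx ⊢
      rw [inv_apply hσ]
      exact ⟨hx.2, hx.1⟩
    · intro x _
      exact inv_apply hσ x
  rw [ZMod.natCast_eq_zero_iff] at h
  exact even_iff_two_dvd.2 h

theorem Kp_eq (n N : ℕ) :
    Kp n N = ∑ σ ∈ InvF n, G n N (DD (-1) σ) := by
  unfold Kp
  simp_rw [← sum_compat (ε := -1) (Or.inr rfl)]
  rw [Finset.sum_sigma']
  symm
  apply Finset.sum_bij (i := fun p _ => cnt p.1 p.2)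
  · rintro ⟨σ, f⟩ h
    simp only [mem_sigma, InvF, Invo, mem_filter, mem_univ, true_and] at h
    rw [mem_filter, mem_SM]
    exact ⟨⟨cnt_symm h.1.1 f, sum_cnt σ f⟩, even_cnt h.1.1 h.1.2 f⟩
  · rintro ⟨σ, f⟩ h ⟨τ, g⟩ h' heq
    simp only [mem_sigma, InvF, Invo, mem_filter, mem_univ, true_and] at h h'
    have := compat_inj (Or.inr rfl) h.1.1 h'.1.1 h.2 h'.2
      (fun a b => congrFun (congrFun heq a) b)
    rw [this.1, this.2]
  · intro A hA
    rw [mem_filter, mem_SM] at hA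
    obtain ⟨σ, f, h1, h2, h3, h4⟩ := compat_surj (n := n) (ε := -1) (Or.inr rfl) A hA.1.1 hA.1.2
    refine ⟨⟨σ, f⟩, ?_, ?_⟩
    · simp only [mem_sigma, InvF, Invo, mem_filter, mem_univ, true_and]
      exact ⟨⟨h1, h4 rfl hA.2⟩, h2⟩
    · funext a b
      exact h3 a b
  · rintro ⟨σ, f⟩ h
    simp only
    congr 1
    exact (sum_cnt_mul σ f (fun a => (a : ℕ))).symm

/-- the two-variable polynomial of a set of permutations, as a power series in `t`. -/
theorem Fp_gen {ε : ℤ} (hε : ε = 1 ∨ ε = -1) (n : ℕ) :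
    (PowerSeries.mk fun m => Fp n (m + 1)) * Den n
      = ∑ σ ∈ Invo n, PowerSeries.C (Polynomial.X ^ (∑ i ∈ DI ε σ, ((i : ℕ) + 1)))
          * PowerSeries.X ^ (DI ε σ).card := by
  have h : (PowerSeries.mk fun m => Fp n (m + 1)) = ∑ σ ∈ Invo n, Gs n (DD ε σ) := by
    ext m : 1
    rw [PowerSeries.coeff_mk, map_sum, Fp_eq hε]
    apply Finset.sum_congr rfl
    intro σ _
    rw [Gs, PowerSeries.coeff_mk]
  rw [h, Finset.sum_mul]
  apply Finset.sum_congr rfl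
  intro σ _
  rw [Gs_mul_Den n _ (DD_subset ε σ), DD_card, DD_sum]

end Pool.H56.Inv
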