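import Pool.Agent.H56.Inv.Cmp

set_option autoImplicit false
open Finset

namespace Pool.H56.Inv

variable {n k N : ℕ}

theorem exchange {M T : ℕ} {Vp Vm : Fin N → Fin N → ℕ} (hVp : ∀ a b, Vp a b = Vp b a)
    (hVm : ∀ a b, Vm a b = Vm b a) (ht : ∑ a, ∑ b, Vp a b = ∑ a, ∑ b, Vm a b)
    (hw : wt Vp = wt Vm) {z1 z2 : Fin N} (hz : 0 < Vp z1 z2) (hz' : Vm z1 z2 = 0) :
    T * ((SM n N).filter (fun A => wt A = M ∧ A z1 z2 = 0 ∧ ∀ a b, T * Vm a b ≤ A a b)).card
      ≤ ((SM n N).filter (fun A => wt A = M)).card := by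
  classical
  set S := (SM n N).filter (fun A => wt A = M ∧ A z1 z2 = 0 ∧ ∀ a b, T * Vm a b ≤ A a b) with hS
  have h2 : T * S.card = ((range T) ×ˢ S).card := by
    rw [Finset.card_product, Finset.card_range]
  rw [h2]
  apply Finset.card_le_card_of_injOn
    (fun p => fun a b => p.2 a b + p.1 * Vp a b - p.1 * Vm a b)
  · rintro ⟨t, A⟩ hp
    simp only [coe_product, Set.mem_prod, Finset.mem_coe, mem_range] at hp
    obtain ⟨htT, hA⟩ := hp
    rw [hS, mem_filter, mem_SM] at hA
    obtain ⟨⟨h3, h4⟩, h5, h6, h7⟩ := hA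
    have hle : ∀ a b, t * Vm a b ≤ A a b + t * Vp a b := fun a b =>
      (Nat.mul_le_mul_right _ htT.le).trans ((h7 a b).trans (Nat.le_add_right _ _))
    simp only [coe_filter, Set.mem_ofPred_eq]
    rw [mem_SM]
    refine ⟨⟨?_, ?_⟩, ?_⟩
    · intro a b
      rw [h3 a b, hVp a b, hVm a b]
    · have h8 : ∑ a, ∑ b, (A a b + t * Vp a b - t * Vm a b) + ∑ a, ∑ b, t * Vm a b
          = ∑ a, ∑ b, A a b + ∑ a, ∑ b, t * Vp a b := by
        rw [← Finset.sum_add_distrib, ← Finset.sum_add_distrib]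
        apply Finset.sum_congr rfl
        intro a _
        rw [← Finset.sum_add_distrib, ← Finset.sum_add_distrib]
        apply Finset.sum_congr rfl
        intro b _
        exact Nat.sub_add_cancel (hle a b)
      have h9 : ∑ a, ∑ b, t * Vp a b = ∑ a, ∑ b, t * Vm a b := by
        simp_rw [← Finset.mul_sum]
        rw [ht]
      omega
    · have h8 : wt (fun a b => A a b + t * Vp a b - t * Vm a b) + t * wt Vm
          = wt A + t * wt Vp := by
        unfold wt
        rw [Finset.mul_sum, Finset.mul_sum, ← Finset.sum_add_distrib, ← Finset.sum_add_distrib]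
        apply Finset.sum_congr rfl
        intro a _
        rw [Finset.mul_sum, Finset.mul_sum, ← Finset.sum_add_distrib, ← Finset.sum_add_distrib]
        apply Finset.sum_congr rfl
        intro b _
        have h9 := Nat.sub_add_cancel (hle a b)
        calc (a : ℕ) * (A a b + t * Vp a b - t * Vm a b) + t * ((a : ℕ) * Vm a b)
            = (a : ℕ) * ((A a b + t * Vp a b - t * Vm a b) + t * Vm a b) := by ring
          _ = (a : ℕ) * (A a b + t * Vp a b) := by rw [h9]
          _ = _ := by ring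
      rw [hw] at h8
      omega
  · rintro ⟨t, A⟩ hp ⟨t', A'⟩ hp' heq
    simp only [coe_product, Set.mem_prod, Finset.mem_coe, mem_range] at hp hp'
    obtain ⟨htT, hA⟩ := hp
    obtain ⟨htT', hA'⟩ := hp'
    rw [hS, mem_filter, mem_SM] at hA hA'
    obtain ⟨⟨h3, h4⟩, h5, h6, h7⟩ := hA
    obtain ⟨⟨h3', h4'⟩, h5', h6', h7'⟩ := hA'
    have hle : ∀ a b, t * Vm a b ≤ A a b + t * Vp a b := fun a b =>
      (Nat.mul_le_mul_right _ htT.le).trans ((h7 a b).trans (Nat.le_add_right _ _))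
    have hle' : ∀ a b, t' * Vm a b ≤ A' a b + t' * Vp a b := fun a b =>
      (Nat.mul_le_mul_right _ htT'.le).trans ((h7' a b).trans (Nat.le_add_right _ _))
    have h8 := congrFun (congrFun heq z1) z2
    simp only [h6, h6', hz', mul_zero, Nat.sub_zero, zero_add] at h8
    have h9 : t = t' := Nat.eq_of_mul_eq_mul_right hz h8
    subst h9
    have h10 : A = A' := by
      funext a b
      have h11 := congrFun (congrFun heq a) b
      simp only at h11
      have := hle a b
      have := hle' a b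
      omega
    rw [h10]

/-- the symmetric unit matrix of size `2`. -/
def Sm (p q : Fin N) (a b : Fin N) : ℕ :=
  (if a = p ∧ b = q then 1 else 0) + (if a = q ∧ b = p then 1 else 0)

theorem Sm_symm (p q a b : Fin N) : Sm p q a b = Sm p q b a := by
  unfold Sm
  rw [add_comm]
  congr 1
  · congr 1
    exact propext and_comm
  · congr 1
    exact propext and_comm

theorem Sm_sum (p q : Fin N) : ∑ a, ∑ b, Sm p q a b = 2 := by
  have hi1 : ∀ c d : Fin N, ∑ a : Fin N, ∑ b : Fin N,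
      (if a = c ∧ b = d then 1 else 0) = 1 := by
    intro c d
    have : ∀ a b : Fin N, (if a = c ∧ b = d then 1 else 0)
        = if a = c then (if b = d then 1 else 0) else 0 := by
      intro a b
      by_cases h : a = c <;> by_cases h' : b = d <;> simp [h, h']
    simp_rw [this]
    simp
  unfold Sm
  simp only [Finset.sum_add_distrib]
  rw [hi1, hi1]

theorem Sm_wt (p q : Fin N) : wt (Sm p q) = p + q := by
  have hi2 : ∀ c d : Fin N, ∑ a : Fin N, ∑ b : Fin N,
      (a : ℕ) * (if a = c ∧ b = d then 1 else 0) = c := by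
    intro c d
    have : ∀ a b : Fin N, (a : ℕ) * (if a = c ∧ b = d then 1 else 0)
        = if a = c then (if b = d then (c : ℕ) else 0) else 0 := by
      intro a b
      by_cases h : a = c <;> by_cases h' : b = d <;> simp [h, h']
    simp_rw [this]
    simp
  unfold wt Sm
  simp only [mul_add, Finset.sum_add_distrib]
  rw [hi2, hi2]

theorem Sm_self_pos (p q : Fin N) : 0 < Sm p q p q := by
  unfold Sm
  simp

theorem Sm_le_two (p q a b : Fin N) : Sm p q a b ≤ 2 := by
  unfold Sm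
  split_ifs <;> omega

theorem Sm_zero {p q a b : Fin N} (h1 : ¬ (a = p ∧ b = q)) (h2 : ¬ (a = q ∧ b = p)) :
    Sm p q a b = 0 := by
  unfold Sm
  rw [if_neg h1, if_neg h2]

/-- linear combinations of two matrices. -/
def Lc (x : ℕ) (U : Fin N → Fin N → ℕ) (y : ℕ) (V : Fin N → Fin N → ℕ) (a b : Fin N) : ℕ :=
  x * U a b + y * V a b

theorem Lc_symm {x y : ℕ} {U V : Fin N → Fin N → ℕ} (hU : ∀ a b, U a b = U b a)
    (hV : ∀ a b, V a b = V b a) (a b : Fin N) : Lc x U y V a b = Lc x U y V b a := by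
  unfold Lc
  rw [hU, hV]

theorem Lc_sum (x y : ℕ) (U V : Fin N → Fin N → ℕ) :
    ∑ a, ∑ b, Lc x U y V a b = x * (∑ a, ∑ b, U a b) + y * (∑ a, ∑ b, V a b) := by
  unfold Lc
  simp only [Finset.sum_add_distrib, ← Finset.mul_sum]

theorem Lc_wt (x y : ℕ) (U V : Fin N → Fin N → ℕ) :
    wt (Lc x U y V) = x * wt U + y * wt V := by
  unfold Lc wt
  rw [Finset.mul_sum, Finset.mul_sum, ← Finset.sum_add_distrib]
  apply Finset.sum_congr rfl
  intro a _
  rw [Finset.mul_sum, Finset.mul_sum, ← Finset.sum_add_distrib]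
  apply Finset.sum_congr rfl
  intro b _
  ring

/-- the label condition. -/
def Cd (k T : ℕ) (p : Fin (k + 1) × Fin (k + 1)) (A : Fin (k + 1) → Fin (k + 1) → ℕ) : Prop :=
  if p = (0, 0) ∨ p = (Fin.last k, Fin.last k) then
    4 * k * T ≤ A 0 0 ∧ 4 * k * T ≤ A (Fin.last k) (Fin.last k)
  else 4 * k * T ≤ A p.1 p.2

open Classical in
theorem label_bound (hk : 1 ≤ k) {M T : ℕ} (hT : 1 ≤ T) {z1 z2 : Fin (k + 1)} (hz : z1 ≠ z2)
    (p : Fin (k + 1) × Fin (k + 1)) :
    T * ((SM n (k + 1)).filter (fun A => wt A = M ∧ A z1 z2 = 0 ∧ Cd k T p A)).card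
      ≤ (YY n k M).card := by
  have hlast0 : (0 : Fin (k + 1)) ≠ Fin.last k := by
    intro h
    have := congrArg Fin.val h
    simp at this
    omega
  have hz1 := z1.2
  have hz2 := z2.2
  have hzne : (z1 : ℕ) ≠ z2 := fun h => hz (Fin.ext h)
  have gen : ∀ (Vp Vm : Fin (k + 1) → Fin (k + 1) → ℕ), (∀ a b, Vp a b = Vp b a) →
      (∀ a b, Vm a b = Vm b a) → (∑ a, ∑ b, Vp a b = ∑ a, ∑ b, Vm a b) → wt Vp = wt Vm →
      0 < Vp z1 z2 → Vm z1 z2 = 0 →
      (∀ A : Fin (k + 1) → Fin (k + 1) → ℕ, (∀ a b, A a b = A b a) → Cd k T p A →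
        ∀ a b, T * Vm a b ≤ A a b) →
      T * ((SM n (k + 1)).filter (fun A => wt A = M ∧ A z1 z2 = 0 ∧ Cd k T p A)).card
        ≤ (YY n k M).card := by
    intro Vp Vm h1 h2 h3 h4 h5 h6 h7
    have h8 := exchange (n := n) (M := M) (T := T) h1 h2 h3 h4 h5 h6
    refine le_trans (Nat.mul_le_mul_left _ (Finset.card_le_card ?_)) h8
    intro A hA
    rw [mem_filter] at hA ⊢
    exact ⟨hA.1, hA.2.1, hA.2.2.1, h7 A (mem_SM.1 hA.1).1 hA.2.2.2⟩
  obtain ⟨p1, p2⟩ := p
  have hp1 := p1.2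
  have hp2 := p2.2
  by_cases hp : (p1, p2) = ((0 : Fin (k + 1)), (0 : Fin (k + 1)))
      ∨ (p1, p2) = (Fin.last k, Fin.last k)
  · -- both corners are large
    apply gen (Lc (2 * k) (Sm z1 z2) 0 (Sm z1 z2))
      (Lc ((z1 : ℕ) + z2) (Sm (Fin.last k) (Fin.last k)) (2 * k - (z1 + z2)) (Sm 0 0))
    · exact Lc_symm (Sm_symm _ _) (Sm_symm _ _)
    · exact Lc_symm (Sm_symm _ _) (Sm_symm _ _)
    · rw [Lc_sum, Lc_sum, Sm_sum, Sm_sum, Sm_sum]
      omega
    · rw [Lc_wt, Lc_wt, Sm_wt, Sm_wt, Sm_wt]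
      simp only [Fin.val_last, Fin.val_zero, add_zero, mul_zero, zero_mul]
      ring
    · unfold Lc
      have := Sm_self_pos z1 z2
      have : 0 < 2 * k * Sm z1 z2 z1 z2 := by positivity
      omega
    · unfold Lc
      rw [Sm_zero (by rintro ⟨h1, h2⟩; exact hz (h1.trans h2.symm))
        (by rintro ⟨h1, h2⟩; exact hz (h1.trans h2.symm)),
        Sm_zero (by rintro ⟨h1, h2⟩; exact hz (h1.trans h2.symm))
        (by rintro ⟨h1, h2⟩; exact hz (h1.trans h2.symm))]
      simp
    · intro A _ hC a b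
      unfold Cd at hC
      rw [if_pos hp] at hC
      unfold Lc
      have hb1 : ((z1 : ℕ) + z2) * 2 * T ≤ 4 * k * T := Nat.mul_le_mul_right _ (by omega)
      have hb2 : (2 * k - ((z1 : ℕ) + z2)) * 2 * T ≤ 4 * k * T := Nat.mul_le_mul_right _ (by omega)
      by_cases h1 : a = 0 ∧ b = 0
      · obtain ⟨rfl, rfl⟩ := h1
        rw [Sm_zero (by rintro ⟨h1, _⟩; exact hlast0 h1) (by rintro ⟨h1, _⟩; exact hlast0 h1)]
        have h2 := Sm_le_two (0 : Fin (k + 1)) 0 0 0
        have h3 : (2 * k - ((z1 : ℕ) + z2)) * Sm (0 : Fin (k + 1)) 0 0 0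
            ≤ (2 * k - ((z1 : ℕ) + z2)) * 2 := Nat.mul_le_mul_left _ h2
        have h4 := Nat.mul_le_mul_left T h3
        calc T * (((z1 : ℕ) + z2) * 0 + (2 * k - ((z1 : ℕ) + z2)) * Sm (0 : Fin (k + 1)) 0 0 0)
            = T * ((2 * k - ((z1 : ℕ) + z2)) * Sm (0 : Fin (k + 1)) 0 0 0) := by ring
          _ ≤ T * ((2 * k - ((z1 : ℕ) + z2)) * 2) := h4
          _ = (2 * k - ((z1 : ℕ) + z2)) * 2 * T := by ring
          _ ≤ _ := hb2.trans hC.1
      · by_cases h1' : a = Fin.last k ∧ b = Fin.last k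
        · obtain ⟨rfl, rfl⟩ := h1'
          rw [Sm_zero (p := (0 : Fin (k + 1))) (q := 0) h1 h1]
          have h2 := Sm_le_two (Fin.last k) (Fin.last k) (Fin.last k) (Fin.last k)
          have h3 := Nat.mul_le_mul_left ((z1 : ℕ) + z2) h2
          have h4 := Nat.mul_le_mul_left T h3
          calc T * (((z1 : ℕ) + z2) * Sm (Fin.last k) (Fin.last k) (Fin.last k) (Fin.last k)
                + (2 * k - ((z1 : ℕ) + z2)) * 0)
              = T * (((z1 : ℕ) + z2) * Sm (Fin.last k) (Fin.last k) (Fin.last k) (Fin.last k)) := by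
                ring
            _ ≤ T * (((z1 : ℕ) + z2) * 2) := h4
            _ = ((z1 : ℕ) + z2) * 2 * T := by ring
            _ ≤ _ := hb1.trans hC.2
        · rw [Sm_zero h1' h1', Sm_zero h1 h1]
          simp
  · -- a large entry `p`
    have hpne : ¬ ((p1 : ℕ) = 0 ∧ (p2 : ℕ) = 0) := by
      rintro ⟨h1, h2⟩
      apply hp
      left
      rw [Prod.mk.injEq]
      exact ⟨Fin.ext h1, Fin.ext h2⟩
    have hpne' : ¬ ((p1 : ℕ) = k ∧ (p2 : ℕ) = k) := by
      rintro ⟨h1, h2⟩
      apply hp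
      right
      rw [Prod.mk.injEq]
      exact ⟨Fin.ext h1, Fin.ext h2⟩
    have hTk : 0 < 4 * k * T := by positivity
    by_cases hzp : (z1 = p1 ∧ z2 = p2) ∨ (z1 = p2 ∧ z2 = p1)
    · -- empty
      have : (SM n (k + 1)).filter (fun A => wt A = M ∧ A z1 z2 = 0 ∧ Cd k T (p1, p2) A) = ∅ := by
        rw [Finset.filter_eq_empty_iff]
        rintro A hA ⟨_, h2, h3⟩
        have hsym := (mem_SM.1 hA).1
        unfold Cd at h3
        rw [if_neg hp] at h3
        simp only at h3
        rcases hzp with ⟨rfl, rfl⟩ | ⟨rfl, rfl⟩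
        · omega
        · rw [hsym] at h3
          omega
      rw [this]
      simp
    · have hzp1 : ¬ (z1 = p1 ∧ z2 = p2) := fun h => hzp (Or.inl h)
      have hzp2 : ¬ (z1 = p2 ∧ z2 = p1) := fun h => hzp (Or.inr h)
      have hcond : ∀ x : ℕ, x ≤ 2 * k → ∀ A : Fin (k + 1) → Fin (k + 1) → ℕ,
          (∀ a b, A a b = A b a) → Cd k T (p1, p2) A → ∀ a b,
          T * Lc x (Sm p1 p2) 0 (Sm p1 p2) a b ≤ A a b := by
        intro x hx A hsym hC a b
        unfold Cd at hC
        rw [if_neg hp] at hC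
        simp only at hC
        unfold Lc
        by_cases h1 : a = p1 ∧ b = p2
        · obtain ⟨rfl, rfl⟩ := h1
          have h2 := Sm_le_two a b a b
          have h3 : x * Sm a b a b ≤ 2 * k * 2 := Nat.mul_le_mul hx h2
          calc T * (x * Sm a b a b + 0 * Sm a b a b) = T * (x * Sm a b a b) := by ring
            _ ≤ T * (2 * k * 2) := Nat.mul_le_mul_left _ h3
            _ = 4 * k * T := by ring
            _ ≤ _ := hC
        · by_cases h1' : a = p2 ∧ b = p1
          · obtain ⟨rfl, rfl⟩ := h1'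
            have h2 := Sm_le_two b a a b
            have h3 : x * Sm b a a b ≤ 2 * k * 2 := Nat.mul_le_mul hx h2
            calc T * (x * Sm b a a b + 0 * Sm b a a b) = T * (x * Sm b a a b) := by ring
              _ ≤ T * (2 * k * 2) := Nat.mul_le_mul_left _ h3
              _ = 4 * k * T := by ring
              _ ≤ A b a := hC
              _ = A a b := hsym _ _
          · rw [Sm_zero h1 h1']
            simp
      by_cases hδ : (p1 : ℕ) + p2 ≤ (z1 : ℕ) + z2
      · apply gen (Lc ((p1 : ℕ) + p2) (Sm z1 z2) ((z1 + z2) - (p1 + p2)) (Sm 0 0))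
          (Lc ((z1 : ℕ) + z2) (Sm p1 p2) 0 (Sm p1 p2))
        · exact Lc_symm (Sm_symm _ _) (Sm_symm _ _)
        · exact Lc_symm (Sm_symm _ _) (Sm_symm _ _)
        · rw [Lc_sum, Lc_sum, Sm_sum, Sm_sum, Sm_sum]
          omega
        · rw [Lc_wt, Lc_wt, Sm_wt, Sm_wt, Sm_wt]
          simp only [Fin.val_zero, add_zero, mul_zero, zero_mul]
          ring
        · unfold Lc
          have h1 := Sm_self_pos z1 z2
          have : 0 < ((p1 : ℕ) + p2) * Sm z1 z2 z1 z2 := Nat.mul_pos (by omega) h1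
          omega
        · unfold Lc
          rw [Sm_zero hzp1 hzp2]
          simp
        · exact hcond _ (by omega)
      · apply gen (Lc (2 * k - ((p1 : ℕ) + p2)) (Sm z1 z2) ((p1 + p2) - (z1 + z2))
            (Sm (Fin.last k) (Fin.last k)))
          (Lc (2 * k - ((z1 : ℕ) + z2)) (Sm p1 p2) 0 (Sm p1 p2))
        · exact Lc_symm (Sm_symm _ _) (Sm_symm _ _)
        · exact Lc_symm (Sm_symm _ _) (Sm_symm _ _)
        · rw [Lc_sum, Lc_sum, Sm_sum, Sm_sum, Sm_sum]
          omega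
        · rw [Lc_wt, Lc_wt, Sm_wt, Sm_wt, Sm_wt]
          simp only [Fin.val_last, zero_mul, add_zero]
          obtain ⟨u, hu⟩ : ∃ u, (p1 : ℕ) + p2 = (z1 + z2) + u := ⟨_, (Nat.add_sub_cancel' (by omega)).symm⟩
          obtain ⟨v, hv⟩ : ∃ v, 2 * k = ((p1 : ℕ) + p2) + v := ⟨_, (Nat.add_sub_cancel' (by omega)).symm⟩
          have e1 : 2 * k - ((p1 : ℕ) + p2) = v := by omega
          have e2 : ((p1 : ℕ) + p2) - (z1 + z2) = u := by omega
          have e3 : 2 * k - ((z1 : ℕ) + z2) = u + v := by omega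
          have e4 : k + k = (z1 : ℕ) + z2 + u + v := by omega
          rw [e1, e2, e3, e4, hu]
          ring
        · unfold Lc
          have h1 := Sm_self_pos z1 z2
          have : 0 < (2 * k - ((p1 : ℕ) + p2)) * Sm z1 z2 z1 z2 := Nat.mul_pos (by omega) h1
          omega
        · unfold Lc
          rw [Sm_zero hzp1 hzp2]
          simp
        · exact hcond _ (by omega)

theorem cover (hk : 1 ≤ k) {M T : ℕ} (h1 : n ≤ 2 * M) (h2 : 2 * M ≤ n * k)
    (hn : 8 * k ^ 2 * ((k + 1) ^ 2 + 1) * T ≤ n) {A : Fin (k + 1) → Fin (k + 1) → ℕ}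
    (hA : A ∈ SM n (k + 1)) (hM : wt A = M) : ∃ p, Cd k T p A := by
  classical
  by_contra hcon
  push Not at hcon
  rw [mem_SM] at hA
  set L := 4 * k * T with hL
  have hlast0 : (0 : Fin (k + 1)) ≠ Fin.last k := by
    intro h
    have := congrArg Fin.val h
    simp at this
    omega
  have hsmall : ∀ a b : Fin (k + 1), ¬ ((a, b) = ((0 : Fin (k + 1)), (0 : Fin (k + 1)))
      ∨ (a, b) = (Fin.last k, Fin.last k)) → A a b ≤ L := by
    intro a b hab
    have := hcon (a, b)
    unfold Cd at this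
    rw [if_neg hab] at this
    exact (not_le.1 this).le
  have hcorner := hcon (0, 0)
  unfold Cd at hcorner
  rw [if_pos (Or.inl rfl)] at hcorner
  set x := A 0 0 with hx
  set y := A (Fin.last k) (Fin.last k) with hy
  -- bounds
  have hb1 : ∀ a b : Fin (k + 1), A a b ≤ (if a = 0 ∧ b = 0 then x else 0)
      + (if a = Fin.last k ∧ b = Fin.last k then y else 0) + L := by
    intro a b
    by_cases h3 : a = 0 ∧ b = 0
    · obtain ⟨rfl, rfl⟩ := h3
      simp only [and_self, if_true]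
      omega
    · by_cases h4 : a = Fin.last k ∧ b = Fin.last k
      · obtain ⟨rfl, rfl⟩ := h4
        simp only [and_self, if_true]
        omega
      · have := hsmall a b (by
          rintro (h | h)
          · exact h3 ⟨(Prod.mk.injEq _ _ _ _ ▸ h).1, (Prod.mk.injEq _ _ _ _ ▸ h).2⟩
          · exact h4 ⟨(Prod.mk.injEq _ _ _ _ ▸ h).1, (Prod.mk.injEq _ _ _ _ ▸ h).2⟩)
        rw [if_neg h3, if_neg h4]
        omega
  have hi1 : ∀ (c : Fin (k + 1)) (w : ℕ), ∑ a : Fin (k + 1), ∑ b : Fin (k + 1),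
      (if a = c ∧ b = c then w else 0) = w := by
    intro c w
    have : ∀ a b : Fin (k + 1), (if a = c ∧ b = c then w else 0)
        = if a = c then (if b = c then w else 0) else 0 := by
      intro a b
      by_cases h : a = c <;> by_cases h' : b = c <;> simp [h, h']
    simp_rw [this]
    simp
  have hS : n ≤ x + y + (k + 1) ^ 2 * L := by
    calc n = ∑ a, ∑ b, A a b := hA.2.symm
      _ ≤ ∑ a : Fin (k + 1), ∑ b : Fin (k + 1), ((if a = 0 ∧ b = 0 then x else 0)
          + (if a = Fin.last k ∧ b = Fin.last k then y else 0) + L) :=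
          Finset.sum_le_sum fun a _ => Finset.sum_le_sum fun b _ => hb1 a b
      _ = _ := by
          simp only [Finset.sum_add_distrib]
          rw [hi1, hi1]
          simp
          ring
  have hW : M ≤ k * y + (k + 1) ^ 2 * (k * L) := by
    rw [← hM]
    unfold wt
    calc ∑ a : Fin (k + 1), ∑ b : Fin (k + 1), (a : ℕ) * A a b
        ≤ ∑ a : Fin (k + 1), ∑ b : Fin (k + 1),
          ((if a = Fin.last k ∧ b = Fin.last k then k * y else 0) + k * L) := by
          apply Finset.sum_le_sum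
          intro a _
          apply Finset.sum_le_sum
          intro b _
          have ha : (a : ℕ) ≤ k := by have := a.2; omega
          by_cases h3 : a = 0 ∧ b = 0
          · rw [h3.1]
            simp
          · have h4 := hb1 a b
            rw [if_neg h3, zero_add] at h4
            calc (a : ℕ) * A a b ≤ k * ((if a = Fin.last k ∧ b = Fin.last k then y else 0) + L) :=
                  Nat.mul_le_mul ha h4
              _ = _ := by
                  rw [mul_add]
                  congr 1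
                  split_ifs <;> simp
      _ = _ := by
          simp only [Finset.sum_add_distrib]
          rw [hi1]
          simp
          ring
  have hyM : k * y ≤ M := by
    rw [← hM]
    unfold wt
    calc k * y = (Fin.last k : ℕ) * A (Fin.last k) (Fin.last k) := by simp [hy]
      _ ≤ ∑ b : Fin (k + 1), (Fin.last k : ℕ) * A (Fin.last k) b :=
          Finset.single_le_sum (f := fun b => (Fin.last k : ℕ) * A (Fin.last k) b)
            (fun _ _ => Nat.zero_le _) (mem_univ _)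
      _ ≤ _ := Finset.single_le_sum (f := fun a : Fin (k + 1) =>
            ∑ b : Fin (k + 1), (a : ℕ) * A a b) (fun _ _ => Nat.zero_le _) (mem_univ _)
  have hn' : 2 * (k * L * ((k + 1) ^ 2 + 1)) ≤ n := by
    calc 2 * (k * L * ((k + 1) ^ 2 + 1)) = 8 * k ^ 2 * ((k + 1) ^ 2 + 1) * T := by rw [hL]; ring
      _ ≤ n := hn
  apply hcorner
  have hyn : 2 * y ≤ n := by
    have h4 : 2 * y * k ≤ n * k := by nlinarith
    exact Nat.le_of_mul_le_mul_right h4 hk
  constructor
  · have h4 : L * ((k + 1) ^ 2 + 1) ≤ k * L * ((k + 1) ^ 2 + 1) := by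
      apply Nat.mul_le_mul_right
      exact Nat.le_mul_of_pos_left _ hk
    have h5 : L * ((k + 1) ^ 2 + 1) = (k + 1) ^ 2 * L + L := by ring
    omega
  · have h5 : k * L * ((k + 1) ^ 2 + 1) = (k + 1) ^ 2 * (k * L) + k * L := by ring
    have h6 : k * L ≤ k * y := by omega
    exact Nat.le_of_mul_le_mul_left h6 hk

theorem Y0_bound (hk : 1 ≤ k) {M T : ℕ} (hT : 1 ≤ T) (h1 : n ≤ 2 * M) (h2 : 2 * M ≤ n * k)
    (hn : 8 * k ^ 2 * ((k + 1) ^ 2 + 1) * T ≤ n) :
    T * (Y0 n k M).card ≤ 2 * (k + 1) ^ 3 * (YY n k M).card := by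
  classical
  set Z : Finset (Fin (k + 1) × Fin (k + 1)) :=
    univ.filter (fun z => z.1 ≠ z.2 ∧ (z.1 = 0 ∨ z.2 = Fin.last k)) with hZ
  have hZc : Z.card ≤ 2 * (k + 1) := by
    have : Z ⊆ (univ.image fun j : Fin (k + 1) => ((0 : Fin (k + 1)), j))
        ∪ (univ.image fun j : Fin (k + 1) => (j, Fin.last k)) := by
      rintro ⟨z1, z2⟩ hz
      rw [hZ, mem_filter] at hz
      rw [mem_union, mem_image, mem_image]
      rcases hz.2.2 with h | h
      · left
        exact ⟨z2, mem_univ _, by rw [← h]⟩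
      · right
        exact ⟨z1, mem_univ _, by rw [← h]⟩
    refine (Finset.card_le_card this).trans ((Finset.card_union_le _ _).trans ?_)
    have h3 := Finset.card_image_le (s := (univ : Finset (Fin (k + 1))))
      (f := fun j : Fin (k + 1) => ((0 : Fin (k + 1)), j))
    have h4 := Finset.card_image_le (s := (univ : Finset (Fin (k + 1))))
      (f := fun j : Fin (k + 1) => (j, Fin.last k))
    rw [Finset.card_univ, Fintype.card_fin] at h3 h4
    omega
  have hsub : Y0 n k M ⊆ (Z ×ˢ univ).biUnion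
      (fun zp => (SM n (k + 1)).filter (fun A => wt A = M ∧ A zp.1.1 zp.1.2 = 0 ∧ Cd k T zp.2 A)) := by
    intro A hA
    unfold Y0 at hA
    rw [mem_filter] at hA
    obtain ⟨hA1, hA2, z1, z2, hz1, hz2, hz3⟩ := hA
    obtain ⟨p, hp⟩ := cover hk h1 h2 hn hA1 hA2
    rw [mem_biUnion]
    refine ⟨((z1, z2), p), ?_, ?_⟩
    · rw [mem_product]
      refine ⟨?_, mem_univ _⟩
      rw [hZ, mem_filter]
      exact ⟨mem_univ _, hz1, hz2⟩
    · rw [mem_filter]
      exact ⟨hA1, hA2, hz3, hp⟩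
  have h3 : (Y0 n k M).card ≤ ∑ zp ∈ Z ×ˢ univ, ((SM n (k + 1)).filter
      (fun A => wt A = M ∧ A zp.1.1 zp.1.2 = 0 ∧ Cd k T zp.2 A)).card :=
    (Finset.card_le_card hsub).trans Finset.card_biUnion_le
  calc T * (Y0 n k M).card ≤ T * ∑ zp ∈ Z ×ˢ univ, ((SM n (k + 1)).filter
      (fun A => wt A = M ∧ A zp.1.1 zp.1.2 = 0 ∧ Cd k T zp.2 A)).card := Nat.mul_le_mul_left _ h3
    _ = ∑ zp ∈ Z ×ˢ univ, T * ((SM n (k + 1)).filter
      (fun A => wt A = M ∧ A zp.1.1 zp.1.2 = 0 ∧ Cd k T zp.2 A)).card := by rw [Finset.mul_sum]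
    _ ≤ ∑ zp ∈ Z ×ˢ (univ : Finset (Fin (k + 1) × Fin (k + 1))), (YY n k M).card := by
        apply Finset.sum_le_sum
        rintro ⟨⟨z1, z2⟩, p⟩ hzp
        rw [mem_product, hZ, mem_filter] at hzp
        exact label_bound hk hT hzp.1.2.1 p
    _ = Z.card * (k + 1) ^ 2 * (YY n k M).card := by
        rw [Finset.sum_const, Finset.card_product, Finset.card_univ, Fintype.card_prod,
          Fintype.card_fin, smul_eq_mul]
        ring
    _ ≤ 2 * (k + 1) * (k + 1) ^ 2 * (YY n k M).card :=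
        Nat.mul_le_mul_right _ (Nat.mul_le_mul_right _ hZc)
    _ = _ := by ring

/-- the key inequality. -/
theorem two_qn_le (hk : 1 ≤ k) {M : ℕ} (h1 : n ≤ 2 * M) (h2 : 2 * M ≤ n * k)
    (hn : 32 * (k + 1) ^ 8 ≤ n) :
    (2 * qn n * Fp n k).coeff M ≤ (Fp n (k + 1)).coeff M := by
  have hb := Y0_bound (n := n) (M := M) (T := 4 * (k + 1) ^ 4) hk (by
    have : 0 < 4 * (k + 1) ^ 4 := by positivity
    omega) h1 h2 (by
    refine le_trans ?_ hn
    have h3 : k ^ 2 * ((k + 1) ^ 2 + 1) ≤ (k + 1) ^ 4 := by nlinarith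
    calc 8 * k ^ 2 * ((k + 1) ^ 2 + 1) * (4 * (k + 1) ^ 4)
        = 32 * (k ^ 2 * ((k + 1) ^ 2 + 1)) * (k + 1) ^ 4 := by ring
      _ ≤ 32 * (k + 1) ^ 4 * (k + 1) ^ 4 :=
          Nat.mul_le_mul_right _ (Nat.mul_le_mul_left _ h3)
      _ = 32 * (k + 1) ^ 8 := by ring)
  have h3 : 2 * (k + 1) * (Y0 n k M).card ≤ (YY n k M).card := by
    have h4 : 2 * (k + 1) ^ 3 * (2 * (k + 1) * (Y0 n k M).card)
        ≤ 2 * (k + 1) ^ 3 * (YY n k M).card := by
      calc 2 * (k + 1) ^ 3 * (2 * (k + 1) * (Y0 n k M).card)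
          = 4 * (k + 1) ^ 4 * (Y0 n k M).card := by ring
        _ ≤ _ := hb
    exact Nat.le_of_mul_le_mul_left h4 (by positivity)
  have h4 := qn_mul_Fp_le (n := n) (k := k) hk M
  have h5 : (Fp n (k + 1)).coeff M = ((YY n k M).card : ℤ) := by
    unfold Fp YY
    rw [Polynomial.finsetSum_coeff, Finset.card_filter]
    push_cast
    apply Finset.sum_congr rfl
    intro A _
    rw [Polynomial.coeff_X_pow]
    simp only [eq_comm (a := M)]
  have h6 : (2 * qn n * Fp n k).coeff M = 2 * (qn n * Fp n k).coeff M := by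
    rw [mul_assoc, ← Polynomial.C_ofNat, Polynomial.coeff_C_mul]
  rw [h5, h6]
  have h7 : ((2 * (k + 1) * (Y0 n k M).card : ℕ) : ℤ) ≤ ((YY n k M).card : ℤ) := by
    exact_mod_cast h3
  push_cast at h4 h7
  linarith

end Pool.H56.Inv
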