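import Pool.Agent.H56.Inv.Pal

set_option autoImplicit false
open Finset

namespace Pool.H56.Inv

/-- the sum of `r` distinct positive integers is at least `r(r+1)/2`. -/
theorem sum_ge_choose (U : Finset ℕ) (hU : ∀ x ∈ U, 1 ≤ x) :
    (U.card + 1).choose 2 ≤ ∑ x ∈ U, x := by
  classical
  induction hn : U.card generalizing U with
  | zero => simp
  | succ r ih =>
    have hne : U.Nonempty := by
      rw [← Finset.card_pos]; omega
    have hmax := U.max'_mem hne
    have h1 : (U.erase (U.max' hne)).card = r := by
      rw [Finset.card_erase_of_mem hmax]; omega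
    have h2 := ih (U.erase (U.max' hne)) (fun x hx => hU x (Finset.mem_of_mem_erase hx)) h1
    have h3 : U ⊆ Icc 1 (U.max' hne) := by
      intro x hx
      rw [mem_Icc]
      exact ⟨hU x hx, U.le_max' x hx⟩
    have h4 := Finset.card_le_card h3
    rw [Nat.card_Icc] at h4
    rw [← Finset.add_sum_erase U _ hmax]
    have h5 : (r + 1 + 1).choose 2 = (r + 1) + (r + 1).choose 2 := by
      rw [Nat.choose_succ_succ' (r + 1) 1, Nat.choose_one_right]
    rw [h5]
    omega

theorem sum_succ_choose (n : ℕ) : ∑ x ∈ range n, (x + 1) = (n + 1).choose 2 := by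
  induction n with
  | zero => simp
  | succ n ih =>
    rw [Finset.sum_range_succ, ih, Nat.choose_succ_succ' (n + 1) 1, Nat.choose_one_right]
    ring

/-- coefficient `r` of the polynomial `∑_σ t^{des σ} q^{maj σ}`. -/
noncomputable def pc (ε : ℤ) (n r : ℕ) : Polynomial ℤ :=
  ∑ σ ∈ (Invo n).filter (fun σ => (DI ε σ).card = r),
    Polynomial.X ^ (∑ i ∈ DI ε σ, ((i : ℕ) + 1))

theorem pc_eq {ε : ℤ} (hε : ε = 1 ∨ ε = -1) (n r : ℕ) :
    PowerSeries.coeff r ((PowerSeries.mk fun m => Fp n (m + 1)) * Den n) = pc ε n r := by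
  rw [Fp_gen hε, map_sum]
  unfold pc
  rw [Finset.sum_filter]
  apply Finset.sum_congr rfl
  intro σ _
  rw [PowerSeries.coeff_C_mul, PowerSeries.coeff_X_pow]
  simp only [eq_comm (a := r)]
  split_ifs <;> simp

theorem pc_symm (n r : ℕ) : pc 1 n r = pc (-1) n r := by
  rw [← pc_eq (Or.inl rfl), ← pc_eq (Or.inr rfl)]

theorem Den_coeff_pal (n a : ℕ) : PalP (n * a) (PowerSeries.coeff a (Den n)) := by
  have h0 : Den n = ∑ U ∈ (range (n + 1)).powerset, PowerSeries.C ((-1) ^ U.card
      * (Polynomial.X : Polynomial ℤ) ^ (∑ i ∈ U, i)) * PowerSeries.X ^ U.card := by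
    unfold Den
    have : ∀ i ∈ range (n + 1), (1 - PowerSeries.C ((Polynomial.X : Polynomial ℤ) ^ i)
        * PowerSeries.X) = 1 + (PowerSeries.C (-(Polynomial.X : Polynomial ℤ) ^ i)
        * PowerSeries.X) := by
      intro i _
      rw [map_neg]
      ring
    rw [Finset.prod_congr rfl this, Finset.prod_one_add]
    apply Finset.sum_congr rfl
    intro U _
    rw [Finset.prod_mul_distrib, Finset.prod_const, ← map_prod]
    congr 2
    rw [← Finset.prod_pow_eq_pow_sum, ← Finset.prod_const, ← Finset.prod_mul_distrib]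
    apply Finset.prod_congr rfl
    intro i _
    ring
  have h1 : PowerSeries.coeff a (Den n) = Polynomial.C ((-1) ^ a) * ∑ U ∈ (range (n + 1)).powersetCard a,
      (Polynomial.X : Polynomial ℤ) ^ (∑ i ∈ U, i) := by
    rw [h0, map_sum, Finset.mul_sum]
    have h2 : ∀ U ∈ (range (n + 1)).powerset, PowerSeries.coeff a (PowerSeries.C ((-1) ^ U.card
      * (Polynomial.X : Polynomial ℤ) ^ (∑ i ∈ U, i)) * PowerSeries.X ^ U.card)
        = if U.card = a then Polynomial.C ((-1) ^ a) * (Polynomial.X : Polynomial ℤ) ^ (∑ i ∈ U, i)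
          else 0 := by
      intro U _
      rw [PowerSeries.coeff_C_mul, PowerSeries.coeff_X_pow]
      simp only [eq_comm (a := a)]
      split_ifs with h
      · rw [← h]; simp
      · simp
    rw [Finset.sum_congr rfl h2, ← Finset.sum_filter]
    congr 1
    ext U
    rw [mem_filter, mem_powerset, mem_powersetCard]
  rw [h1]
  have hC : PalP 0 (Polynomial.C ((-1 : ℤ) ^ a)) := by
    constructor
    · simp
    · rw [← mul_one (Polynomial.C ((-1 : ℤ) ^ a)), Polynomial.reflect_C_mul]
      simp
  have h3 := hC.mul (r := ∑ U ∈ (range (n + 1)).powersetCard a,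
      (Polynomial.X : Polynomial ℤ) ^ (∑ i ∈ U, i)) (s' := n * a) (by
    have hinj : ∀ U ⊆ range (n + 1), Set.InjOn (fun i => n - i) (U : Set ℕ) := by
      intro U hU x hx y hy hxy
      have h1 := hU hx
      have h2 := hU hy
      rw [mem_range] at h1 h2
      simp only at hxy
      omega
    apply PalP.of_invol _ _ (fun U => U.image (fun i => n - i))
    · intro U hU
      rw [mem_powersetCard] at hU ⊢
      constructor
      · intro x hx
        rw [mem_image] at hx
        obtain ⟨y, hy, rfl⟩ := hx
        rw [mem_range]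
        omega
      · rw [Finset.card_image_of_injOn (hinj U hU.1)]
        exact hU.2
    · intro U hU
      rw [mem_powersetCard] at hU
      rw [Finset.image_image]
      have : ∀ x ∈ U, ((fun i => n - i) ∘ fun i => n - i) x = x := by
        intro x hx
        have := hU.1 hx
        rw [mem_range] at this
        simp only [Function.comp_apply]
        omega
      rw [Finset.image_congr (g := id) (fun x hx => this x hx)]
      simp
    · intro U hU
      rw [mem_powersetCard] at hU
      rw [Finset.sum_image (hinj U hU.1), ← Finset.sum_add_distrib]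
      have : ∀ x ∈ U, n - x + x = n := by
        intro x hx
        have := hU.1 hx
        rw [mem_range] at this
        omega
      rw [Finset.sum_congr rfl this, Finset.sum_const, smul_eq_mul, hU.2, mul_comm])
  rwa [zero_add] at h3

theorem pc_pal (n r : ℕ) : PalP (n * r) (pc 1 n r) := by
  rw [← pc_eq (Or.inl rfl), PowerSeries.coeff_mul]
  apply PalP.sum
  rintro ⟨a, b⟩ hab
  rw [Finset.HasAntidiagonal.mem_antidiagonal] at hab
  simp only at hab ⊢
  rw [← hab, mul_add, PowerSeries.coeff_mk]
  exact (Fp_pal n a).mul (Den_coeff_pal n b)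

theorem DI_compl {n : ℕ} (σ : Equiv.Perm (Fin n)) :
    (DI 1 σ).card + (DI (-1) σ).card = n - 1 ∧
    ∑ i ∈ DI 1 σ, ((i : ℕ) + 1) + ∑ i ∈ DI (-1) σ, ((i : ℕ) + 1) = n.choose 2 := by
  classical
  have hdisj : Disjoint (DI 1 σ) (DI (-1) σ) := by
    rw [Finset.disjoint_left]
    intro i h1 h2
    simp only [DI, mem_filter, mem_univ, true_and] at h1 h2
    obtain ⟨j, hj, h1⟩ := h1
    obtain ⟨j', hj', h2⟩ := h2
    have : j = j' := Fin.ext (by omega)
    subst this
    omega
  have hunion : DI 1 σ ∪ DI (-1) σ = univ.filter fun i : Fin n => (i : ℕ) + 1 < n := by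
    ext i
    simp only [DI, mem_union, mem_filter, mem_univ, true_and]
    constructor
    · rintro (⟨j, hj, _⟩ | ⟨j, hj, _⟩) <;> (have := j.2; omega)
    · intro h
      have hne : ((σ ⟨i + 1, h⟩ : ℕ) : ℤ) ≠ (σ i : ℕ) := by
        intro h1
        have h2 : σ ⟨i + 1, h⟩ = σ i := Fin.ext (by exact_mod_cast h1)
        have h3 := σ.injective h2
        have h4 := congrArg Fin.val h3
        simp at h4
      rcases lt_or_gt_of_ne hne with h1 | h1
      · left
        exact ⟨⟨i + 1, h⟩, rfl, by omega⟩
      · right
        exact ⟨⟨i + 1, h⟩, rfl, by omega⟩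
  have himg : (univ.filter fun i : Fin n => (i : ℕ) + 1 < n).image (fun i : Fin n => (i : ℕ))
      = range (n - 1) := by
    ext x
    simp only [mem_image, mem_filter, mem_univ, true_and, mem_range]
    constructor
    · rintro ⟨i, h, rfl⟩
      omega
    · intro h
      exact ⟨⟨x, by omega⟩, by simp only; omega, rfl⟩
  have hinj : Set.InjOn (fun i : Fin n => (i : ℕ))
      ((univ.filter fun i : Fin n => (i : ℕ) + 1 < n : Finset (Fin n)) : Set (Fin n)) :=
    fun i _ j _ h => Fin.ext h
  constructor
  · rw [← Finset.card_union_of_disjoint hdisj, hunion, ← Finset.card_image_of_injOn hinj, himg,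
      Finset.card_range]
  · rw [← Finset.sum_union hdisj, hunion]
    have : ∑ i ∈ univ.filter (fun i : Fin n => (i : ℕ) + 1 < n), ((i : ℕ) + 1)
        = ∑ x ∈ range (n - 1), (x + 1) := by
      rw [← himg, Finset.sum_image hinj]
    rw [this]
    cases n with
    | zero => simp
    | succ n =>
      rw [Nat.add_sub_cancel]
      exact sum_succ_choose n

theorem pc_zero {n r : ℕ} (h : n - 1 < r) : pc 1 n r = 0 := by
  unfold pc
  apply Finset.sum_eq_zero
  intro σ hσ
  rw [mem_filter] at hσ
  have := (DI_compl σ).1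
  omega

theorem pc_div (n r : ℕ) : (Polynomial.X : Polynomial ℤ) ^ ((r + 1).choose 2) ∣ pc 1 n r := by
  unfold pc
  apply Finset.dvd_sum
  intro σ hσ
  rw [mem_filter] at hσ
  have h1 := sum_ge_choose (DD 1 σ) (fun x hx => (mem_Ico.1 (DD_subset 1 σ hx)).1)
  rw [DD_card, DD_sum, hσ.2] at h1
  exact pow_dvd_pow _ h1

/-- a generic identity for palindromic sums. -/
theorem reflect_sum_X {ι : Type*} (T : Finset ι) (w : ι → ℕ) (s : ℕ) (hw : ∀ x ∈ T, w x ≤ s) :
    Polynomial.reflect s (∑ x ∈ T, (Polynomial.X : Polynomial ℤ) ^ w x)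
      = ∑ x ∈ T, (Polynomial.X : Polynomial ℤ) ^ (s - w x) := by
  classical
  have hrefl : ∀ T' : Finset ι, Polynomial.reflect s
      (∑ x ∈ T', (Polynomial.X : Polynomial ℤ) ^ w x)
      = ∑ x ∈ T', Polynomial.reflect s ((Polynomial.X : Polynomial ℤ) ^ w x) := by
    intro T'
    induction T' using Finset.induction_on with
    | empty => simp
    | insert a T ha ih => rw [Finset.sum_insert ha, Finset.sum_insert ha,
        Polynomial.reflect_add, ih]
  rw [hrefl]
  apply Finset.sum_congr rfl
  intro x hx
  rw [Polynomial.reflect_monomial, Polynomial.revAt_le (hw x hx)]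

/-- the symmetry of a coefficient sequence. -/
def Sym (n : ℕ) (P : ℕ → Polynomial ℤ) : Prop :=
  (∀ r, n - 1 < r → P r = 0) ∧
    ∀ r, r ≤ n - 1 → P (n - 1 - r) * Polynomial.X ^ (n * r) = P r * Polynomial.X ^ (n.choose 2)

/-- divisibility of a coefficient sequence. -/
def Dv (P : ℕ → Polynomial ℤ) : Prop :=
  ∀ r, (Polynomial.X : Polynomial ℤ) ^ ((r + 1).choose 2) ∣ P r

theorem pc_sym (n : ℕ) : Sym n (pc 1 n) := by
  refine ⟨fun r hr => pc_zero hr, ?_⟩
  intro r hr
  have h1 := (pc_pal n r).2
  have hle : ∀ σ ∈ (Invo n).filter (fun σ => (DI 1 σ).card = r),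
      ∑ i ∈ DI 1 σ, ((i : ℕ) + 1) ≤ n * r := by
    intro σ hσ
    rw [mem_filter] at hσ
    calc ∑ i ∈ DI 1 σ, ((i : ℕ) + 1) ≤ ∑ i ∈ DI 1 σ, n :=
          Finset.sum_le_sum (fun i _ => i.2)
      _ = n * r := by rw [Finset.sum_const, smul_eq_mul, hσ.2, mul_comm]
  rw [← h1]
  unfold pc at h1 ⊢
  rw [reflect_sum_X _ _ _ hle]
  have h2 := pc_symm n (n - 1 - r)
  unfold pc at h2
  rw [h2]
  have h3 : (Invo n).filter (fun σ => (DI (-1) σ).card = n - 1 - r)
      = (Invo n).filter (fun σ => (DI 1 σ).card = r) := by
    apply Finset.filter_congr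
    intro σ _
    have := (DI_compl σ).1
    omega
  rw [h3, Finset.sum_mul, Finset.sum_mul]
  apply Finset.sum_congr rfl
  intro σ hσ
  have h4 := hle σ hσ
  have h5 := (DI_compl σ).2
  rw [← pow_add, ← pow_add]
  congr 1
  omega

/-- coefficient sequence of the basis element. -/
noncomputable def bc (n k r : ℕ) : Polynomial ℤ :=
  if k ≤ r then Polynomial.X ^ ((k + 1).choose 2) * PowerSeries.coeff (r - k) (Es n k) else 0

theorem bc_dv (n k : ℕ) : Dv (bc n k) := by
  classical
  intro r
  unfold bc
  split_ifs with h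
  · rw [Es_coeff, Finset.mul_sum]
    apply Finset.dvd_sum
    intro U hU
    rw [mem_powersetCard] at hU
    rw [← pow_add]
    apply pow_dvd_pow
    have hdisj : Disjoint (Icc 1 k) U := by
      rw [Finset.disjoint_left]
      intro x hx hx'
      have := hU.1 hx'
      rw [mem_Icc] at hx this
      omega
    have h1 := sum_ge_choose (Icc 1 k ∪ U) (by
      intro x hx
      rw [mem_union] at hx
      rcases hx with hx | hx
      · exact (mem_Icc.1 hx).1
      · have := hU.1 hx
        rw [mem_Icc] at this
        omega)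
    rw [Finset.card_union_of_disjoint hdisj, Finset.sum_union hdisj, hU.2, Nat.card_Icc] at h1
    have h2 : ∑ x ∈ Icc 1 k, x = (k + 1).choose 2 := by
      rw [← sum_succ_choose]
      refine Finset.sum_bij' (fun x _ => x - 1) (fun x _ => x + 1) ?_ ?_ ?_ ?_ ?_
      · intro x hx
        rw [mem_Icc] at hx
        rw [mem_range]
        omega
      · intro x hx
        rw [mem_range] at hx
        rw [mem_Icc]
        omega
      · intro x hx
        rw [mem_Icc] at hx
        omega
      · intro x hx
        simp
      · intro x hx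
        rw [mem_Icc] at hx
        omega
    rw [h2] at h1
    have h3 : k + 1 - 1 + (r - k) = r := by omega
    rw [h3] at h1
    exact h1
  · exact dvd_zero _

theorem bc_sym {n k : ℕ} (hk : 2 * k + 1 ≤ n) : Sym n (bc n k) := by
  classical
  have hcard : (Icc (k + 1) (n - 1 - k)).card = n - 1 - 2 * k := by
    rw [Nat.card_Icc]; omega
  have hsumall : ∑ i ∈ Icc (k + 1) (n - 1 - k), i + n * k = n.choose 2 := by
    have h1 : ∑ i ∈ Icc (k + 1) (n - 1 - k), i = ∑ i ∈ Icc (k + 1) (n - 1 - k), (n - i) := by
      refine Finset.sum_bij' (fun x _ => n - x) (fun x _ => n - x) ?_ ?_ ?_ ?_ ?_ <;>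
      · intro x hx
        rw [mem_Icc] at hx
        first | (rw [mem_Icc]; omega) | omega
    have h2 : 2 * ∑ i ∈ Icc (k + 1) (n - 1 - k), i = n * (n - 1 - 2 * k) := by
      rw [two_mul]
      nth_rewrite 2 [h1]
      rw [← Finset.sum_add_distrib, ← hcard]
      have : ∀ x ∈ Icc (k + 1) (n - 1 - k), x + (n - x) = n := by
        intro x hx
        rw [mem_Icc] at hx
        omega
      rw [Finset.sum_congr rfl this, Finset.sum_const, smul_eq_mul, mul_comm]
    have h3 : 2 * n.choose 2 = n * (n - 1) := by
      rw [Nat.choose_two_right]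
      exact Nat.mul_div_cancel' (Nat.even_mul_pred_self n).two_dvd
    have h4 : n * (n - 1 - 2 * k) + 2 * (n * k) = n * (n - 1) := by
      have : n * (n - 1) = n * ((n - 1 - 2 * k) + 2 * k) := by
        congr 1; omega
      rw [this]; ring
    omega
  constructor
  · intro r hr
    unfold bc
    split_ifs with h
    · rw [Es_coeff, Finset.powersetCard_eq_empty.2 (by rw [hcard]; omega)]
      simp
    · rfl
  · intro r hr
    unfold bc
    by_cases h1 : k ≤ r
    · by_cases h2 : k ≤ n - 1 - r
      · rw [if_pos h1, if_pos h2]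
        have hp := (Es_pal (n := n) (k := k) (r - k)).2
        have hle : ∀ U ∈ (Icc (k + 1) (n - 1 - k)).powersetCard (r - k),
            ∑ i ∈ U, i ≤ n * (r - k) := by
          intro U hU
          rw [mem_powersetCard] at hU
          calc ∑ i ∈ U, i ≤ ∑ i ∈ U, n := Finset.sum_le_sum (fun i hi => by
                have := hU.1 hi
                rw [mem_Icc] at this
                omega)
            _ = _ := by rw [Finset.sum_const, smul_eq_mul, hU.2, mul_comm]
        have hE2 : PowerSeries.coeff (n - 1 - r - k) (Es n k)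
            = ∑ U ∈ (Icc (k + 1) (n - 1 - k)).powersetCard (r - k),
              (Polynomial.X : Polynomial ℤ) ^ (∑ i ∈ Icc (k + 1) (n - 1 - k), i - ∑ i ∈ U, i) := by
          rw [Es_coeff]
          refine Finset.sum_bij' (fun U _ => Icc (k + 1) (n - 1 - k) \ U)
            (fun U _ => Icc (k + 1) (n - 1 - k) \ U) ?_ ?_ ?_ ?_ ?_
          · intro U hU
            rw [mem_powersetCard] at hU ⊢
            refine ⟨Finset.sdiff_subset, ?_⟩
            rw [Finset.card_sdiff_of_subset hU.1, hcard, hU.2]
            omega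
          · intro U hU
            rw [mem_powersetCard] at hU ⊢
            refine ⟨Finset.sdiff_subset, ?_⟩
            rw [Finset.card_sdiff_of_subset hU.1, hcard, hU.2]
            omega
          · intro U hU
            rw [mem_powersetCard] at hU
            exact Finset.sdiff_sdiff_eq_self hU.1
          · intro U hU
            rw [mem_powersetCard] at hU
            exact Finset.sdiff_sdiff_eq_self hU.1
          · intro U hU
            rw [mem_powersetCard] at hU
            congr 1
            have := Finset.sum_sdiff hU.1 (f := fun i => i)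
            omega
        have hE1 : PowerSeries.coeff (r - k) (Es n k)
            = ∑ U ∈ (Icc (k + 1) (n - 1 - k)).powersetCard (r - k),
              (Polynomial.X : Polynomial ℤ) ^ (n * (r - k) - ∑ i ∈ U, i) := by
          rw [← hp, Es_coeff, reflect_sum_X _ _ _ hle]
        rw [hE1, hE2, mul_assoc, mul_assoc]
        congr 1
        rw [Finset.sum_mul, Finset.sum_mul]
        apply Finset.sum_congr rfl
        intro U hU
        have h3 := hle U hU
        rw [mem_powersetCard] at hU
        have h4 : ∑ i ∈ U, i ≤ ∑ i ∈ Icc (k + 1) (n - 1 - k), i :=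
          Finset.sum_le_sum_of_subset hU.1
        rw [← pow_add, ← pow_add]
        congr 1
        have h5 : n * (r - k) + n * k = n * r := by rw [← mul_add]; congr 1; omega
        omega
      · rw [if_pos h1, if_neg h2, Es_coeff, Finset.powersetCard_eq_empty.2 (by rw [hcard]; omega)]
        simp
    · rw [if_neg h1, zero_mul]
      split_ifs with h2
      · rw [Es_coeff, Finset.powersetCard_eq_empty.2 (by rw [hcard]; omega)]
        simp
      · simp

theorem peel {n : ℕ} (hn : 1 ≤ n) (d : ℕ) : ∀ (k : ℕ) (P : ℕ → Polynomial ℤ),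
    k + d = (n - 1) / 2 + 1 → Sym n P → Dv P → (∀ r, r < k → P r = 0) →
    ∃ γ : ℕ → Polynomial ℤ, ∀ r, P r = ∑ j ∈ range ((n - 1) / 2 + 1), γ j * bc n j r := by
  induction d with
  | zero =>
    intro k P hk hs hd hz
    refine ⟨fun _ => 0, ?_⟩
    intro r
    simp only [zero_mul, Finset.sum_const_zero]
    by_cases h1 : n - 1 < r
    · exact hs.1 r h1
    · by_cases h2 : r < k
      · exact hz r h2
      · have h3 := hs.2 r (by omega)
        rw [hz (n - 1 - r) (by omega), zero_mul] at h3
        have h4 : (Polynomial.X : Polynomial ℤ) ^ (n.choose 2) ≠ 0 :=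
          pow_ne_zero _ Polynomial.X_ne_zero
        exact (mul_eq_zero.1 h3.symm).resolve_right h4
  | succ d ih =>
    intro k P hk hs hd hz
    obtain ⟨g, hg⟩ := hd k
    have hb := bc_sym (n := n) (k := k) (by omega)
    have hbk : bc n k k = Polynomial.X ^ ((k + 1).choose 2) := by
      unfold bc
      rw [if_pos le_rfl, Nat.sub_self]
      have : PowerSeries.coeff 0 (Es n k) = 1 := by
        rw [Es_coeff]
        simp
      rw [this, mul_one]
    obtain ⟨γ, hγ⟩ := ih (k + 1) (fun r => P r - g * bc n k r) (by omega)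
      ⟨fun r hr => by
        change P r - g * bc n k r = 0
        rw [hs.1 r hr, hb.1 r hr]; simp, fun r hr => by
        change (P (n - 1 - r) - g * bc n k (n - 1 - r)) * _ = (P r - g * bc n k r) * _
        have h1 := hs.2 r hr
        have h2 := hb.2 r hr
        linear_combination h1 - g * h2⟩
      (fun r => dvd_sub (hd r) (Dvd.dvd.mul_left (bc_dv n k r) g))
      (by
        intro r hr
        rcases Nat.lt_succ_iff_lt_or_eq.1 hr with h | h
        · rw [hz r h]
          unfold bc
          rw [if_neg (by omega)]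
          simp
        · subst h
          rw [hbk, hg]
          ring)
    refine ⟨fun j => γ j + if j = k then g else 0, ?_⟩
    intro r
    have h1 := hγ r
    have h2 : ∑ j ∈ range ((n - 1) / 2 + 1), (γ j + if j = k then g else 0) * bc n j r
        = ∑ j ∈ range ((n - 1) / 2 + 1), γ j * bc n j r + g * bc n k r := by
      rw [Finset.sum_congr rfl (fun j _ => add_mul (γ j) (if j = k then g else 0) (bc n j r)),
        Finset.sum_add_distrib]
      congr 1
      have : ∀ j ∈ range ((n - 1) / 2 + 1), (if j = k then g else 0) * bc n j r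
          = if j = k then g * bc n k r else 0 := by
        intro j _
        split_ifs with h
        · rw [h]
        · rw [zero_mul]
      rw [Finset.sum_congr rfl this, Finset.sum_ite_eq', if_pos (by rw [mem_range]; omega)]
    rw [h2, ← h1]
    ring

end Pool.H56.Inv
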