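import Pool.Agent.H56.Inv.Exist
import Pool.Agent.H56.Inv.Exch

set_option autoImplicit false
open Finset

namespace Pool.H56.Inv

/-- the evaluation form of the expansion. -/
def Ev (n : ℕ) (c : ℕ → Polynomial ℤ) : Prop :=
  ∀ m, m ≤ (n - 1) / 2 → Fp n (m + 1)
      = ∑ k ∈ range (m + 1), c k * PowerSeries.coeff (m - k) (Bs n k)

theorem Ev.eq {n : ℕ} {c : ℕ → Polynomial ℤ} (h : Ev n c) {m : ℕ} (hm : m ≤ (n - 1) / 2) :
    c m = Fp n (m + 1) - ∑ k ∈ range m, c k * PowerSeries.coeff (m - k) (Bs n k) := by
  have h1 := h m hm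
  rw [Finset.sum_range_succ, Nat.sub_self, Bs_zero, mul_one] at h1
  rw [h1]; ring

/-- positivity for one `k`, given positivity for smaller indices. -/
theorem step_nonneg {n k : ℕ} {c : ℕ → Polynomial ℤ} (h : Ev n c) (hn : 1 ≤ n)
    (hk : k ≤ (n - 1) / 2) (hc : ∀ j, j < k → NN (c j)) (hbig : k ≤ 1 ∨ 32 * (k + 1) ^ 8 ≤ n) :
    NN (c k) := by
  intro M
  have hpal := c_pal c h k hk
  -- reduce to the lower half
  have key : ∀ M, 2 * M ≤ n * k → 0 ≤ (c k).coeff M := by
    intro M hM
    by_cases h1 : M ≤ n / 2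
    · exact low_nonneg hn c h hk h1
    · by_cases hk1 : k ≤ 1
      · exfalso
        have : n * k ≤ n * 1 := Nat.mul_le_mul_left n hk1
        omega
      · have h2 := two_qn_le (n := n) (k := k) (M := M) (by omega) (by omega) hM
          (hbig.resolve_left hk1)
        have h3 : NN (2 * qn n * Fp n k
            - ∑ j ∈ range k, c j * PowerSeries.coeff (k - j) (Bs n j)) := by
          have h4 := h (k - 1) (by omega)
          rw [Nat.sub_add_cancel (by omega)] at h4
          rw [h4, Finset.mul_sum, ← Finset.sum_sub_distrib]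
          apply NN.sum
          intro j hj
          rw [mem_range] at hj
          have h5 := Bs_step n j (k - 1 - j)
          have h6 : k - 1 - j + 1 = k - j := by omega
          rw [h6] at h5
          have h7 := (hc j hj).mul h5
          have e : c j * (2 * qn n * PowerSeries.coeff (k - 1 - j) (Bs n j)
              - PowerSeries.coeff (k - j) (Bs n j))
              = 2 * qn n * (c j * PowerSeries.coeff (k - 1 - j) (Bs n j))
                - c j * PowerSeries.coeff (k - j) (Bs n j) := by ring
          rwa [e] at h7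
        have h4 := h3 M
        rw [Polynomial.coeff_sub] at h4
        rw [h.eq hk, Polynomial.coeff_sub]
        linarith
  by_cases h1 : 2 * M ≤ n * k
  · exact key M h1
  · by_cases h2 : M ≤ n * k
    · rw [hpal.coeff h2]
      exact key _ (by omega)
    · rw [hpal.coeff_zero (by omega)]

/-- full nonnegativity. -/
theorem all_nonneg {n : ℕ} {c : ℕ → Polynomial ℤ} (h : Ev n c) (hn : 1 ≤ n) :
    ∀ k, k ≤ (n - 1) / 2 → (k ≤ 1 ∨ 32 * (k + 1) ^ 8 ≤ n) → NN (c k) := by
  intro k
  induction k using Nat.strong_induction_on with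
  | _ k ih =>
    intro hk hbig
    apply step_nonneg h hn hk _ hbig
    intro j hj
    apply ih j hj (by omega)
    rcases hbig with h1 | h1
    · left; omega
    · right
      refine le_trans (Nat.mul_le_mul_left _ (Nat.pow_le_pow_left (by omega) _)) h1

/-- an expansion of the coefficient sequence gives the evaluation form. -/
theorem ev_of_expansion {n : ℕ} {γ : ℕ → Polynomial ℤ}
    (h : ∀ r, pc 1 n r = ∑ j ∈ range ((n - 1) / 2 + 1), γ j * bc n j r) :
    Ev n (fun k => Polynomial.X ^ ((k + 1).choose 2) * γ k) := by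
  have h1 : (PowerSeries.mk fun m => Fp n (m + 1)) * Den n
      = ∑ j ∈ range ((n - 1) / 2 + 1), PowerSeries.C (Polynomial.X ^ ((j + 1).choose 2) * γ j)
        * (PowerSeries.X ^ j * Es n j) := by
    ext r : 1
    rw [pc_eq (Or.inl rfl), h, map_sum]
    apply Finset.sum_congr rfl
    intro j _
    rw [PowerSeries.coeff_C_mul, PowerSeries.coeff_X_pow_mul']
    unfold bc
    split_ifs
    · ring
    · simp
  have h2 : (PowerSeries.mk fun m => Fp n (m + 1))
      = ∑ j ∈ range ((n - 1) / 2 + 1), PowerSeries.C (Polynomial.X ^ ((j + 1).choose 2) * γ j)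
        * (PowerSeries.X ^ j * Bs n j) := by
    calc (PowerSeries.mk fun m => Fp n (m + 1))
        = (PowerSeries.mk fun m => Fp n (m + 1)) * (Hs n * Den n) := by rw [Hs_Den, mul_one]
      _ = ((PowerSeries.mk fun m => Fp n (m + 1)) * Den n) * Hs n := by ring
      _ = _ := by
          rw [h1, Finset.sum_mul]
          apply Finset.sum_congr rfl
          intro j _
          unfold Bs
          ring
  intro m hm
  have h3 := congrArg (PowerSeries.coeff m) h2
  rw [PowerSeries.coeff_mk, map_sum] at h3
  rw [h3]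
  have h4 : ∀ j ∈ range ((n - 1) / 2 + 1), PowerSeries.coeff m
      (PowerSeries.C (Polynomial.X ^ ((j + 1).choose 2) * γ j) * (PowerSeries.X ^ j * Bs n j))
      = if j ≤ m then Polynomial.X ^ ((j + 1).choose 2) * γ j * PowerSeries.coeff (m - j) (Bs n j)
        else 0 := by
    intro j _
    rw [PowerSeries.coeff_C_mul, PowerSeries.coeff_X_pow_mul']
    split_ifs <;> simp
  rw [Finset.sum_congr rfl h4, ← Finset.sum_filter]
  apply Finset.sum_congr
  · ext j
    rw [mem_filter, mem_range, mem_range]
    omega
  · intro j _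
    rfl

theorem Ev.unique {n : ℕ} {c d : ℕ → Polynomial ℤ} (hc : Ev n c) (hd : Ev n d) :
    ∀ k, k ≤ (n - 1) / 2 → c k = d k := by
  intro k
  induction k using Nat.strong_induction_on with
  | _ k ih =>
    intro hk
    rw [hc.eq hk, hd.eq hk]
    congr 1
    apply Finset.sum_congr rfl
    intro j hj
    rw [mem_range] at hj
    rw [ih j hj (by omega)]

end Pool.H56.Inv
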