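import Mathlib

set_option autoImplicit false
open Finset

namespace Pool.H56.Inv

variable {n N : ℕ}

/-- `f` is weakly decreasing and, on each level set of `f`, `σ` is increasing (`ε = 1`) or
decreasing (`ε = -1`). -/
def Compat (ε : ℤ) (σ : Equiv.Perm (Fin n)) (f : Fin n → Fin N) : Prop :=
  ∀ i j : Fin n, i < j → f j ≤ f i ∧ (f i = f j → ε * (σ i : ℤ) < ε * (σ j : ℤ))

instance (ε : ℤ) (σ : Equiv.Perm (Fin n)) (f : Fin n → Fin N) : Decidable (Compat ε σ f) := by
  unfold Compat; infer_instance

/-- the matrix of a pair. -/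
def cnt (σ : Equiv.Perm (Fin n)) (f : Fin n → Fin N) (a b : Fin N) : ℕ :=
  (univ.filter fun x => f x = a ∧ f (σ x) = b).card

theorem sorted_unique {Λ : Type*} [LinearOrder Λ] (u v : Fin n → Λ) (hu : Monotone u)
    (hv : Monotone v) (h : ∀ l, (univ.filter fun x => u x = l).card
      = (univ.filter fun x => v x = l).card) : u = v := by
  apply List.ofFn_injective
  have hp : List.Perm (List.ofFn u) (List.ofFn v) := by
    rw [← Multiset.coe_eq_coe, ← Fin.univ_val_map, ← Fin.univ_val_map]
    ext l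
    rw [Multiset.count_map, Multiset.count_map]
    have := h l
    rw [Finset.card_def, Finset.card_def, Finset.filter_val, Finset.filter_val] at this
    simpa [eq_comm] using this
  exact hp.eq_of_pairwise' hu.sortedLE_ofFn.pairwise hv.sortedLE_ofFn.pairwise

theorem cnt_symm {σ : Equiv.Perm (Fin n)} (hσ : σ * σ = 1) (f : Fin n → Fin N) (a b : Fin N) :
    cnt σ f a b = cnt σ f b a := by
  have h2 : ∀ x, σ (σ x) = x := fun x => by
    have := congrArg (fun τ : Equiv.Perm (Fin n) => τ x) hσ
    simpa using this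
  unfold cnt
  apply Finset.card_bij (fun x _ => σ x)
  · intro x hx
    simp only [mem_filter, mem_univ, true_and] at hx ⊢
    exact ⟨hx.2, by rw [h2]; exact hx.1⟩
  · intro x _ y _ h
    exact σ.injective h
  · intro y hy
    simp only [mem_filter, mem_univ, true_and] at hy
    exact ⟨σ y, by simp only [mem_filter, mem_univ, true_and]; exact ⟨hy.2, by rw [h2]; exact hy.1⟩,
      h2 y⟩

theorem sum_cnt_mul (σ : Equiv.Perm (Fin n)) (f : Fin n → Fin N) (w : Fin N → ℕ) :
    ∑ a, ∑ b, w a * cnt σ f a b = ∑ x, w (f x) := by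
  have : ∀ a b, w a * cnt σ f a b = ∑ x, if f x = a ∧ f (σ x) = b then w (f x) else 0 := by
    intro a b
    unfold cnt
    rw [Finset.card_filter, Finset.mul_sum]
    apply Finset.sum_congr rfl
    intro x _
    split_ifs with h
    · rw [h.1]; simp
    · simp
  simp_rw [this]
  have h1 : ∀ a, ∑ b, ∑ x, (if f x = a ∧ f (σ x) = b then w (f x) else 0)
      = ∑ x, if f x = a then w (f x) else 0 := by
    intro a
    rw [Finset.sum_comm]
    apply Finset.sum_congr rfl
    intro x _
    by_cases h : f x = a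
    · simp [h]
    · simp [h]
  simp_rw [h1]
  rw [Finset.sum_comm]
  apply Finset.sum_congr rfl
  intro x _
  simp

theorem sum_cnt (σ : Equiv.Perm (Fin n)) (f : Fin n → Fin N) :
    ∑ a, ∑ b, cnt σ f a b = n := by
  have := sum_cnt_mul σ f (fun _ => 1)
  simpa using this

/-- the pair is determined by its matrix. -/
theorem compat_inj {ε : ℤ} (hε : ε = 1 ∨ ε = -1) {σ τ : Equiv.Perm (Fin n)}
    (hσ : σ * σ = 1) (hτ : τ * τ = 1) {f g : Fin n → Fin N} (hf : Compat ε σ f)
    (hg : Compat ε τ g) (h : ∀ a b, cnt σ f a b = cnt τ g a b) : σ = τ ∧ f = g := by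
  have h2σ : ∀ x, σ (σ x) = x := fun x => by
    have := congrArg (fun τ : Equiv.Perm (Fin n) => τ x) hσ
    simpa using this
  have h2τ : ∀ x, τ (τ x) = x := fun x => by
    have := congrArg (fun τ : Equiv.Perm (Fin n) => τ x) hτ
    simpa using this
  -- the keys
  have key : ∀ {σ : Equiv.Perm (Fin n)} {f : Fin n → Fin N}, Compat ε σ f →
      Monotone (fun x => (toLex (-((f x : ℕ) : ℤ), -ε * ((f (σ x) : ℕ) : ℤ)) : ℤ ×ₗ ℤ)) := by
    intro σ f hf
    apply monotone_iff_forall_lt.2
    intro i j hij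
    rw [Prod.Lex.toLex_le_toLex]
    obtain ⟨h1, h2⟩ := hf i j hij
    rcases h1.lt_or_eq with h1 | h1
    · left
      simp only
      have : ((f j : ℕ)) < (f i : ℕ) := h1
      omega
    · right
      refine ⟨by simp only; rw [h1], ?_⟩
      have h3 := h2 h1.symm
      simp only
      rcases hε with rfl | rfl
      · have h4 : σ i < σ j := by
          rw [Fin.lt_def]; omega
        have h5 : ((f (σ j) : ℕ)) ≤ (f (σ i) : ℕ) := (hf _ _ h4).1
        omega
      · have h4 : σ j < σ i := by
          rw [Fin.lt_def]; omega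
        have h5 : ((f (σ i) : ℕ)) ≤ (f (σ j) : ℕ) := (hf _ _ h4).1
        omega
  have heq := sorted_unique _ _ (key hf) (key hg) (by
    intro l
    obtain ⟨⟨l1, l2⟩, rfl⟩ : ∃ p : ℤ × ℤ, toLex p = l := ⟨ofLex l, rfl⟩
    by_cases hl : ∃ a b : Fin N, -((a : ℕ) : ℤ) = l1 ∧ -ε * ((b : ℕ) : ℤ) = l2
    · obtain ⟨a, b, ha, hb⟩ := hl
      have hc : ∀ (σ : Equiv.Perm (Fin n)) (f : Fin n → Fin N),
          (univ.filter fun x => (toLex (-((f x : ℕ) : ℤ), -ε * ((f (σ x) : ℕ) : ℤ)) : ℤ ×ₗ ℤ)
            = toLex (l1, l2)).card = cnt σ f a b := by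
        intro σ f
        unfold cnt
        congr 1
        apply Finset.filter_congr
        intro x _
        rw [← ha, ← hb]
        constructor
        · intro hx
          have hx' := congrArg ofLex hx
          have h1 := (Prod.mk.injEq _ _ _ _ ▸ hx' :
            -((f x : ℕ) : ℤ) = -((a : ℕ) : ℤ) ∧ -ε * ((f (σ x) : ℕ) : ℤ) = -ε * ((b : ℕ) : ℤ))
          refine ⟨Fin.ext (by omega), Fin.ext ?_⟩
          rcases hε with rfl | rfl <;> omega
        · rintro ⟨h1, h2⟩
          rw [h1, h2]
      rw [hc, hc, h]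
    · have hc : ∀ (σ : Equiv.Perm (Fin n)) (f : Fin n → Fin N),
          (univ.filter fun x => (toLex (-((f x : ℕ) : ℤ), -ε * ((f (σ x) : ℕ) : ℤ)) : ℤ ×ₗ ℤ)
            = toLex (l1, l2)) = ∅ := by
        intro σ f
        apply Finset.filter_eq_empty_iff.2
        intro x _ hx
        apply hl
        have hx' := congrArg ofLex hx
        have h1 := (Prod.mk.injEq _ _ _ _ ▸ hx' :
            -((f x : ℕ) : ℤ) = l1 ∧ -ε * ((f (σ x) : ℕ) : ℤ) = l2)
        exact ⟨f x, f (σ x), h1.1, h1.2⟩
      rw [hc, hc])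
  have hk : ∀ x, f x = g x ∧ f (σ x) = g (τ x) := by
    intro x
    have hx := congrFun heq x
    have hx' := congrArg ofLex hx
    have h1 := (Prod.mk.injEq _ _ _ _ ▸ hx' :
        -((f x : ℕ) : ℤ) = -((g x : ℕ) : ℤ) ∧
          -ε * ((f (σ x) : ℕ) : ℤ) = -ε * ((g (τ x) : ℕ) : ℤ))
    refine ⟨Fin.ext (by omega), Fin.ext ?_⟩
    rcases hε with rfl | rfl <;> omega
  have hfg : f = g := funext fun x => (hk x).1
  subst hfg
  refine ⟨?_, rfl⟩
  -- order characterisation
  have ord : ∀ {σ : Equiv.Perm (Fin n)}, (∀ x, σ (σ x) = x) → Compat ε σ f → ∀ x y,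
      σ x < σ y ↔ (f (σ y) < f (σ x) ∨ (f (σ x) = f (σ y) ∧ ε * (x : ℤ) < ε * (y : ℤ))) := by
    intro σ h2 hf x y
    constructor
    · intro hxy
      obtain ⟨h3, h4⟩ := hf _ _ hxy
      rcases h3.lt_or_eq with h3 | h3
      · exact Or.inl h3
      · right
        have := h4 h3.symm
        rw [h2, h2] at this
        exact ⟨h3.symm, this⟩
    · intro hxy
      by_contra hc
      rcases (not_lt.1 hc).lt_or_eq with hc | hc
      · obtain ⟨h3, h4⟩ := hf _ _ hc
        rcases hxy with hxy | ⟨hxy, h5⟩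
        · exact absurd h3 (not_le.2 hxy)
        · have := h4 hxy.symm
          rw [h2, h2] at this
          omega
      · have : x = y := (σ.injective hc).symm
        subst this
        rcases hxy with hxy | ⟨_, h5⟩
        · exact lt_irrefl _ hxy
        · exact lt_irrefl _ h5
  have hlt : ∀ x y, σ x < σ y ↔ τ x < τ y := by
    intro x y
    rw [ord h2σ hf, ord h2τ hg, (hk x).2, (hk y).2]
  -- so `τ ∘ σ⁻¹` is an order isomorphism
  have hmono : StrictMono (fun z => τ (σ z)) := by
    intro a b hab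
    simp only
    rw [← hlt, h2σ, h2σ]
    exact hab
  have hid : ∀ z, τ (σ z) = z := by
    let e : Fin n ≃o Fin n := StrictMono.orderIsoOfSurjective _ hmono
      (fun y => ⟨σ (τ y), by show τ (σ (σ (τ y))) = y; rw [h2σ, h2τ]⟩)
    intro z
    have : e = OrderIso.refl _ := Subsingleton.elim _ _
    have h3 : e z = z := by rw [this]; rfl
    exact h3
  ext x
  have := hid (σ x)
  rw [h2σ] at this
  rw [this]

/-- the cells of a matrix. -/
structure Cell (A : Fin N → Fin N → ℕ) where
  /-- row -/
  a : Fin N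
  /-- column -/
  b : Fin N
  /-- index in the entry -/
  m : Fin (A a b)

/-- cells as a sigma type. -/
def Cell.equiv (A : Fin N → Fin N → ℕ) : Cell A ≃ Σ p : Fin N × Fin N, Fin (A p.1 p.2) where
  toFun x := ⟨(x.a, x.b), x.m⟩
  invFun y := ⟨y.1.1, y.1.2, y.2⟩
  left_inv _ := rfl
  right_inv _ := rfl

instance (A : Fin N → Fin N → ℕ) : Fintype (Cell A) := Fintype.ofEquiv _ (Cell.equiv A).symm

/-- every symmetric matrix comes from a pair. -/
theorem compat_surj {ε : ℤ} (hε : ε = 1 ∨ ε = -1) (A : Fin N → Fin N → ℕ)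
    (hA : ∀ a b, A a b = A b a) (hn : ∑ a, ∑ b, A a b = n) :
    ∃ (σ : Equiv.Perm (Fin n)) (f : Fin n → Fin N), σ * σ = 1 ∧ Compat ε σ f ∧
      (∀ a b, cnt σ f a b = A a b) ∧ (ε = -1 → (∀ a, Even (A a a)) → ∀ x, σ x ≠ x) := by
  classical
  let key : Cell A → ℤ ×ₗ (ℤ ×ₗ ℤ) := fun x =>
    toLex (-((x.a : ℕ) : ℤ), toLex (-ε * ((x.b : ℕ) : ℤ), ((x.m : ℕ) : ℤ)))
  have hkey : Function.Injective key := by
    rintro ⟨a, b, m⟩ ⟨a', b', m'⟩ h
    have h1 := congrArg ofLex h
    have h2 := (Prod.mk.injEq _ _ _ _ ▸ h1 :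
      -((a : ℕ) : ℤ) = -((a' : ℕ) : ℤ) ∧ (toLex (-ε * ((b : ℕ) : ℤ), ((m : ℕ) : ℤ)) : ℤ ×ₗ ℤ)
        = toLex (-ε * ((b' : ℕ) : ℤ), ((m' : ℕ) : ℤ)))
    have h3 := congrArg ofLex h2.2
    have h4 := (Prod.mk.injEq _ _ _ _ ▸ h3 :
      -ε * ((b : ℕ) : ℤ) = -ε * ((b' : ℕ) : ℤ) ∧ ((m : ℕ) : ℤ) = ((m' : ℕ) : ℤ))
    have ha : a = a' := Fin.ext (by omega)
    have hb : b = b' := Fin.ext (by rcases hε with rfl | rfl <;> omega)
    subst ha hb
    have hm : m = m' := Fin.ext (by omega)
    rw [hm]
  let _inst : LinearOrder (Cell A) := LinearOrder.lift' key hkey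
  have hlt : ∀ x y : Cell A, x < y ↔ key x < key y := fun x y => Iff.rfl
  have hcard : Fintype.card (Cell A) = n := by
    rw [Fintype.card_congr (Cell.equiv A)]
    simp only [Fintype.card_sigma, Fintype.card_fin]
    rw [Fintype.sum_prod_type]
    exact hn
  let e : Fin n ≃o Cell A := Fintype.orderIsoFinOfCardEq (Cell A) hcard
  let s : Cell A → Cell A := fun x =>
    ⟨x.b, x.a, Fin.cast (hA _ _) (if ε = 1 then x.m else x.m.rev)⟩
  have hs : Function.Involutive s := by
    rintro ⟨a, b, m⟩
    simp only [s, Cell.mk.injEq, heq_eq_eq, true_and]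
    apply Fin.ext
    rcases hε with rfl | rfl
    · simp
    · simp only [Fin.val_cast, Int.reduceNeg, Int.reduceEq, if_false, Fin.val_rev]
      have := m.2
      have h2 := hA a b
      omega
  let σ : Equiv.Perm (Fin n) := (e.toEquiv.trans (hs.toPerm s)).trans e.symm.toEquiv
  have hσ : ∀ x, e (σ x) = s (e x) := by
    intro x
    simp [σ]
  refine ⟨σ, fun x => (e x).a, ?_, ?_, ?_, ?_⟩
  · ext x
    simp only [Equiv.Perm.coe_mul, Function.comp_apply, Equiv.Perm.coe_one, id]
    have : e (σ (σ x)) = e x := by rw [hσ, hσ, hs]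
    rw [e.injective this]
  · intro i j hij
    have h1 : key (e i) < key (e j) := (hlt _ _).1 (e.lt_iff_lt.2 hij)
    simp only [key] at h1
    rw [Prod.Lex.toLex_lt_toLex] at h1
    simp only at h1
    rw [Prod.Lex.toLex_lt_toLex] at h1
    simp only at h1
    change (e j).a ≤ (e i).a ∧ ((e i).a = (e j).a → ε * (σ i : ℤ) < ε * (σ j : ℤ))
    refine ⟨?_, ?_⟩
    · rw [Fin.le_def]
      omega
    · intro hfij
      have hij1 : ((e i).a : ℕ) = (e j).a := congrArg Fin.val hfij
      -- compare images
      have main : (ε = 1 → σ i < σ j) ∧ (ε = -1 → σ j < σ i) := by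
        constructor
        · intro h
          rw [← e.lt_iff_lt, hσ, hσ, hlt]
          simp only [key, s]
          rw [Prod.Lex.toLex_lt_toLex]
          simp only
          rw [Prod.Lex.toLex_lt_toLex]
          simp only
          subst h
          simp only [if_true, Fin.val_cast]
          omega
        · intro h
          rw [← e.lt_iff_lt, hσ, hσ, hlt]
          simp only [key, s]
          rw [Prod.Lex.toLex_lt_toLex]
          simp only
          rw [Prod.Lex.toLex_lt_toLex]
          simp only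
          subst h
          simp only [Int.reduceNeg, Int.reduceEq, if_false, Fin.val_cast, Fin.val_rev]
          have hi := (e i).m.2
          have hj := (e j).m.2
          by_cases hb : ((e i).b : ℕ) = (e j).b
          · have hAij : A (e i).a (e i).b = A (e j).a (e j).b := by
              rw [hfij, Fin.ext hb]
            omega
          · omega
      rcases hε with rfl | rfl
      · have := main.1 rfl
        rw [Fin.lt_def] at this
        omega
      · have := main.2 rfl
        rw [Fin.lt_def] at this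
        omega
  · intro a b
    unfold cnt
    have h1 : (univ.filter fun x => (e x).a = a ∧ (e (σ x)).a = b).card
        = (univ.filter fun y : Cell A => y.a = a ∧ y.b = b).card := by
      apply Finset.card_bij (fun x _ => e x)
      · intro x hx
        simp only [mem_filter, mem_univ, true_and] at hx ⊢
        rw [hσ] at hx
        exact hx
      · intro x _ y _ h
        exact e.injective h
      · intro y hy
        simp only [mem_filter, mem_univ, true_and] at hy
        refine ⟨e.symm y, ?_, by simp⟩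
        simp only [mem_filter, mem_univ, true_and]
        rw [hσ]
        simp only [OrderIso.apply_symm_apply, s]
        exact hy
    rw [h1]
    have h2 : (univ.filter fun y : Cell A => y.a = a ∧ y.b = b).card
        = Fintype.card (Fin (A a b)) := by
      rw [← Finset.card_univ]
      symm
      apply Finset.card_bij (fun (m : Fin (A a b)) _ => (⟨a, b, m⟩ : Cell A))
      · intro m _
        simp
      · intro m _ m' _ h
        simpa using h
      · rintro ⟨a', b', m⟩ hy
        simp only [mem_filter, mem_univ, true_and] at hy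
        obtain ⟨rfl, rfl⟩ := hy
        exact ⟨m, mem_univ _, rfl⟩
    rw [h2, Fintype.card_fin]
  · intro h hev x hx
    have h1 : s (e x) = e x := by rw [← hσ, hx]
    subst h
    rcases hex : e x with ⟨a, b, m⟩
    rw [hex] at h1
    simp only [s, Int.reduceNeg, Int.reduceEq, if_false] at h1
    have h2 := congrArg (fun y : Cell A => y.a) h1
    simp only at h2
    subst h2
    have h3 : ((Fin.cast (hA _ _) m.rev : Fin (A b b)) : ℕ) = (m : ℕ) := by
      have h4 := congrArg (fun y : Cell A => ((y.m : ℕ))) h1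
      exact h4
    simp only [Fin.val_cast, Fin.val_rev] at h3
    obtain ⟨r, hr⟩ := hev b
    have := m.2
    omega

end Pool.H56.Inv
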