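import Pool.Agent.H56.Inv.Alg

set_option autoImplicit false
open Finset

namespace Pool.H56.Inv

/-- palindromic of degree `s`. -/
def PalP (s : ℕ) (p : Polynomial ℤ) : Prop := p.natDegree ≤ s ∧ p.reflect s = p

theorem PalP.zero (s : ℕ) : PalP s 0 := ⟨by simp, by simp⟩

theorem PalP.one : PalP 0 1 := ⟨by simp, by simp⟩

theorem PalP.add {s : ℕ} {p r : Polynomial ℤ} (hp : PalP s p) (hr : PalP s r) : PalP s (p + r) :=
  ⟨(Polynomial.natDegree_add_le _ _).trans (max_le hp.1 hr.1), by
    rw [Polynomial.reflect_add, hp.2, hr.2]⟩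

theorem PalP.sub {s : ℕ} {p r : Polynomial ℤ} (hp : PalP s p) (hr : PalP s r) : PalP s (p - r) :=
  ⟨(Polynomial.natDegree_sub_le _ _).trans (max_le hp.1 hr.1), by
    rw [Polynomial.reflect_sub, hp.2, hr.2]⟩

theorem PalP.mul {s s' : ℕ} {p r : Polynomial ℤ} (hp : PalP s p) (hr : PalP s' r) :
    PalP (s + s') (p * r) :=
  ⟨Polynomial.natDegree_mul_le.trans (add_le_add hp.1 hr.1), by
    rw [Polynomial.reflect_mul _ _ hp.1 hr.1, hp.2, hr.2]⟩

theorem PalP.sum {ι : Type*} {s : ℕ} (T : Finset ι) (f : ι → Polynomial ℤ)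
    (h : ∀ i ∈ T, PalP s (f i)) : PalP s (∑ i ∈ T, f i) := by
  classical
  induction T using Finset.induction_on with
  | empty => simpa using PalP.zero s
  | insert a T ha ih =>
    rw [Finset.sum_insert ha]
    exact (h a (Finset.mem_insert_self _ _)).add
      (ih fun i hi => h i (Finset.mem_insert_of_mem hi))

theorem PalP.coeff {s : ℕ} {p : Polynomial ℤ} (hp : PalP s p) {M : ℕ} (hM : M ≤ s) :
    p.coeff M = p.coeff (s - M) := by
  conv_lhs => rw [← hp.2]
  rw [Polynomial.coeff_reflect, Polynomial.revAt_le hM]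

theorem PalP.coeff_zero {s : ℕ} {p : Polynomial ℤ} (hp : PalP s p) {M : ℕ} (hM : s < M) :
    p.coeff M = 0 :=
  Polynomial.coeff_eq_zero_of_natDegree_lt (lt_of_le_of_lt hp.1 hM)

/-- a criterion for sums of monomials. -/
theorem PalP.of_invol {ι : Type*} {s : ℕ} (T : Finset ι) (w : ι → ℕ) (φ : ι → ι)
    (hφ : ∀ x ∈ T, φ x ∈ T) (hφ2 : ∀ x ∈ T, φ (φ x) = x) (hw : ∀ x ∈ T, w (φ x) + w x = s) :
    PalP s (∑ x ∈ T, (Polynomial.X : Polynomial ℤ) ^ w x) := by
  constructor
  · apply Polynomial.natDegree_sum_le_of_forall_le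
    intro x hx
    rw [Polynomial.natDegree_X_pow]
    have := hw x hx
    omega
  · have hrefl : ∀ T' : Finset ι, Polynomial.reflect s
        (∑ x ∈ T', (Polynomial.X : Polynomial ℤ) ^ w x)
        = ∑ x ∈ T', Polynomial.reflect s ((Polynomial.X : Polynomial ℤ) ^ w x) := by
      classical
      intro T'
      induction T' using Finset.induction_on with
      | empty => simp
      | insert a T ha ih => rw [Finset.sum_insert ha, Finset.sum_insert ha,
          Polynomial.reflect_add, ih]
    rw [hrefl]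
    refine Finset.sum_bij' (fun x _ => φ x) (fun x _ => φ x) hφ hφ hφ2 hφ2 ?_
    intro x hx
    have := hw x hx
    rw [Polynomial.reflect_monomial, Polynomial.revAt_le (by omega)]
    congr 1
    omega

theorem Fp_pal (n N : ℕ) : PalP (n * N) (Fp n (N + 1)) := by
  unfold Fp
  apply PalP.of_invol _ _ (fun A a b => A a.rev b.rev)
  · intro A hA
    rw [mem_SM] at hA ⊢
    refine ⟨fun a b => hA.1 _ _, ?_⟩
    rw [← hA.2]
    rw [← Equiv.sum_comp Fin.revPerm (fun a => ∑ b, A a b)]
    apply Finset.sum_congr rfl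
    intro a _
    rw [← Equiv.sum_comp Fin.revPerm (fun b => A (Fin.revPerm a) b)]
    rfl
  · intro A hA
    funext a b
    simp
  · intro A hA
    rw [mem_SM] at hA
    have h1 : wt (fun a b : Fin (N + 1) => A a.rev b.rev)
        = ∑ a : Fin (N + 1), ∑ b : Fin (N + 1), (N - (a : ℕ)) * A a b := by
      unfold wt
      rw [← Equiv.sum_comp Fin.revPerm (fun a : Fin (N + 1) => ∑ b, (N - (a : ℕ)) * A a b)]
      apply Finset.sum_congr rfl
      intro a _
      rw [← Equiv.sum_comp Fin.revPerm (fun b => (N - ((Fin.revPerm a : Fin (N + 1)) : ℕ))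
        * A (Fin.revPerm a) b)]
      apply Finset.sum_congr rfl
      intro b _
      simp only [Fin.revPerm_apply]
      congr 1
      rw [Fin.val_rev]
      have := a.2
      omega
    rw [h1]
    unfold wt
    rw [← Finset.sum_add_distrib, ← hA.2, Finset.sum_mul]
    apply Finset.sum_congr rfl
    intro a _
    rw [← Finset.sum_add_distrib, Finset.sum_mul]
    apply Finset.sum_congr rfl
    intro b _
    rw [← Nat.add_mul, Nat.sub_add_cancel (by have := a.2; omega), mul_comm]

theorem Hs_pal (n m : ℕ) : PalP (n * m) (PowerSeries.coeff m (Hs n)) := by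
  unfold Hs Gs
  rw [PowerSeries.coeff_mk]
  unfold G
  have hmem : ∀ f : Fin n → ℕ, f ∈ PP n (m + 1) ∅ ↔ (∀ i, f i < m + 1) ∧
      ∀ i j : Fin n, (j : ℕ) = i + 1 → f j ≤ f i := by
    intro f
    rw [mem_PP]
    simp
  apply PalP.of_invol _ _ (fun f i => m - f i.rev)
  · intro f hf
    rw [hmem] at hf ⊢
    refine ⟨fun i => by omega, ?_⟩
    intro i j hij
    have h1 := hf.2 j.rev i.rev (by rw [Fin.val_rev, Fin.val_rev]; have := j.2; omega)
    omega
  · intro f hf
    rw [hmem] at hf
    funext i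
    have := hf.1 i
    simp only [Fin.rev_rev]
    omega
  · intro f hf
    rw [hmem] at hf
    rw [← Equiv.sum_comp Fin.revPerm (fun i => f i), ← Finset.sum_add_distrib]
    have : ∀ i : Fin n, m - f i.rev + f (Fin.revPerm i) = m := by
      intro i
      have := hf.1 i.rev
      simp only [Fin.revPerm_apply]
      omega
    rw [Finset.sum_congr rfl (fun i _ => this i)]
    simp

theorem Es_coeff (n k a : ℕ) : PowerSeries.coeff a (Es n k)
    = ∑ U ∈ (Icc (k + 1) (n - 1 - k)).powersetCard a, Polynomial.X ^ (∑ i ∈ U, i) := by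
  unfold Es
  rw [Finset.prod_one_add, map_sum]
  have h1 : ∀ U ∈ (Icc (k + 1) (n - 1 - k)).powerset, PowerSeries.coeff a
      (∏ i ∈ U, (PowerSeries.C ((Polynomial.X : Polynomial ℤ) ^ i) * PowerSeries.X))
      = if U.card = a then Polynomial.X ^ (∑ i ∈ U, i) else 0 := by
    intro U _
    rw [Finset.prod_mul_distrib, Finset.prod_const, ← map_prod, Finset.prod_pow_eq_pow_sum,
      PowerSeries.coeff_C_mul, PowerSeries.coeff_X_pow]
    simp only [eq_comm (a := a)]
    split_ifs <;> simp
  rw [Finset.sum_congr rfl h1, ← Finset.sum_filter]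
  congr 1
  ext U
  rw [mem_filter, mem_powerset, mem_powersetCard]

theorem Es_pal {n k : ℕ} (a : ℕ) : PalP (n * a) (PowerSeries.coeff a (Es n k)) := by
  rw [Es_coeff]
  have hinj : ∀ U ⊆ Icc (k + 1) (n - 1 - k), Set.InjOn (fun i => n - i) (U : Set ℕ) := by
    intro U hU x hx y hy hxy
    have h1 := hU hx
    have h2 := hU hy
    rw [mem_Icc] at h1 h2
    simp only at hxy
    omega
  apply PalP.of_invol _ _ (fun U => U.image (fun i => n - i))
  · intro U hU
    rw [mem_powersetCard] at hU ⊢
    constructor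
    · intro x hx
      rw [mem_image] at hx
      obtain ⟨y, hy, rfl⟩ := hx
      have := hU.1 hy
      rw [mem_Icc] at this ⊢
      omega
    · rw [Finset.card_image_of_injOn (hinj U hU.1)]
      exact hU.2
  · intro U hU
    rw [mem_powersetCard] at hU
    rw [Finset.image_image]
    have : ∀ x ∈ U, ((fun i => n - i) ∘ fun i => n - i) x = x := by
      intro x hx
      have := hU.1 hx
      rw [mem_Icc] at this
      simp only [Function.comp_apply]
      omega
    rw [Finset.image_congr (g := id) (fun x hx => this x hx)]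
    simp
  · intro U hU
    rw [mem_powersetCard] at hU
    rw [Finset.sum_image (hinj U hU.1), ← Finset.sum_add_distrib]
    have : ∀ x ∈ U, n - x + x = n := by
      intro x hx
      have := hU.1 hx
      rw [mem_Icc] at this
      omega
    rw [Finset.sum_congr rfl this, Finset.sum_const, smul_eq_mul, hU.2, mul_comm]

theorem Bs_pal {n k : ℕ} (m : ℕ) : PalP (n * m) (PowerSeries.coeff m (Bs n k)) := by
  unfold Bs
  rw [PowerSeries.coeff_mul]
  apply PalP.sum
  rintro ⟨a, b⟩ hab
  rw [Finset.HasAntidiagonal.mem_antidiagonal] at hab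
  simp only at hab ⊢
  rw [← hab, mul_add]
  exact (Es_pal a).mul (Hs_pal n b)

theorem c_pal {n : ℕ} (c : ℕ → Polynomial ℤ)
    (hc : ∀ m, m ≤ (n - 1) / 2 → Fp n (m + 1)
      = ∑ k ∈ range (m + 1), c k * PowerSeries.coeff (m - k) (Bs n k)) :
    ∀ m, m ≤ (n - 1) / 2 → PalP (n * m) (c m) := by
  intro m
  induction m using Nat.strong_induction_on with
  | _ m ih =>
    intro hm
    have h1 := hc m hm
    rw [Finset.sum_range_succ, Nat.sub_self, Bs_zero, mul_one] at h1
    have h2 : c m = Fp n (m + 1) - ∑ k ∈ range m, c k * PowerSeries.coeff (m - k) (Bs n k) := by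
      rw [h1]; ring
    rw [h2]
    apply (Fp_pal n m).sub
    apply PalP.sum
    intro k hk
    rw [mem_range] at hk
    have h3 := (ih k hk (by omega)).mul (Bs_pal (n := n) (k := k) (m - k))
    rw [← mul_add, Nat.add_sub_cancel' hk.le] at h3
    exact h3

end Pool.H56.Inv
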