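import Pool.Agent.H56.Inv.Comb

set_option autoImplicit false
open Finset

namespace Pool.H56.Inv

variable {n N : ℕ}

/-- the indicator matrix of a set of diagonal cells. -/
def dg (E : Finset (Fin N)) (a b : Fin N) : ℕ := if a = b ∧ a ∈ E then 1 else 0

theorem dg_symm (E : Finset (Fin N)) (a b : Fin N) : dg E a b = dg E b a := by
  unfold dg
  by_cases h : a = b
  · subst h; rfl
  · rw [if_neg (fun h' => h h'.1), if_neg (fun h' => h h'.1.symm)]

theorem sum_dg (E : Finset (Fin N)) (w : Fin N → ℕ) :
    ∑ a, ∑ b, w a * dg E a b = ∑ a ∈ E, w a := by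
  have : ∀ a, ∑ b, w a * dg E a b = if a ∈ E then w a else 0 := by
    intro a
    unfold dg
    by_cases h : a ∈ E
    · simp [h]
    · simp [h]
  simp_rw [this]
  simp

theorem Fp_fiber (n N : ℕ) (E : Finset (Fin N)) :
    ∑ A ∈ (SM n N).filter (fun A => univ.filter (fun a => ¬ Even (A a a)) = E),
      (Polynomial.X : Polynomial ℤ) ^ wt A
    = if E.card ≤ n then Polynomial.X ^ (∑ a ∈ E, (a : ℕ)) * Kp (n - E.card) N else 0 := by
  split_ifs with hE
  · unfold Kp
    rw [Finset.mul_sum]
    refine Finset.sum_bij' (fun A _ => fun a b => A a b - dg E a b)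
      (fun A _ => fun a b => A a b + dg E a b) ?_ ?_ ?_ ?_ ?_
    · intro A hA
      rw [mem_filter, mem_SM] at hA
      obtain ⟨⟨h1, h2⟩, h3⟩ := hA
      have hle : ∀ a b, dg E a b ≤ A a b := by
        intro a b
        unfold dg
        split_ifs with h
        · obtain ⟨rfl, ha⟩ := h
          rw [← h3, mem_filter] at ha
          have := ha.2
          rcases Nat.eq_zero_or_pos (A a a) with h0 | h0
          · rw [h0] at this; exact absurd (by decide) this
          · exact h0
        · exact Nat.zero_le _
      rw [mem_filter, mem_SM]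
      refine ⟨⟨fun a b => by rw [h1 a b, dg_symm], ?_⟩, ?_⟩
      · have h4 : ∑ a, ∑ b, (A a b - dg E a b) + ∑ a, ∑ b, dg E a b = ∑ a, ∑ b, A a b := by
          rw [← Finset.sum_add_distrib]
          apply Finset.sum_congr rfl
          intro a _
          rw [← Finset.sum_add_distrib]
          apply Finset.sum_congr rfl
          intro b _
          exact Nat.sub_add_cancel (hle a b)
        have h5 : ∑ a, ∑ b, dg E a b = E.card := by
          have := sum_dg E (fun _ => 1)
          simpa using this
        omega
      · intro a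
        change Even (A a a - dg E a a)
        by_cases ha : a ∈ E
        · have h4 : dg E a a = 1 := by simp [dg, ha]
          have h5 : ¬ Even (A a a) := by
            rw [← h3, mem_filter] at ha; exact ha.2
          rw [h4]
          rw [Nat.not_even_iff_odd] at h5
          obtain ⟨r, hr⟩ := h5
          rw [hr]
          exact ⟨r, by omega⟩
        · have h4 : dg E a a = 0 := by simp [dg, ha]
          have h5 : Even (A a a) := by
            rw [← h3, mem_filter] at ha
            by_contra h6
            exact ha ⟨mem_univ _, h6⟩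
          rw [h4]
          simpa using h5
    · intro A hA
      rw [mem_filter, mem_SM] at hA
      obtain ⟨⟨h1, h2⟩, h3⟩ := hA
      rw [mem_filter, mem_SM]
      refine ⟨⟨fun a b => by rw [h1 a b, dg_symm], ?_⟩, ?_⟩
      · have h5 : ∑ a, ∑ b, dg E a b = E.card := by
          have := sum_dg E (fun _ => 1)
          simpa using this
        have h4 : ∑ a, ∑ b, (A a b + dg E a b) = ∑ a, ∑ b, A a b + ∑ a, ∑ b, dg E a b := by
          rw [← Finset.sum_add_distrib]
          apply Finset.sum_congr rfl
          intro a _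
          rw [← Finset.sum_add_distrib]
        omega
      · ext a
        simp only [mem_filter, mem_univ, true_and]
        by_cases ha : a ∈ E
        · have h4 : dg E a a = 1 := by simp [dg, ha]
          rw [h4, Nat.even_add_one, not_not]
          exact ⟨fun _ => ha, fun _ => h3 a⟩
        · have h4 : dg E a a = 0 := by simp [dg, ha]
          rw [h4, add_zero]
          exact ⟨fun h => absurd (h3 a) h, fun h => absurd h ha⟩
    · intro A hA
      rw [mem_filter, mem_SM] at hA
      obtain ⟨⟨h1, h2⟩, h3⟩ := hA
      funext a b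
      have hle : dg E a b ≤ A a b := by
        unfold dg
        split_ifs with h
        · obtain ⟨rfl, ha⟩ := h
          rw [← h3, mem_filter] at ha
          have := ha.2
          rcases Nat.eq_zero_or_pos (A a a) with h0 | h0
          · rw [h0] at this; exact absurd (by decide) this
          · exact h0
        · exact Nat.zero_le _
      exact Nat.sub_add_cancel hle
    · intro A hA
      funext a b
      simp
    · intro A hA
      rw [mem_filter, mem_SM] at hA
      obtain ⟨⟨h1, h2⟩, h3⟩ := hA
      have hle : ∀ a b, dg E a b ≤ A a b := by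
        intro a b
        unfold dg
        split_ifs with h
        · obtain ⟨rfl, ha⟩ := h
          rw [← h3, mem_filter] at ha
          have := ha.2
          rcases Nat.eq_zero_or_pos (A a a) with h0 | h0
          · rw [h0] at this; exact absurd (by decide) this
          · exact h0
        · exact Nat.zero_le _
      rw [← pow_add]
      congr 1
      rw [← sum_dg E (fun a => (a : ℕ))]
      unfold wt
      rw [← Finset.sum_add_distrib]
      apply Finset.sum_congr rfl
      intro a _
      rw [← Finset.sum_add_distrib]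
      apply Finset.sum_congr rfl
      intro b _
      rw [← Nat.mul_add, Nat.add_sub_cancel' (hle a b)]
  · apply Finset.sum_eq_zero
    intro A hA
    rw [mem_filter, mem_SM] at hA
    obtain ⟨⟨h1, h2⟩, h3⟩ := hA
    exfalso
    apply hE
    calc E.card = ∑ a ∈ E, 1 := by simp
      _ ≤ ∑ a ∈ E, A a a := by
          apply Finset.sum_le_sum
          intro a ha
          rw [← h3, mem_filter] at ha
          have := ha.2
          rcases Nat.eq_zero_or_pos (A a a) with h0 | h0
          · rw [h0] at this; exact absurd (by decide) this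
          · exact h0
      _ ≤ ∑ a, A a a := Finset.sum_le_sum_of_subset (Finset.subset_univ _)
      _ ≤ ∑ a, ∑ b, A a b := by
          apply Finset.sum_le_sum
          intro a _
          exact Finset.single_le_sum (f := fun b => A a b) (fun _ _ => Nat.zero_le _) (mem_univ a)
      _ = n := h2

theorem Fp_eq_Kp (n N : ℕ) : Fp n N = ∑ E ∈ (univ : Finset (Fin N)).powerset,
    if E.card ≤ n then Polynomial.X ^ (∑ a ∈ E, (a : ℕ)) * Kp (n - E.card) N else 0 := by
  unfold Fp
  rw [← Finset.sum_fiberwise_of_maps_to (s := SM n N)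
    (t := (univ : Finset (Fin N)).powerset)
    (g := fun A => univ.filter (fun a => ¬ Even (A a a)))
    (fun A _ => Finset.mem_powerset.2 (Finset.subset_univ _))]
  apply Finset.sum_congr rfl
  intro E _
  exact Fp_fiber n N E

theorem Kp_odd {m : ℕ} (hm : ¬ Even m) (N : ℕ) : Kp m N = 0 := by
  unfold Kp
  apply Finset.sum_eq_zero
  intro A hA
  rw [mem_filter, mem_SM] at hA
  obtain ⟨⟨h1, h2⟩, h3⟩ := hA
  exfalso
  apply hm
  have h : ((∑ p : Fin N × Fin N, A p.1 p.2 : ℕ) : ZMod 2) = 0 := by
    rw [Nat.cast_sum]
    refine Finset.sum_involution (fun (p : Fin N × Fin N) _ => p.swap) ?_ ?_ ?_ ?_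
    · intro p _
      simp only [Prod.fst_swap, Prod.snd_swap]
      rw [h1 p.2 p.1, ← two_mul]
      have : (2 : ZMod 2) = 0 := by decide
      rw [this, zero_mul]
    · rintro ⟨a, b⟩ _ hne heq
      simp only [Prod.swap_prod_mk, Prod.mk.injEq] at heq
      obtain ⟨h4, _⟩ := heq
      subst h4
      apply hne
      rw [ZMod.natCast_eq_zero_iff]
      exact even_iff_two_dvd.1 (h3 b)
    · intro p _
      exact mem_univ _
    · intro p _
      exact Prod.swap_swap p
  rw [Fintype.sum_prod_type, h2, ZMod.natCast_eq_zero_iff] at h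
  exact even_iff_two_dvd.2 h

/-- twice the weight. -/
theorem two_wt {A : Fin N → Fin N → ℕ} (hA : ∀ a b, A a b = A b a) :
    2 * wt A = ∑ a : Fin N, ∑ b : Fin N, ((a : ℕ) + b) * A a b := by
  have : wt A = ∑ a : Fin N, ∑ b : Fin N, (b : ℕ) * A a b := by
    unfold wt
    rw [Finset.sum_comm]
    apply Finset.sum_congr rfl
    intro a _
    apply Finset.sum_congr rfl
    intro b _
    rw [hA]
  rw [two_mul]
  nth_rewrite 2 [this]
  unfold wt
  rw [← Finset.sum_add_distrib]
  apply Finset.sum_congr rfl
  intro a _
  rw [← Finset.sum_add_distrib]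
  apply Finset.sum_congr rfl
  intro b _
  ring

theorem wt_ge {m : ℕ} {A : Fin (N + 1) → Fin (N + 1) → ℕ} (hA : ∀ a b, A a b = A b a)
    (hs : ∑ a, ∑ b, A a b = m) (h0 : A 0 0 = 0) : m ≤ 2 * wt A := by
  rw [two_wt hA, ← hs]
  apply Finset.sum_le_sum
  intro a _
  apply Finset.sum_le_sum
  intro b _
  by_cases h : (a : ℕ) + b = 0
  · have ha : a = 0 := Fin.ext (by rw [Fin.val_zero]; omega)
    have hb : b = 0 := Fin.ext (by rw [Fin.val_zero]; omega)
    rw [ha, hb, h0]
    simp
  · exact Nat.le_mul_of_pos_left _ (Nat.pos_of_ne_zero h)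

theorem Kp_step (j N : ℕ) : (Polynomial.X : Polynomial ℤ) ^ (j + 1) ∣
    Kp (2 * (j + 1)) (N + 1) - Kp (2 * j) (N + 1) := by
  have hsplit : Kp (2 * (j + 1)) (N + 1)
      = Kp (2 * j) (N + 1) + ∑ A ∈ ((SM (2 * (j + 1)) (N + 1)).filter
        (fun A => ∀ a, Even (A a a))).filter (fun A => A 0 0 = 0), Polynomial.X ^ wt A := by
    unfold Kp
    rw [← Finset.sum_filter_not_add_sum_filter _ (fun A : Fin (N + 1) → Fin (N + 1) → ℕ =>
      A 0 0 = 0)]
    congr 1
    refine Finset.sum_bij' (fun A _ => fun a b => A a b - 2 * dg {0} a b)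
      (fun A _ => fun a b => A a b + 2 * dg {0} a b) ?_ ?_ ?_ ?_ ?_
    · intro A hA
      rw [mem_filter, mem_filter, mem_SM] at hA
      obtain ⟨⟨⟨h1, h2⟩, h3⟩, h4⟩ := hA
      have h00 : 2 ≤ A 0 0 := by
        obtain ⟨r, hr⟩ := h3 0
        omega
      have hle : ∀ a b, 2 * dg {0} a b ≤ A a b := by
        intro a b
        unfold dg
        split_ifs with h
        · obtain ⟨rfl, ha⟩ := h
          rw [mem_singleton] at ha
          rw [ha]
          exact h00
        · exact Nat.zero_le _
      rw [mem_filter, mem_SM]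
      refine ⟨⟨fun a b => by rw [h1 a b, dg_symm], ?_⟩, ?_⟩
      · have h6 : ∑ a, ∑ b, (A a b - 2 * dg {0} a b)
            + ∑ a : Fin (N + 1), ∑ b : Fin (N + 1), 2 * dg {0} a b = ∑ a, ∑ b, A a b := by
          rw [← Finset.sum_add_distrib]
          apply Finset.sum_congr rfl
          intro a _
          rw [← Finset.sum_add_distrib]
          apply Finset.sum_congr rfl
          intro b _
          exact Nat.sub_add_cancel (hle a b)
        have h5 : ∑ a, ∑ b, 2 * dg ({0} : Finset (Fin (N + 1))) a b = 2 := by
          have := sum_dg ({0} : Finset (Fin (N + 1))) (fun _ => 2)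
          simpa using this
        omega
      · intro a
        obtain ⟨r, hr⟩ := h3 a
        exact ⟨r - dg {0} a a, by change A a a - 2 * dg {0} a a = _; omega⟩
    · intro A hA
      rw [mem_filter, mem_SM] at hA
      obtain ⟨⟨h1, h2⟩, h3⟩ := hA
      rw [mem_filter, mem_filter, mem_SM]
      refine ⟨⟨⟨fun a b => by rw [h1 a b, dg_symm], ?_⟩, ?_⟩, ?_⟩
      · have h5 : ∑ a, ∑ b, 2 * dg ({0} : Finset (Fin (N + 1))) a b = 2 := by
          have := sum_dg ({0} : Finset (Fin (N + 1))) (fun _ => 2)
          simpa using this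
        have h4 : ∑ a, ∑ b, (A a b + 2 * dg {0} a b) = ∑ a, ∑ b, A a b
            + ∑ a : Fin (N + 1), ∑ b : Fin (N + 1), 2 * dg {0} a b := by
          rw [← Finset.sum_add_distrib]
          apply Finset.sum_congr rfl
          intro a _
          rw [← Finset.sum_add_distrib]
        omega
      · intro a
        obtain ⟨r, hr⟩ := h3 a
        exact ⟨r + dg {0} a a, by change A a a + 2 * dg {0} a a = _; omega⟩
      · simp [dg]
    · intro A hA
      rw [mem_filter, mem_filter, mem_SM] at hA
      obtain ⟨⟨⟨h1, h2⟩, h3⟩, h4⟩ := hA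
      have h00 : 2 ≤ A 0 0 := by
        obtain ⟨r, hr⟩ := h3 0
        omega
      funext a b
      have hle : 2 * dg {0} a b ≤ A a b := by
        unfold dg
        split_ifs with h
        · obtain ⟨rfl, ha⟩ := h
          rw [mem_singleton] at ha
          rw [ha]
          exact h00
        · exact Nat.zero_le _
      exact Nat.sub_add_cancel hle
    · intro A hA
      funext a b
      simp
    · intro A hA
      rw [mem_filter, mem_filter, mem_SM] at hA
      congr 1
      unfold wt
      apply Finset.sum_congr rfl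
      intro a _
      apply Finset.sum_congr rfl
      intro b _
      change (a : ℕ) * A a b = (a : ℕ) * (A a b - 2 * dg {0} a b)
      by_cases ha : (a : ℕ) = 0
      · rw [ha]; simp
      · have : dg {0} a b = 0 := by
          unfold dg
          rw [if_neg]
          rintro ⟨_, h⟩
          rw [mem_singleton] at h
          apply ha
          rw [h]
          rfl
        rw [this]
        simp
  rw [hsplit, add_sub_cancel_left]
  apply Finset.dvd_sum
  intro A hA
  rw [mem_filter, mem_filter, mem_SM] at hA
  obtain ⟨⟨⟨h1, h2⟩, h3⟩, h4⟩ := hA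
  have := wt_ge h1 h2 h4
  exact pow_dvd_pow _ (by omega)

theorem Kp_stable {j j' : ℕ} (h : j ≤ j') (N : ℕ) : (Polynomial.X : Polynomial ℤ) ^ (j + 1) ∣
    Kp (2 * j') (N + 1) - Kp (2 * j) (N + 1) := by
  induction j', h using Nat.le_induction with
  | base => simp
  | succ k hk ih =>
    have h1 : (Polynomial.X : Polynomial ℤ) ^ (j + 1) ∣
        Kp (2 * (k + 1)) (N + 1) - Kp (2 * k) (N + 1) :=
      dvd_trans (pow_dvd_pow _ (by omega)) (Kp_step k N)
    have := dvd_add h1 ih
    simpa using this

/-- the polynomial `(1+q)(1+q^2)...(1+q^N)`. -/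
noncomputable def Q (N : ℕ) : Polynomial ℤ := ∏ i ∈ range N, (1 + Polynomial.X ^ (i + 1))

theorem Fp_stable {n j : ℕ} (hj : n / 2 ≤ j) (N : ℕ) : (Polynomial.X : Polynomial ℤ) ^ (n / 2 + 1) ∣
    Fp n (N + 1) - Q N * Kp (2 * j) (N + 1) := by
  classical
  have huniv : (univ : Finset (Fin (N + 1))) = insert 0 (univ.erase 0) := by
    rw [Finset.insert_erase (mem_univ _)]
  have hQ : Q N = ∑ E ∈ ((univ : Finset (Fin (N + 1))).erase 0).powerset,
      (Polynomial.X : Polynomial ℤ) ^ (∑ a ∈ E, (a : ℕ)) := by
    have h1 : Q N = ∏ a ∈ (univ : Finset (Fin (N + 1))).erase 0,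
        (1 + (Polynomial.X : Polynomial ℤ) ^ (a : ℕ)) := by
      unfold Q
      symm
      refine Finset.prod_bij' (fun (a : Fin (N + 1)) _ => (a : ℕ) - 1)
        (fun i (hi : i ∈ range N) => (⟨i + 1, by rw [mem_range] at hi; omega⟩ : Fin (N + 1)))
        ?_ ?_ ?_ ?_ ?_
      · intro a ha
        rw [mem_erase] at ha
        rw [mem_range]
        have := a.2
        have h0 : (a : ℕ) ≠ 0 := fun h => ha.1 (Fin.ext (by simpa using h))
        omega
      · intro i hi
        rw [mem_erase]
        refine ⟨?_, mem_univ _⟩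
        intro h
        have := congrArg Fin.val h
        simp at this
      · intro a ha
        rw [mem_erase] at ha
        have h0 : (a : ℕ) ≠ 0 := fun h => ha.1 (Fin.ext (by simpa using h))
        apply Fin.ext
        simp only
        omega
      · intro i hi
        simp
      · intro a ha
        rw [mem_erase] at ha
        have h0 : (a : ℕ) ≠ 0 := fun h => ha.1 (Fin.ext (by simpa using h))
        rw [Nat.sub_add_cancel (by omega)]
    rw [h1, Finset.prod_one_add]
    apply Finset.sum_congr rfl
    intro E _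
    rw [Finset.prod_pow_eq_pow_sum]
  have hF : Fp n (N + 1) = ∑ E ∈ ((univ : Finset (Fin (N + 1))).erase 0).powerset,
      if E.card ≤ n then (Polynomial.X : Polynomial ℤ) ^ (∑ a ∈ E, (a : ℕ))
        * Kp (2 * ((n - E.card) / 2)) (N + 1) else 0 := by
    rw [Fp_eq_Kp]
    conv_lhs => rw [huniv]
    rw [Finset.sum_powerset_insert (Finset.notMem_erase _ _), ← Finset.sum_add_distrib]
    apply Finset.sum_congr rfl
    intro E hE
    have h0 : (0 : Fin (N + 1)) ∉ E := fun h => Finset.notMem_erase _ _ (Finset.mem_powerset.1 hE h)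
    rw [Finset.card_insert_of_notMem h0, Finset.sum_insert h0]
    simp only [Fin.val_zero, zero_add]
    by_cases h1 : E.card + 1 ≤ n
    · rw [if_pos h1, if_pos (by omega), if_pos (by omega), ← mul_add]
      congr 1
      by_cases h2 : Even (n - E.card)
      · have h3 : ¬ Even (n - (E.card + 1)) := by
          intro h4
          obtain ⟨r, hr⟩ := h2
          obtain ⟨s, hs⟩ := h4
          omega
        rw [Kp_odd h3, add_zero]
        congr 1
        obtain ⟨r, hr⟩ := h2
        omega
      · rw [Kp_odd h2, zero_add]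
        congr 1
        rw [Nat.not_even_iff_odd] at h2
        obtain ⟨r, hr⟩ := h2
        omega
    · rw [if_neg h1, add_zero]
      by_cases h2 : E.card ≤ n
      · rw [if_pos h2, if_pos h2]
        congr 2
        omega
      · rw [if_neg h2, if_neg h2]
  have hcard : ∀ E ∈ ((univ : Finset (Fin (N + 1))).erase 0).powerset,
      E.card ≤ ∑ a ∈ E, (a : ℕ) := by
    intro E hE
    rw [Finset.card_eq_sum_ones]
    apply Finset.sum_le_sum
    intro a ha
    have := Finset.mem_powerset.1 hE ha
    rw [mem_erase] at this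
    have h0 : (a : ℕ) ≠ 0 := fun h => this.1 (Fin.ext (by simpa using h))
    omega
  rw [hF, hQ, Finset.sum_mul, ← Finset.sum_sub_distrib]
  apply Finset.dvd_sum
  intro E hE
  have hc := hcard E hE
  split_ifs with h1
  · rw [← mul_sub]
    have h2 : (n - E.card) / 2 ≤ j := by omega
    have h3 := Kp_stable h2 N
    have h4 := mul_dvd_mul (dvd_refl ((Polynomial.X : Polynomial ℤ) ^ (∑ a ∈ E, (a : ℕ)))) h3
    rw [← pow_add] at h4
    rw [← dvd_neg, ← mul_neg, neg_sub]
    exact dvd_trans (pow_dvd_pow _ (by omega)) h4
  · rw [zero_sub, dvd_neg]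
    exact Dvd.dvd.mul_right (pow_dvd_pow _ (by omega)) _

end Pool.H56.Inv
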